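import Pool.Agent.H47.KZ.OneD

/-!
MODULE Cov: covariances on an interval (see `cov` in Defs).
* `cov_s_ind`: `∫_a^b s p 1_{q<t} = ∫_q^b s p = kap q p - kap b p` (`int_s`), `∫_a^b 1_{q<t} = b - q`.
* `cov_ind_out`: the indicator is constant on `(a,b]` up to one point.
* `cov_s_right`: `s q = 1_{q<t} + 1_{-q<t} - 1`, covariance with a constant is 0.
* `cov_s_id`: FTC for `(t - m) kap t p`, `m = (a+b)/2`, derivative `kap t p - (t-m) s p t` off `{p,-p}`
  (`MeasureTheory.integral_eq_of_hasDerivAt_off_countable`);
  `cov = ∫ s p t (t - m)`.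
* `cov_s_s_le`: if `±p` are not in `[a,b]`, `s p` is constant on `[a,b]`, else `cov <= ∫ (s p)^2 <= b - a`.
* `cov_s_id_abs`: `0 ≤ cov (f ± g, f ± g)`.
-/

namespace Pool.Agent.H47.KZ

open Finset MeasureTheory

private lemma ind_intInt (q a b : ℝ) :
    IntervalIntegrable (fun t : ℝ => if q < t then (1 : ℝ) else 0) volume a b := by
  have hm : Measurable (fun t : ℝ => if q < t then (1 : ℝ) else 0) :=
    Measurable.ite measurableSet_Ioi measurable_const measurable_const
  refine ((continuous_const (y := (1 : ℝ))).intervalIntegrable a b).mono_fun'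
    hm.aestronglyMeasurable ?_
  refine Filter.Eventually.of_forall fun t => ?_
  change ‖(if q < t then (1 : ℝ) else 0)‖ ≤ 1
  split_ifs <;> norm_num

private lemma mul_ind_eq (f : ℝ → ℝ) (q : ℝ) :
    (fun t : ℝ => f t * (if q < t then (1 : ℝ) else 0)) = Set.indicator (Set.Ioi q) f := by
  funext t
  by_cases h : q < t
  · rw [if_pos h, mul_one, Set.indicator_of_mem (Set.mem_Ioi.2 h)]
  · rw [if_neg h, mul_zero, Set.indicator_of_notMem (fun h' => h (Set.mem_Ioi.1 h'))]

private lemma mul_ind_intInt (f : ℝ → ℝ) (q a b : ℝ) (hf : IntervalIntegrable f volume a b) :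
    IntervalIntegrable (fun t : ℝ => f t * (if q < t then (1 : ℝ) else 0)) volume a b := by
  rw [mul_ind_eq]
  exact ⟨hf.1.indicator measurableSet_Ioi, hf.2.indicator measurableSet_Ioi⟩

private lemma int_mul_ind_le (f : ℝ → ℝ) (a b q : ℝ) (hab : a ≤ b) (hq : q ≤ a) :
    ∫ t in a..b, f t * (if q < t then (1 : ℝ) else 0) = ∫ t in a..b, f t := by
  refine intervalIntegral.integral_congr_ae (Filter.Eventually.of_forall fun t ht => ?_)
  rw [Set.uIoc_of_le hab] at ht
  rw [if_pos (lt_of_le_of_lt hq ht.1), mul_one]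

private lemma int_mul_ind_ge (f : ℝ → ℝ) (a b q : ℝ) (hab : a ≤ b) (hq : b ≤ q) :
    ∫ t in a..b, f t * (if q < t then (1 : ℝ) else 0) = 0 := by
  have h : ∫ t in a..b, f t * (if q < t then (1 : ℝ) else 0) = ∫ t in a..b, (0 : ℝ) := by
    refine intervalIntegral.integral_congr_ae (Filter.Eventually.of_forall fun t ht => ?_)
    rw [Set.uIoc_of_le hab] at ht
    rw [if_neg (not_lt.2 (ht.2.trans hq)), mul_zero]
  rw [h, intervalIntegral.integral_zero]

private lemma int_mul_ind (f : ℝ → ℝ) (a b q : ℝ) (ha : a ≤ q) (hb : q ≤ b)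
    (hf : IntervalIntegrable f volume a b) :
    ∫ t in a..b, f t * (if q < t then (1 : ℝ) else 0) = ∫ t in q..b, f t := by
  have hi := mul_ind_intInt f q a b hf
  have h1 : Set.uIcc a q ⊆ Set.uIcc a b := by
    rw [Set.uIcc_of_le ha, Set.uIcc_of_le (ha.trans hb)]
    exact Set.Icc_subset_Icc_right hb
  have h2 : Set.uIcc q b ⊆ Set.uIcc a b := by
    rw [Set.uIcc_of_le hb, Set.uIcc_of_le (ha.trans hb)]
    exact Set.Icc_subset_Icc_left ha
  rw [← intervalIntegral.integral_add_adjacent_intervals (hi.mono_set h1) (hi.mono_set h2),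
    int_mul_ind_ge f a q q ha le_rfl, int_mul_ind_le f q b q hb le_rfl, zero_add]

private lemma int_ind (a b q : ℝ) (ha : a ≤ q) (hb : q ≤ b) :
    ∫ t in a..b, (if q < t then (1 : ℝ) else 0) = b - q := by
  have h := int_mul_ind (fun _ => (1 : ℝ)) a b q ha hb intervalIntegrable_const
  simp only [one_mul] at h
  rw [h, intervalIntegral.integral_const, smul_eq_mul, mul_one]

private lemma kap_deriv {p x : ℝ} (hp : 0 ≤ p) (hx1 : x ≠ p) (hx2 : x ≠ -p) :
    HasDerivAt (fun t => kap t p) (-s p x) x := by
  rcases lt_or_gt_of_ne hx1 with h1 | h1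
  · rcases lt_or_gt_of_ne hx2 with h2 | h2
    · have hs : s p x = -1 := by
        unfold s
        rw [if_neg (by linarith), if_neg (by linarith)]
        norm_num
      rw [hs]
      have h3 : HasDerivAt (fun t : ℝ => 1 + t) (- -1) x := by
        have h4 := (hasDerivAt_id x).const_add 1
        refine h4.congr_deriv ?_
        norm_num
      refine h3.congr_of_eventuallyEq ?_
      filter_upwards [gt_mem_nhds h2] with t ht
      unfold kap
      rw [abs_of_neg (by linarith), max_eq_left (by linarith)]
      ring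
    · have hs : s p x = 0 := by
        unfold s
        rw [if_neg (by linarith), if_pos h2]
        norm_num
      rw [hs]
      have h3 : HasDerivAt (fun _ : ℝ => 1 - p) (-0) x := by
        rw [neg_zero]
        exact hasDerivAt_const x _
      refine h3.congr_of_eventuallyEq ?_
      filter_upwards [gt_mem_nhds h1, lt_mem_nhds h2] with t ht ht'
      unfold kap
      rw [max_eq_right (abs_le.2 ⟨ht'.le, ht.le⟩)]
  · have hs : s p x = 1 := by
      unfold s
      rw [if_pos h1, if_pos (by linarith)]
      norm_num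
    rw [hs]
    have h3 : HasDerivAt (fun t : ℝ => 1 - t) (-1) x := (hasDerivAt_id x).const_sub 1
    refine h3.congr_of_eventuallyEq ?_
    filter_upwards [lt_mem_nhds h1] with t ht
    unfold kap
    rw [abs_of_pos (by linarith), max_eq_left (by linarith)]

private lemma int_s_mul_id (a b p : ℝ) (hp : 0 ≤ p) :
    ∫ t in a..b, s p t * t = (∫ t in a..b, kap t p) - (b * kap b p - a * kap a p) := by
  have hk : IntervalIntegrable (fun t => kap t p) volume a b :=
    (kap_continuous p).intervalIntegrable a b
  have h := integral_eq_of_hasDerivAt_off_countable (fun t => t * kap t p)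
    (fun t => kap t p - s p t * t) (a := a) (b := b) (s := ({p, -p} : Set ℝ))
    (Set.Countable.insert _ (Set.countable_singleton _))
    (continuous_id.mul (kap_continuous p)).continuousOn ?_ (hk.sub (s_mul_id_intInt p a b))
  · rw [intervalIntegral.integral_sub hk (s_mul_id_intInt p a b)] at h
    linarith
  rintro x ⟨_, hx⟩
  have hx1 : x ≠ p := fun h => hx (Or.inl h)
  have hx2 : x ≠ -p := fun h => hx (Or.inr h)
  have h4 := (hasDerivAt_id x).mul (kap_deriv hp hx1 hx2)
  refine h4.congr_deriv ?_
  simp only [id]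
  ring

/-- centering -/
private lemma int_centered (a b : ℝ) (hab : a < b) (f g : ℝ → ℝ) (u v : ℝ)
    (hf : IntervalIntegrable f volume a b) (hg : IntervalIntegrable g volume a b)
    (hfg : IntervalIntegrable (fun t => f t * g t) volume a b)
    (hu : ∫ t in a..b, f t = u * (b - a)) (hv : ∫ t in a..b, g t = v * (b - a)) :
    ∫ t in a..b, (f t - u) * (g t - v) = cov a b f g := by
  have hne : b - a ≠ 0 := by linarith
  have h1 : IntervalIntegrable (fun t => v * f t) volume a b := hf.const_mul v
  have h2 : IntervalIntegrable (fun t => u * g t) volume a b := hg.const_mul u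
  have h3 : IntervalIntegrable (fun _ : ℝ => u * v) volume a b := intervalIntegrable_const
  have he : ∫ t in a..b, (f t - u) * (g t - v)
      = ∫ t in a..b, (((f t * g t - v * f t) - u * g t) + u * v) := by
    congr 1
    funext t
    ring
  rw [he, intervalIntegral.integral_add ((hfg.sub h1).sub h2) h3,
    intervalIntegral.integral_sub (hfg.sub h1) h2, intervalIntegral.integral_sub hfg h1,
    intervalIntegral.integral_const_mul, intervalIntegral.integral_const_mul,
    intervalIntegral.integral_const, smul_eq_mul]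
  unfold cov
  rw [hu, hv]
  field_simp
  ring

private lemma centered_intInt (a b : ℝ) (f g : ℝ → ℝ) (u v : ℝ)
    (hf : IntervalIntegrable f volume a b) (hg : IntervalIntegrable g volume a b)
    (hfg : IntervalIntegrable (fun t => f t * g t) volume a b) :
    IntervalIntegrable (fun t => (f t - u) * (g t - v)) volume a b := by
  have h1 : IntervalIntegrable (fun t => v * f t) volume a b := hf.const_mul v
  have h2 : IntervalIntegrable (fun t => u * g t) volume a b := hg.const_mul u
  have h3 : IntervalIntegrable (fun _ : ℝ => u * v) volume a b := intervalIntegrable_const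
  have he : (fun t => (f t - u) * (g t - v))
      = fun t => (((f t * g t - v * f t) - u * g t) + u * v) := by
    funext t
    ring
  rw [he]
  exact ((hfg.sub h1).sub h2).add h3

private lemma id_intInt (a b : ℝ) : IntervalIntegrable (fun t : ℝ => t) volume a b :=
  continuous_id.intervalIntegrable a b

private lemma id_id_intInt (a b : ℝ) : IntervalIntegrable (fun t : ℝ => t * t) volume a b :=
  (continuous_id.mul continuous_id).intervalIntegrable a b

private lemma int_s_avs (a b p : ℝ) (hab : a < b) : ∫ t in a..b, s p t = avs a b p * (b - a) := by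
  have hne : b - a ≠ 0 := by linarith
  unfold avs
  field_simp

private lemma int_id_avs (a b : ℝ) : ∫ t in a..b, t = (a + b) / 2 * (b - a) := by
  rw [integral_id]
  ring

private lemma abs_int_le (a b : ℝ) (hab : a < b) (f : ℝ → ℝ)
    (h : ∀ t, a < t → t ≤ b → |f t| ≤ 1) : |∫ t in a..b, f t| ≤ b - a := by
  have h1 := intervalIntegral.norm_integral_le_of_norm_le_const (a := a) (b := b) (C := 1) (f := f)
    (fun t ht => by
      rw [Set.uIoc_of_le hab.le] at ht
      exact h t ht.1 ht.2)
  rw [one_mul, abs_of_pos (by linarith : (0 : ℝ) < b - a), Real.norm_eq_abs] at h1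
  exact h1

private lemma cov_abs_le (a b : ℝ) (hab : a < b) (f g : ℝ → ℝ)
    (hf : ∀ t, a < t → t ≤ b → |f t| ≤ 1) (hg : ∀ t, a < t → t ≤ b → |g t| ≤ 1) :
    |cov a b f g| ≤ 2 * (b - a) := by
  have hpos : 0 < b - a := by linarith
  have h1 := abs_int_le a b hab f hf
  have h2 := abs_int_le a b hab g hg
  have h3 := abs_int_le a b hab (fun t => f t * g t) (fun t ht ht' => by
    rw [abs_mul]
    exact mul_le_one₀ (hf t ht ht') (abs_nonneg _) (hg t ht ht'))
  have h4 : |(∫ t in a..b, f t) * (∫ t in a..b, g t) / (b - a)| ≤ b - a := by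
    rw [abs_div, abs_mul, abs_of_pos hpos, div_le_iff₀ hpos]
    exact mul_le_mul h1 h2 (abs_nonneg _) hpos.le
  unfold cov
  refine (abs_sub _ _).trans ?_
  linarith

/-- covariance with an indicator, inside -/
lemma cov_s_ind (a b p q : ℝ) (hp : 0 ≤ p) (ha : a ≤ q) (hb : q ≤ b) (hab : a < b) :
    cov a b (s p) (fun t => if q < t then (1 : ℝ) else 0)
      = kap q p - ((b - q) * kap a p + (q - a) * kap b p) / (b - a) := by
  have hne : b - a ≠ 0 := by linarith
  unfold cov
  rw [int_mul_ind (s p) a b q ha hb (s_intInt p a b), int_ind a b q ha hb, int_s p q b hp,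
    int_s p a b hp]
  field_simp
  ring

lemma cov_id_ind (a b q : ℝ) (ha : a ≤ q) (hb : q ≤ b) (hab : a < b) :
    cov a b (fun t => t) (fun t => if q < t then (1 : ℝ) else 0) = (b - q) * (q - a) / 2 := by
  have hne : b - a ≠ 0 := by linarith
  unfold cov
  rw [int_mul_ind (fun t => t) a b q ha hb (id_intInt a b), int_ind a b q ha hb, int_id_avs,
    int_id_avs]
  field_simp
  ring

/-- covariance with an indicator whose jump is outside `(a,b)` -/
lemma cov_ind_out (a b q : ℝ) (hab : a < b) (hq : q ≤ a ∨ b ≤ q) (f : ℝ → ℝ)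
    (hf : IntervalIntegrable f volume a b) :
    cov a b f (fun t => if q < t then (1 : ℝ) else 0) = 0 := by
  have hne : b - a ≠ 0 := by linarith
  unfold cov
  rcases hq with hq | hq
  · have h1 := int_mul_ind_le (fun _ => (1 : ℝ)) a b q hab.le hq
    simp only [one_mul] at h1
    rw [int_mul_ind_le f a b q hab.le hq, h1, intervalIntegral.integral_const, smul_eq_mul]
    field_simp
    ring
  · have h1 := int_mul_ind_ge (fun _ => (1 : ℝ)) a b q hab.le hq
    simp only [one_mul] at h1
    rw [int_mul_ind_ge f a b q hab.le hq, h1]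
    simp

/-- covariance with `s q` = sum of the covariances with the two indicators -/
lemma cov_s_right (a b q : ℝ) (hab : a < b) (f : ℝ → ℝ) (hf : IntervalIntegrable f volume a b) :
    cov a b f (s q) = cov a b f (fun t => if q < t then (1 : ℝ) else 0)
      + cov a b f (fun t => if -q < t then (1 : ℝ) else 0) := by
  have hne : b - a ≠ 0 := by linarith
  have h1 := mul_ind_intInt f q a b hf
  have h2 := mul_ind_intInt f (-q) a b hf
  have i1 := ind_intInt q a b
  have i2 := ind_intInt (-q) a b
  have i3 : IntervalIntegrable (fun _ : ℝ => (1 : ℝ)) volume a b := intervalIntegrable_const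
  have e1 : ∫ t in a..b, f t * s q t = (∫ t in a..b, f t * (if q < t then (1 : ℝ) else 0))
      + (∫ t in a..b, f t * (if -q < t then (1 : ℝ) else 0)) - ∫ t in a..b, f t := by
    rw [← intervalIntegral.integral_add h1 h2, ← intervalIntegral.integral_sub (h1.add h2) hf]
    congr 1
    funext t
    unfold s
    ring
  have e2 : ∫ t in a..b, s q t = (∫ t in a..b, (if q < t then (1 : ℝ) else 0))
      + (∫ t in a..b, (if -q < t then (1 : ℝ) else 0)) - (b - a) := by
    have h3 : (∫ _t in a..b, (1 : ℝ)) = b - a := by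
      rw [intervalIntegral.integral_const, smul_eq_mul, mul_one]
    rw [← h3, ← intervalIntegral.integral_add i1 i2, ← intervalIntegral.integral_sub (i1.add i2) i3]
    congr 1
  unfold cov
  rw [e1, e2]
  field_simp
  ring

lemma cov_comm (a b : ℝ) (f g : ℝ → ℝ) : cov a b f g = cov a b g f := by
  unfold cov
  have h : ∫ t in a..b, f t * g t = ∫ t in a..b, g t * f t := by
    congr 1
    funext t
    exact mul_comm _ _
  rw [h, mul_comm (∫ t in a..b, f t)]

lemma cov_s_id (a b p : ℝ) (hp : 0 ≤ p) (hab : a < b) :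
    cov a b (s p) (fun t => t)
      = (∫ t in a..b, kap t p) - (b - a) / 2 * (kap a p + kap b p) := by
  have hne : b - a ≠ 0 := by linarith
  unfold cov
  rw [int_s_mul_id a b p hp, int_s p a b hp, int_id_avs]
  field_simp
  ring

lemma cov_id_id (a b : ℝ) (hab : a < b) :
    cov a b (fun t => t) (fun t => t) = (b - a) ^ 3 / 12 := by
  have hne : b - a ≠ 0 := by linarith
  have h : ∫ t in a..b, t * t = (b ^ 3 - a ^ 3) / 3 := by
    have h1 := integral_pow (a := a) (b := b) 2
    have h2 : ∫ t in a..b, t * t = ∫ t in a..b, t ^ 2 := by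
      congr 1
      funext t
      ring
    rw [h2, h1]
    norm_num
  unfold cov
  rw [h, int_id_avs]
  field_simp
  ring

lemma cov_s_s_nonneg (a b p : ℝ) (hp : 0 ≤ p) (hab : a < b) : 0 ≤ cov a b (s p) (s p) := by
  rw [← int_centered a b hab (s p) (s p) (avs a b p) (avs a b p) (s_intInt p a b) (s_intInt p a b)
    (s_mul_intInt p p a b) (int_s_avs a b p hab) (int_s_avs a b p hab)]
  exact intervalIntegral.integral_nonneg hab.le fun t _ => mul_self_nonneg _

lemma cov_s_s_le (a b p : ℝ) (hp : 0 ≤ p) (hab : a < b) :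
    cov a b (s p) (s p) ≤ (b - a) * chi a b p := by
  have hpos : 0 < b - a := by linarith
  by_cases h1 : (a ≤ p ∧ p ≤ b) ∨ (a ≤ -p ∧ -p ≤ b)
  · have hchi : 1 ≤ chi a b p := by
      unfold chi
      rcases h1 with h | h
      · rw [if_pos h]
        have : (0 : ℝ) ≤ if a ≤ -p ∧ -p ≤ b then 1 else 0 := by split_ifs <;> norm_num
        linarith
      · rw [if_pos h]
        have : (0 : ℝ) ≤ if a ≤ p ∧ p ≤ b then 1 else 0 := by split_ifs <;> norm_num
        linarith
    have h2 : cov a b (s p) (s p) ≤ b - a := by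
      have h3 := (abs_le.1 (abs_int_le a b hab (fun t => s p t * s p t) (fun t _ _ => by
        rw [abs_mul]
        exact mul_le_one₀ (s_abs_le p t hp) (abs_nonneg _) (s_abs_le p t hp)))).2
      have h4 : 0 ≤ (∫ t in a..b, s p t) * (∫ t in a..b, s p t) / (b - a) :=
        div_nonneg (mul_self_nonneg _) hpos.le
      unfold cov
      linarith
    nlinarith
  · push Not at h1
    have hchi : chi a b p = 0 := by
      unfold chi
      rw [if_neg (fun h => absurd h.2 (not_le.2 (h1.1 h.1))),
        if_neg (fun h => absurd h.2 (not_le.2 (h1.2 h.1)))]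
      norm_num
    have h2 : p ≤ a ∨ b ≤ p := by
      rcases lt_or_ge p a with h | h
      · exact Or.inl h.le
      · exact Or.inr (h1.1 h).le
    have h3 : -p ≤ a ∨ b ≤ -p := by
      rcases lt_or_ge (-p) a with h | h
      · exact Or.inl h.le
      · exact Or.inr (h1.2 h).le
    rw [hchi, mul_zero, cov_s_right a b p hab (s p) (s_intInt p a b),
      cov_ind_out a b p hab h2 (s p) (s_intInt p a b),
      cov_ind_out a b (-p) hab h3 (s p) (s_intInt p a b), add_zero]

/-- `2 |cov (s, id)| ≤ cov (s,s) + cov (id,id)` -/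
lemma cov_s_id_abs (a b p : ℝ) (hp : 0 ≤ p) (hab : a < b) :
    2 * |cov a b (s p) (fun t => t)| ≤ cov a b (s p) (s p)
      + cov a b (fun t => t) (fun t => t) := by
  have c1 := int_centered a b hab (s p) (s p) (avs a b p) (avs a b p) (s_intInt p a b)
    (s_intInt p a b) (s_mul_intInt p p a b) (int_s_avs a b p hab) (int_s_avs a b p hab)
  have c2 := int_centered a b hab (s p) (fun t => t) (avs a b p) ((a + b) / 2) (s_intInt p a b)
    (id_intInt a b) (s_mul_id_intInt p a b) (int_s_avs a b p hab) (int_id_avs a b)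
  have c3 := int_centered a b hab (fun t => t) (fun t => t) ((a + b) / 2) ((a + b) / 2)
    (id_intInt a b) (id_intInt a b) (id_id_intInt a b) (int_id_avs a b) (int_id_avs a b)
  have d1 := centered_intInt a b (s p) (s p) (avs a b p) (avs a b p) (s_intInt p a b)
    (s_intInt p a b) (s_mul_intInt p p a b)
  have d2 := centered_intInt a b (s p) (fun t => t) (avs a b p) ((a + b) / 2) (s_intInt p a b)
    (id_intInt a b) (s_mul_id_intInt p a b)
  have d3 := centered_intInt a b (fun t => t) (fun t => t) ((a + b) / 2) ((a + b) / 2)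
    (id_intInt a b) (id_intInt a b) (id_id_intInt a b)
  have key : ∀ e : ℝ, e * e = 1 → 0 ≤ cov a b (s p) (s p) + 2 * e * cov a b (s p) (fun t => t)
      + cov a b (fun t => t) (fun t => t) := by
    intro e he
    rw [← c1, ← c2, ← c3, ← intervalIntegral.integral_const_mul,
      ← intervalIntegral.integral_add d1 (d2.const_mul (2 * e)),
      ← intervalIntegral.integral_add (d1.add (d2.const_mul (2 * e))) d3]
    refine intervalIntegral.integral_nonneg hab.le fun t _ => ?_
    have h : (s p t - avs a b p) * (s p t - avs a b p)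
        + 2 * e * ((s p t - avs a b p) * (t - (a + b) / 2)) + (t - (a + b) / 2) * (t - (a + b) / 2)
        = (s p t - avs a b p + e * (t - (a + b) / 2)) ^ 2 := by
      linear_combination (-(t - (a + b) / 2) ^ 2) * he
    rw [h]
    exact sq_nonneg _
  have k1 := key 1 (by norm_num)
  have k2 := key (-1) (by norm_num)
  rcases abs_cases (cov a b (s p) (fun t => t)) with ⟨h, _⟩ | ⟨h, _⟩ <;> rw [h] <;> linarith

/-- crude bounds -/
lemma cov_s_s_abs (a b p q : ℝ) (hp : 0 ≤ p) (hq : 0 ≤ q) (hab : a < b) :
    |cov a b (s p) (s q)| ≤ 2 * (b - a) := by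
  exact cov_abs_le a b hab (s p) (s q) (fun t _ _ => s_abs_le p t hp) (fun t _ _ => s_abs_le q t hq)

lemma cov_s_id_abs' (a b p : ℝ) (hp : 0 ≤ p) (ha : -1 ≤ a) (hab : a < b) (hb : b ≤ 1) :
    |cov a b (s p) (fun t => t)| ≤ 2 * (b - a) := by
  refine cov_abs_le a b hab (s p) (fun t => t) (fun t _ _ => s_abs_le p t hp) (fun t ht ht' => ?_)
  exact abs_le.2 ⟨by linarith, by linarith⟩

/-- centered products integrate to the covariance -/
lemma int_centered_s_s (a b p q : ℝ) (hp : 0 ≤ p) (hq : 0 ≤ q) (hab : a < b) :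
    ∫ t in a..b, (s p t - avs a b p) * (s q t - avs a b q) = cov a b (s p) (s q) := by
  exact int_centered a b hab (s p) (s q) (avs a b p) (avs a b q) (s_intInt p a b) (s_intInt q a b)
    (s_mul_intInt p q a b) (int_s_avs a b p hab) (int_s_avs a b q hab)

lemma int_centered_s_id (a b p : ℝ) (hp : 0 ≤ p) (hab : a < b) :
    ∫ t in a..b, (s p t - avs a b p) * (t - (a + b) / 2) = cov a b (s p) (fun t => t) := by
  exact int_centered a b hab (s p) (fun t => t) (avs a b p) ((a + b) / 2) (s_intInt p a b)
    (id_intInt a b) (s_mul_id_intInt p a b) (int_s_avs a b p hab) (int_id_avs a b)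

lemma int_centered_id_id (a b : ℝ) (hab : a < b) :
    ∫ t in a..b, (t - (a + b) / 2) * (t - (a + b) / 2)
      = cov a b (fun t => t) (fun t => t) := by
  exact int_centered a b hab (fun t => t) (fun t => t) ((a + b) / 2) ((a + b) / 2)
    (id_intInt a b) (id_intInt a b) (id_id_intInt a b) (int_id_avs a b) (int_id_avs a b)

end Pool.Agent.H47.KZ
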