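import Pool.Agent.H47.KZ.ProdCS
import Pool.Agent.H47.KZ.Cov

/-!
MODULE Stage: box averages against the functionals.

`stage`: put `A_j = avs a' b' (p j)`, `c_j(t) = s (p j) t - A_j`, `c_0(t) = -n (t - (a'+b')/2)`,
`β_j = ∏ avs (α r) (β r) (x j r)`, `β_0 = ∏ (α r + β r)/2`,
`G(t) = ∑_j c_j(t) β_j + c_0(t) β_0`.  Then
`av a b - av a' b' = (1/(b-a)) ∫_a^b G`, so `(av - av')^2 ≤ (1/(b-a)) ∫_a^b G^2
  ≤ (1/(b-a)) ∫_{a'}^{b'} G^2`; by `boxCS` for every `t`: `G(t)^2 * ∏(β-α) ≤ S(t)` and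
`∫_{a'}^{b'} S = 2^k Qa a' b' n` by `int_centered_*` (Cov).
`Qa_nonneg`: `0 ≤ S(t)` (from `boxCS` with the box `[-1,1]^k`).
`final`: the same without centering over `[-1,1]` : `c_j(t) = s (p j) t`, `c_0(t) = -n t`,
`∫_{-1}^1 S = 2^(k+1) E` (`int_s_s`, `int_s_id`; `kap (p j) (p l) = 1 - max (p j) (p l)`).
-/

namespace Pool.Agent.H47.KZ

open Finset MeasureTheory

/-- measurable and locally bounded -/
private def LB (f : ℝ → ℝ) : Prop := Measurable f ∧ ∀ R : ℝ, ∃ M : ℝ, ∀ t, |t| ≤ R → |f t| ≤ M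

private theorem lb_const (c : ℝ) : LB fun _ => c := ⟨measurable_const, fun _ => ⟨|c|, fun _ _ => le_rfl⟩⟩

private theorem lb_id : LB fun t => t := ⟨measurable_id, fun R => ⟨R, fun _ h => h⟩⟩

private theorem lb_s {p : ℝ} (hp : 0 ≤ p) : LB (s p) := ⟨s_measurable p, fun _ => ⟨1, fun t _ => s_abs_le p t hp⟩⟩

private theorem lb_add {f g : ℝ → ℝ} (hf : LB f) (hg : LB g) : LB fun t => f t + g t := by
  refine ⟨hf.1.add hg.1, fun R => ?_⟩
  obtain ⟨M, hM⟩ := hf.2 R
  obtain ⟨N, hN⟩ := hg.2 R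
  exact ⟨M + N, fun t ht => (abs_add_le _ _).trans (add_le_add (hM t ht) (hN t ht))⟩

private theorem lb_mul {f g : ℝ → ℝ} (hf : LB f) (hg : LB g) : LB fun t => f t * g t := by
  refine ⟨hf.1.mul hg.1, fun R => ?_⟩
  obtain ⟨M, hM⟩ := hf.2 R
  obtain ⟨N, hN⟩ := hg.2 R
  refine ⟨M * N, fun t ht => ?_⟩
  rw [abs_mul]
  exact mul_le_mul (hM t ht) (hN t ht) (abs_nonneg _) ((abs_nonneg _).trans (hM t ht))

private theorem lb_sub {f g : ℝ → ℝ} (hf : LB f) (hg : LB g) : LB fun t => f t - g t := by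
  have h := lb_add hf (lb_mul (lb_const (-1)) hg)
  refine ⟨hf.1.sub hg.1, fun R => ?_⟩
  obtain ⟨M, hM⟩ := h.2 R
  refine ⟨M, fun t ht => ?_⟩
  have e : f t - g t = f t + -1 * g t := by ring
  show |f t - g t| ≤ M
  rw [e]
  exact hM t ht

private theorem lb_sum {f : ℕ → ℝ → ℝ} (hf : ∀ j, LB (f j)) (n : ℕ) :
    LB fun t => ∑ j ∈ range n, f j t := by
  induction n with
  | zero => simpa using lb_const 0
  | succ n ih =>
    have h := lb_add ih (hf n)
    simpa only [Finset.sum_range_succ] using h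

private theorem lb_ii {f : ℝ → ℝ} (hf : LB f) (a b : ℝ) : IntervalIntegrable f volume a b := by
  obtain ⟨M, hM⟩ := hf.2 (max |a| |b|)
  rw [intervalIntegrable_iff]
  refine Measure.integrableOn_of_bounded (M := M) ?_ hf.1.aestronglyMeasurable ?_
  · rw [Set.uIoc, Real.volume_Ioc]
    exact ENNReal.ofReal_ne_top
  · filter_upwards [ae_restrict_mem measurableSet_uIoc] with t ht
    rw [Real.norm_eq_abs]
    apply hM
    rw [Set.mem_uIoc] at ht
    rw [abs_le]
    have ha := le_abs_self a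
    have ha' := neg_abs_le a
    have hb := le_abs_self b
    have hb' := neg_abs_le b
    have h1 := le_max_left |a| |b|
    have h2 := le_max_right |a| |b|
    rcases ht with ht | ht
    · constructor <;> linarith [ht.1, ht.2]
    · constructor <;> linarith [ht.1, ht.2]

/-- the right hand side of boxCS as a function of t -/
private noncomputable def Sf {k : ℕ} (n : ℕ) (x : ℕ → Fin k → ℝ) (c : ℕ → ℝ → ℝ) (c0 : ℝ → ℝ)
    (t : ℝ) : ℝ :=
  ∑ j ∈ range n, ∑ l ∈ range n, c j t * c l t * (2 ^ k * Kp (x j) (x l))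
    + 2 * c0 t * ∑ j ∈ range n, c j t * (2 ^ k * hh (x j)) + c0 t ^ 2 * (2 / 3) ^ k

private theorem Sf_eq {k : ℕ} (n : ℕ) (x : ℕ → Fin k → ℝ) (c : ℕ → ℝ → ℝ) (c0 : ℝ → ℝ) :
    Sf n x c c0 = fun t =>
      (∑ j ∈ range n, ∑ l ∈ range n, (c j t * c l t) * (2 ^ k * Kp (x j) (x l)))
      + ((∑ j ∈ range n, (c j t * c0 t) * (2 * (2 ^ k * hh (x j))))
      + (c0 t * c0 t) * (2 / 3) ^ k) := by
  funext t
  unfold Sf
  rw [Finset.mul_sum]
  have h : ∑ j ∈ range n, 2 * c0 t * (c j t * (2 ^ k * hh (x j))) =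
      ∑ j ∈ range n, (c j t * c0 t) * (2 * (2 ^ k * hh (x j))) :=
    Finset.sum_congr rfl fun j _ => by ring
  rw [h]
  ring

private theorem lb_Sf {k : ℕ} (n : ℕ) (x : ℕ → Fin k → ℝ) (c : ℕ → ℝ → ℝ) (c0 : ℝ → ℝ)
    (hc : ∀ j, LB (c j)) (hc0 : LB c0) : LB (Sf n x c c0) := by
  rw [Sf_eq]
  refine lb_add (lb_sum (fun j => lb_sum (fun l =>
    lb_mul (lb_mul (hc j) (hc l)) (lb_const _)) n) n) (lb_add (lb_sum (fun j =>
    lb_mul (lb_mul (hc j) hc0) (lb_const _)) n) (lb_mul (lb_mul hc0 hc0) (lb_const _)))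

private theorem int_Sf {k : ℕ} (n : ℕ) (x : ℕ → Fin k → ℝ) (c : ℕ → ℝ → ℝ) (c0 : ℝ → ℝ)
    (hc : ∀ j, LB (c j)) (hc0 : LB c0) (a b : ℝ) :
    ∫ t in a..b, Sf n x c c0 t =
      (∑ j ∈ range n, ∑ l ∈ range n, (∫ t in a..b, c j t * c l t) * (2 ^ k * Kp (x j) (x l)))
      + ((∑ j ∈ range n, (∫ t in a..b, c j t * c0 t) * (2 * (2 ^ k * hh (x j))))
      + (∫ t in a..b, c0 t * c0 t) * (2 / 3) ^ k) := by
  rw [Sf_eq]
  have i1 : ∀ j l, LB fun t => (c j t * c l t) * (2 ^ k * Kp (x j) (x l)) := fun j l =>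
    lb_mul (lb_mul (hc j) (hc l)) (lb_const _)
  have i2 : ∀ j, LB fun t => (c j t * c0 t) * (2 * (2 ^ k * hh (x j))) := fun j =>
    lb_mul (lb_mul (hc j) hc0) (lb_const _)
  have i3 : LB fun t => (c0 t * c0 t) * (2 / 3 : ℝ) ^ k := lb_mul (lb_mul hc0 hc0) (lb_const _)
  have i4 : LB fun t => ∑ j ∈ range n, (c j t * c0 t) * (2 * (2 ^ k * hh (x j))) := lb_sum i2 n
  have i5 : ∀ j, LB fun t => ∑ l ∈ range n, (c j t * c l t) * (2 ^ k * Kp (x j) (x l)) :=
    fun j => lb_sum (i1 j) n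
  rw [intervalIntegral.integral_add (lb_ii (lb_sum i5 n) a b) (lb_ii (lb_add i4 i3) a b),
    intervalIntegral.integral_add (lb_ii i4 a b) (lb_ii i3 a b),
    intervalIntegral.integral_finsetSum (fun j _ => lb_ii (i5 j) a b),
    intervalIntegral.integral_finsetSum (fun j _ => lb_ii (i2 j) a b)]
  congr 1
  · refine Finset.sum_congr rfl fun j _ => ?_
    rw [intervalIntegral.integral_finsetSum (fun l _ => lb_ii (i1 j l) a b)]
    refine Finset.sum_congr rfl fun l _ => ?_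
    rw [intervalIntegral.integral_mul_const]
  · congr 1
    · refine Finset.sum_congr rfl fun j _ => ?_
      rw [intervalIntegral.integral_mul_const]
    · rw [intervalIntegral.integral_mul_const]

private theorem cs {G : ℝ → ℝ} (hG : LB G) {a b : ℝ} (hab : a < b) :
    (∫ t in a..b, G t) ^ 2 ≤ (b - a) * ∫ t in a..b, G t * G t := by
  set μ : ℝ := (∫ t in a..b, G t) / (b - a) with hμ
  have hba : 0 < b - a := sub_pos.2 hab
  have h1 : 0 ≤ ∫ t in a..b, (G t - μ) * (G t - μ) :=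
    intervalIntegral.integral_nonneg hab.le fun t _ => mul_self_nonneg _
  have h2 : ∫ t in a..b, (G t - μ) * (G t - μ) =
      (∫ t in a..b, G t * G t) - 2 * μ * (∫ t in a..b, G t) + μ * μ * (b - a) := by
    have e : (fun t => (G t - μ) * (G t - μ)) = fun t => (G t * G t - 2 * μ * G t) + μ * μ := by
      funext t
      ring
    rw [e, intervalIntegral.integral_add
      (lb_ii (lb_sub (lb_mul hG hG) (lb_mul (lb_const _) hG)) a b) (lb_ii (lb_const _) a b),
      intervalIntegral.integral_sub (lb_ii (lb_mul hG hG) a b) (lb_ii (lb_mul (lb_const _) hG) a b),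
      intervalIntegral.integral_const_mul, intervalIntegral.integral_const, smul_eq_mul]
    ring
  rw [h2] at h1
  have h3 : (∫ t in a..b, G t) = μ * (b - a) := by
    rw [hμ]
    field_simp
  rw [h3] at h1 ⊢
  nlinarith

/-- the main inequality -/
private theorem main_ineq {k : ℕ} (n : ℕ) (x : ℕ → Fin k → ℝ) (hx : ∀ j r, 0 ≤ x j r ∧ x j r < 1)
    (c : ℕ → ℝ → ℝ) (c0 : ℝ → ℝ) (hc : ∀ j, LB (c j)) (hc0 : LB c0)
    (a b a' b' : ℝ) (hab : a < b) (ha : a' ≤ a)
    (hb : b ≤ b') (α β : Fin k → ℝ) (hα : ∀ r, -1 ≤ α r) (hαβ : ∀ r, α r < β r)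
    (hβ : ∀ r, β r ≤ 1) :
    (∫ t in a..b, (∑ j ∈ range n, c j t * ∏ r, avs (α r) (β r) (x j r)
        + c0 t * ∏ r, ((α r + β r) / 2))) ^ 2 * ∏ r, (β r - α r)
      ≤ (b - a) * ∫ t in a'..b', Sf n x c c0 t := by
  set G : ℝ → ℝ := fun t => ∑ j ∈ range n, c j t * ∏ r, avs (α r) (β r) (x j r)
        + c0 t * ∏ r, ((α r + β r) / 2) with hG
  have hGL : LB G := lb_add (lb_sum (fun j => lb_mul (hc j) (lb_const _)) n)
    (lb_mul hc0 (lb_const _))
  have hP : 0 ≤ ∏ r, (β r - α r) := Finset.prod_nonneg fun r _ => (sub_pos.2 (hαβ r)).le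
  have hba : 0 < b - a := sub_pos.2 hab
  have hSL := lb_Sf n x c c0 hc hc0
  have hpt : ∀ t, G t * G t * ∏ r, (β r - α r) ≤ Sf n x c c0 t := by
    intro t
    have h1 := boxCS n x hx (fun j => c j t) (c0 t) α β hα hαβ hβ
    rw [sq] at h1
    exact h1
  have hS0 : ∀ t, 0 ≤ Sf n x c c0 t := fun t =>
    (mul_nonneg (mul_self_nonneg _) hP).trans (hpt t)
  have h1 := cs hGL hab
  have h2 : (∫ t in a..b, G t * G t) * ∏ r, (β r - α r) ≤ ∫ t in a..b, Sf n x c c0 t := by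
    rw [← intervalIntegral.integral_mul_const]
    exact intervalIntegral.integral_mono_on hab.le
      (lb_ii (lb_mul (lb_mul hGL hGL) (lb_const _)) a b) (lb_ii hSL a b) fun t _ => hpt t
  have h3 : ∫ t in a..b, Sf n x c c0 t ≤ ∫ t in a'..b', Sf n x c c0 t :=
    intervalIntegral.integral_mono_interval ha hab.le hb
      (Filter.Eventually.of_forall fun t => hS0 t) (lb_ii hSL a' b')
  calc (∫ t in a..b, G t) ^ 2 * ∏ r, (β r - α r)
      ≤ ((b - a) * ∫ t in a..b, G t * G t) * ∏ r, (β r - α r) :=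
        mul_le_mul_of_nonneg_right h1 hP
    _ = (b - a) * ((∫ t in a..b, G t * G t) * ∏ r, (β r - α r)) := by ring
    _ ≤ (b - a) * ∫ t in a'..b', Sf n x c c0 t :=
        mul_le_mul_of_nonneg_left (h2.trans h3) hba.le

private noncomputable def cc (p : ℕ → ℝ) (a b : ℝ) (j : ℕ) (t : ℝ) : ℝ := s (p j) t - avs a b (p j)

private noncomputable def cz (n : ℕ) (a b : ℝ) (t : ℝ) : ℝ := -(n : ℝ) * (t - (a + b) / 2)

private theorem int_Sf_Qa {k : ℕ} (p : ℕ → ℝ) (x : ℕ → Fin k → ℝ) (hp : ∀ j, 0 ≤ p j ∧ p j < 1)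
    (n : ℕ) (a b : ℝ) (hab : a < b) :
    ∫ t in a..b, Sf n x (cc p a b) (cz n a b) t = 2 ^ k * Qa p x a b n := by
  have hc : ∀ j, LB (cc p a b j) := fun j => lb_sub (lb_s (hp j).1) (lb_const _)
  have hc0 : LB (cz n a b) := lb_mul (lb_const _) (lb_sub lb_id (lb_const _))
  rw [int_Sf n x _ _ hc hc0]
  have e1 : ∀ j l, ∫ t in a..b, cc p a b j t * cc p a b l t = cov a b (s (p j)) (s (p l)) :=
    fun j l => int_centered_s_s a b (p j) (p l) (hp j).1 (hp l).1 hab
  have e2 : ∀ j, ∫ t in a..b, cc p a b j t * cz n a b t =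
      -(n : ℝ) * cov a b (s (p j)) (fun t => t) := by
    intro j
    have h : (fun t => cc p a b j t * cz n a b t) = fun t =>
        -(n : ℝ) * ((s (p j) t - avs a b (p j)) * (t - (a + b) / 2)) := by
      funext t
      unfold cc cz
      ring
    rw [h, intervalIntegral.integral_const_mul, int_centered_s_id a b (p j) (hp j).1 hab]
  have e3 : ∫ t in a..b, cz n a b t * cz n a b t =
      (n : ℝ) ^ 2 * cov a b (fun t => t) (fun t => t) := by
    have h : (fun t => cz n a b t * cz n a b t) = fun t =>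
        (n : ℝ) ^ 2 * ((t - (a + b) / 2) * (t - (a + b) / 2)) := by
      funext t
      unfold cz
      ring
    rw [h, intervalIntegral.integral_const_mul, int_centered_id_id a b hab]
  simp only [e1, e2, e3]
  unfold Qa
  have e4 : (2 / 3 : ℝ) ^ k = 2 ^ k * (1 / 3) ^ k := by
    rw [← mul_pow]
    norm_num
  rw [e4, mul_add, mul_sub, Finset.mul_sum]
  have e5 : ∑ j ∈ range n, ∑ l ∈ range n, cov a b (s (p j)) (s (p l)) * (2 ^ k * Kp (x j) (x l)) =
      ∑ j ∈ range n, 2 ^ k * ∑ l ∈ range n, Kp (x j) (x l) * cov a b (s (p j)) (s (p l)) := by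
    refine Finset.sum_congr rfl fun j _ => ?_
    rw [Finset.mul_sum]
    exact Finset.sum_congr rfl fun l _ => by ring
  have e6 : ∑ j ∈ range n, -(n : ℝ) * cov a b (s (p j)) (fun t => t) * (2 * (2 ^ k * hh (x j))) =
      -(2 ^ k * (2 * n * ∑ j ∈ range n, hh (x j) * cov a b (s (p j)) (fun t => t))) := by
    rw [Finset.mul_sum, Finset.mul_sum, ← Finset.sum_neg_distrib]
    exact Finset.sum_congr rfl fun j _ => by ring
  rw [e5, e6]
  ring

theorem Qa_nonneg {k : ℕ} (p : ℕ → ℝ) (x : ℕ → Fin k → ℝ) (hp : ∀ j, 0 ≤ p j ∧ p j < 1)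
    (hx : ∀ j r, 0 ≤ x j r ∧ x j r < 1) (n : ℕ) (a b : ℝ) (hab : a < b) :
    0 ≤ Qa p x a b n := by
  have h1 := int_Sf_Qa p x hp n a b hab
  have h2 : 0 ≤ ∫ t in a..b, Sf n x (cc p a b) (cz n a b) t := by
    refine intervalIntegral.integral_nonneg hab.le fun t _ => ?_
    have h3 := boxCS n x hx (fun j => cc p a b j t) (cz n a b t) (fun _ => -1) (fun _ => 1)
      (fun _ => le_rfl) (fun _ => by norm_num) (fun _ => le_rfl)
    refine le_trans ?_ h3
    exact mul_nonneg (sq_nonneg _) (Finset.prod_nonneg fun r _ => by norm_num)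
  rw [h1] at h2
  have h4 : (0 : ℝ) < 2 ^ k := by positivity
  by_contra h5
  push Not at h5
  nlinarith

theorem stage {k : ℕ} (p : ℕ → ℝ) (x : ℕ → Fin k → ℝ) (hp : ∀ j, 0 ≤ p j ∧ p j < 1)
    (hx : ∀ j r, 0 ≤ x j r ∧ x j r < 1) (n : ℕ) (a b a' b' : ℝ) (hab : a < b) (ha : a' ≤ a)
    (hb : b ≤ b') (α β : Fin k → ℝ) (hα : ∀ r, -1 ≤ α r) (hαβ : ∀ r, α r < β r)
    (hβ : ∀ r, β r ≤ 1) :
    (av p x n a b α β - av p x n a' b' α β) ^ 2 * ((b - a) * ∏ r, (β r - α r))
      ≤ 2 ^ k * Qa p x a' b' n := by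
  have hab' : a' < b' := by linarith
  have hba : 0 < b - a := sub_pos.2 hab
  have hc : ∀ j, LB (cc p a' b' j) := fun j => lb_sub (lb_s (hp j).1) (lb_const _)
  have hc0 : LB (cz n a' b') := lb_mul (lb_const _) (lb_sub lb_id (lb_const _))
  have h1 := main_ineq n x hx (cc p a' b') (cz n a' b') hc hc0 a b a' b' hab ha hb α β hα hαβ hβ
  rw [int_Sf_Qa p x hp n a' b' hab'] at h1
  have h2 : ∫ t in a..b, (∑ j ∈ range n, cc p a' b' j t * ∏ r, avs (α r) (β r) (x j r)
        + cz n a' b' t * ∏ r, ((α r + β r) / 2)) =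
      (b - a) * (av p x n a b α β - av p x n a' b' α β) := by
    rw [intervalIntegral.integral_add
      (lb_ii (lb_sum (fun j => lb_mul (hc j) (lb_const _)) n) a b)
      (lb_ii (lb_mul hc0 (lb_const _)) a b),
      intervalIntegral.integral_finsetSum (fun j _ => lb_ii (lb_mul (hc j) (lb_const _)) a b),
      intervalIntegral.integral_mul_const]
    have e1 : ∀ j, ∫ t in a..b, cc p a' b' j t * ∏ r, avs (α r) (β r) (x j r) =
        (b - a) * ((avs a b (p j) - avs a' b' (p j)) * ∏ r, avs (α r) (β r) (x j r)) := by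
      intro j
      rw [intervalIntegral.integral_mul_const]
      unfold cc
      rw [intervalIntegral.integral_sub (lb_ii (lb_s (hp j).1) a b) (lb_ii (lb_const _) a b),
        intervalIntegral.integral_const, smul_eq_mul]
      have e2 : ∫ t in a..b, s (p j) t = (b - a) * avs a b (p j) := by
        unfold avs
        field_simp
      rw [e2]
      ring
    have e3 : ∫ t in a..b, cz n a' b' t = (b - a) * (-(n : ℝ) * ((a + b) / 2 - (a' + b') / 2)) := by
      unfold cz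
      rw [intervalIntegral.integral_const_mul,
        intervalIntegral.integral_sub (lb_ii lb_id a b) (lb_ii (lb_const _) a b), integral_id,
        intervalIntegral.integral_const, smul_eq_mul]
      ring
    simp only [e1, e3]
    unfold av
    rw [← Finset.mul_sum]
    have e4 : ∑ j ∈ range n, (avs a b (p j) - avs a' b' (p j)) * ∏ r, avs (α r) (β r) (x j r) =
        ∑ j ∈ range n, avs a b (p j) * ∏ r, avs (α r) (β r) (x j r) -
          ∑ j ∈ range n, avs a' b' (p j) * ∏ r, avs (α r) (β r) (x j r) := by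
      rw [← Finset.sum_sub_distrib]
      exact Finset.sum_congr rfl fun j _ => by ring
    rw [e4]
    ring
  rw [h2] at h1
  have h3 : (b - a) * ((av p x n a b α β - av p x n a' b' α β) ^ 2 * ((b - a) * ∏ r, (β r - α r)))
      ≤ (b - a) * (2 ^ k * Qa p x a' b' n) := by
    refine le_trans (le_of_eq ?_) h1
    ring
  exact le_of_mul_le_mul_left h3 hba

theorem final {k : ℕ} (p : ℕ → ℝ) (x : ℕ → Fin k → ℝ) (hp : ∀ j, 0 ≤ p j ∧ p j < 1)
    (hx : ∀ j r, 0 ≤ x j r ∧ x j r < 1) (n : ℕ) (a b : ℝ) (ha : -1 ≤ a) (hab : a < b)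
    (hb : b ≤ 1) (α β : Fin k → ℝ) (hα : ∀ r, -1 ≤ α r) (hαβ : ∀ r, α r < β r)
    (hβ : ∀ r, β r ≤ 1) :
    (av p x n a b α β) ^ 2 * ((b - a) * ∏ r, (β r - α r)) ≤ 2 ^ (k + 1) * E p x n := by
  have hba : 0 < b - a := sub_pos.2 hab
  have hc : ∀ j, LB (s (p j)) := fun j => lb_s (hp j).1
  have hc0 : LB (fun t => -(n : ℝ) * t) := lb_mul (lb_const _) lb_id
  have h1 := main_ineq n x hx (fun j => s (p j)) (fun t => -(n : ℝ) * t) hc hc0 a b (-1) 1
    hab ha hb α β hα hαβ hβ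
  have h0 : ∫ t in (-1 : ℝ)..1, Sf n x (fun j => s (p j)) (fun t => -(n : ℝ) * t) t =
      2 ^ (k + 1) * E p x n := by
    rw [int_Sf n x _ _ hc hc0]
    have e1 : ∀ j l, ∫ t in (-1 : ℝ)..1, s (p j) t * s (p l) t = 2 * kap (p j) (p l) := by
      intro j l
      rw [int_s_s _ _ (hp j).1 (hp j).2.le (hp l).1 (hp l).2.le]
      unfold kap
      rw [abs_of_nonneg (hp j).1]
    have e2 : ∀ j, ∫ t in (-1 : ℝ)..1, s (p j) t * (-(n : ℝ) * t) =
        -(n : ℝ) * (1 - p j ^ 2) := by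
      intro j
      have h : (fun t => s (p j) t * (-(n : ℝ) * t)) = fun t => -(n : ℝ) * (s (p j) t * t) := by
        funext t
        ring
      rw [h, intervalIntegral.integral_const_mul, int_s_id _ (hp j).1 (hp j).2.le]
    have e3 : ∫ t in (-1 : ℝ)..1, (-(n : ℝ) * t) * (-(n : ℝ) * t) = (n : ℝ) ^ 2 * (2 / 3) := by
      have h : (fun t : ℝ => (-(n : ℝ) * t) * (-(n : ℝ) * t)) = fun t => (n : ℝ) ^ 2 * t ^ 2 := by
        funext t
        ring
      rw [h, intervalIntegral.integral_const_mul, integral_pow]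
      norm_num
    simp only [e1, e2, e3]
    unfold E
    have e4 : (2 / 3 : ℝ) ^ k = 2 ^ k * (1 / 3) ^ k := by
      rw [← mul_pow]
      norm_num
    have e5 : ∑ j ∈ range n, ∑ l ∈ range n, 2 * kap (p j) (p l) * (2 ^ k * Kp (x j) (x l)) =
        (2 : ℝ) ^ (k + 1) * ∑ j ∈ range n, ∑ l ∈ range n, kap (p j) (p l) * Kp (x j) (x l) := by
      rw [Finset.mul_sum]
      refine Finset.sum_congr rfl fun j _ => ?_
      rw [Finset.mul_sum]
      exact Finset.sum_congr rfl fun l _ => by ring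
    have e6 : ∑ j ∈ range n, -(n : ℝ) * (1 - p j ^ 2) * (2 * ((2 : ℝ) ^ k * hh (x j))) =
        -((2 : ℝ) ^ (k + 1) * (2 * (n : ℝ) * ∑ j ∈ range n, (1 - p j ^ 2) / 2 * hh (x j))) := by
      rw [Finset.mul_sum, Finset.mul_sum, ← Finset.sum_neg_distrib]
      exact Finset.sum_congr rfl fun j _ => by ring
    rw [e4, e5, e6]
    ring
  rw [h0] at h1
  have h2 : ∫ t in a..b, (∑ j ∈ range n, s (p j) t * ∏ r, avs (α r) (β r) (x j r)
        + (-(n : ℝ) * t) * ∏ r, ((α r + β r) / 2)) = (b - a) * av p x n a b α β := by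
    rw [intervalIntegral.integral_add
      (lb_ii (lb_sum (fun j => lb_mul (hc j) (lb_const _)) n) a b)
      (lb_ii (lb_mul hc0 (lb_const _)) a b),
      intervalIntegral.integral_finsetSum (fun j _ => lb_ii (lb_mul (hc j) (lb_const _)) a b),
      intervalIntegral.integral_mul_const]
    have e1 : ∀ j, ∫ t in a..b, s (p j) t * ∏ r, avs (α r) (β r) (x j r) =
        (b - a) * (avs a b (p j) * ∏ r, avs (α r) (β r) (x j r)) := by
      intro j
      rw [intervalIntegral.integral_mul_const]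
      have e2 : ∫ t in a..b, s (p j) t = (b - a) * avs a b (p j) := by
        unfold avs
        field_simp
      rw [e2]
      ring
    have e3 : ∫ t in a..b, -(n : ℝ) * t = (b - a) * (-(n : ℝ) * ((a + b) / 2)) := by
      rw [intervalIntegral.integral_const_mul, integral_id]
      ring
    simp only [e1, e3]
    unfold av
    rw [← Finset.mul_sum]
    ring
  rw [h2] at h1
  have h3 : (b - a) * ((av p x n a b α β) ^ 2 * ((b - a) * ∏ r, (β r - α r)))
      ≤ (b - a) * (2 ^ (k + 1) * E p x n) := by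
    refine le_trans (le_of_eq ?_) h1
    ring
  exact le_of_mul_le_mul_left h3 hba

end Pool.Agent.H47.KZ
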