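import Pool.Agent.H47.KZ.Cov

/-!
MODULE Growth: one step of the slab functional (pure algebra with the lemmas of OneD).

`Qa(n+1) - Qa(n) = T1 + T2 + T3`,
* `T1 = 2 [∑_{j<n} Kp (x j) (x n) cov(s_j, s_n) - n hh(x n) cov(id, s_n)]`,
* `T2 = - 2 [∑_{j<n} hh (x j) cov(s_j, id) - n 3^{-k} cov(id, id)]`,
* `T3 = Kp(x n)(x n) cov(s_n,s_n) - 2 hh(x n) cov(s_n, id) + 3^{-k} cov(id,id)`.
(`s_j = s (p j)`.)
T2: by `cov_s_id` and the analogous elementary formula for `id`
(`2 cov(id,id) = ∫ (1-t^2) - (b-a)/2 ((1-a^2) + (1-b^2))`) it equals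
`(b-a) (V a + V b)/2 - ∫ V`  exactly.
T1: by `cov_s_right` it is the sum over `q = p n` and `q = - p n` of
`2 [∑ Kp cov(s_j, 1_{q<t}) - n hh cov(id, 1_{q<t})]`, which is `0` if `q ∉ (a,b)`, and otherwise equals
`U q - lin U` with `U t = 2 ∑ kap t (p j) Kp (x j) (x n) - n (1-t^2) hh (x n)
   = F n t (x n) - (1-|t|) ∏ (1 - x n r) + (1-t^2) hh (x n)`,
`lin U = ((b-q) U a + (q-a) U b)/(b-a)`.  `F` is even in `t`, so `F q = F (p n)` at `y = x n`, hence
`F q ≤ F a, F b` (`Gr.gr`) and `F q - lin F ≤ 0`; `1 - |t|` is concave: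
`-( (1-|q|) - lin(1-|.|) ) ≤ 0`; `(1-q^2) - lin(1-t^2) = (b-q)(q-a) ≤ (b-a)^2/4`, `0 ≤ hh ≤ 1`.
So `T1 ≤ (b-a)^2/4 * chi ≤ (b-a)/2 * chi` (as `b - a ≤ 2`).
T3: `0 ≤ Kp ≤ 1`, `0 ≤ hh ≤ 1`, `3^{-k} ≤ 1`, `cov_s_id_abs`, so
`T3 ≤ 2 cov(s_n,s_n) + 2 cov(id,id) ≤ 2 (b-a) chi + (b-a)^3/6`.
-/

namespace Pool.Agent.H47.KZ

open Finset MeasureTheory

private lemma Kp_nonneg {k : ℕ} {x y : Fin k → ℝ} (hx : ∀ r, 0 ≤ x r ∧ x r < 1)
    (hy : ∀ r, 0 ≤ y r ∧ y r < 1) : 0 ≤ Kp x y := by
  unfold Kp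
  refine prod_nonneg fun r _ => ?_
  have := max_lt (hx r).2 (hy r).2
  linarith

private lemma Kp_le_one {k : ℕ} {x y : Fin k → ℝ} (hx : ∀ r, 0 ≤ x r ∧ x r < 1)
    (hy : ∀ r, 0 ≤ y r ∧ y r < 1) : Kp x y ≤ 1 := by
  unfold Kp
  refine prod_le_one (fun r _ => ?_) (fun r _ => ?_)
  · have := max_lt (hx r).2 (hy r).2
    linarith
  · have := le_max_left (x r) (y r)
    have := (hx r).1
    linarith

private lemma hh_nonneg' {k : ℕ} {x : Fin k → ℝ} (hx : ∀ r, 0 ≤ x r ∧ x r < 1) : 0 ≤ hh x := by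
  unfold hh
  refine prod_nonneg fun r _ => ?_
  have h1 := (hx r).1
  have h2 := (hx r).2
  nlinarith

private lemma hh_le_one' {k : ℕ} {x : Fin k → ℝ} (hx : ∀ r, 0 ≤ x r ∧ x r < 1) : hh x ≤ 1 := by
  unfold hh
  refine prod_le_one (fun r _ => ?_) (fun r _ => ?_)
  · have h1 := (hx r).1
    have h2 := (hx r).2
    nlinarith
  · have h3 := sq_nonneg (x r)
    linarith

private lemma third_nonneg (k : ℕ) : 0 ≤ (1 / 3 : ℝ) ^ k := by positivity

private lemma third_le (k : ℕ) : (1 / 3 : ℝ) ^ k ≤ 1 := pow_le_one₀ (by norm_num) (by norm_num)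

private lemma Kp_comm {k : ℕ} (x y : Fin k → ℝ) : Kp x y = Kp y x := by
  unfold Kp
  exact prod_congr rfl fun r _ => by rw [max_comm]

/-- the three parts of the increment -/
private lemma diff_eq {k : ℕ} (p : ℕ → ℝ) (x : ℕ → Fin k → ℝ) (a b : ℝ) (n : ℕ) :
    Qa p x a b (n + 1) - Qa p x a b n =
      (2 * ∑ j ∈ range n, Kp (x j) (x n) * cov a b (s (p j)) (s (p n))
        - 2 * n * (hh (x n) * cov a b (s (p n)) (fun t => t)))
      + (-2 * ∑ j ∈ range n, hh (x j) * cov a b (s (p j)) (fun t => t)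
        + 2 * n * ((1 / 3) ^ k * cov a b (fun t => t) (fun t => t)))
      + (Kp (x n) (x n) * cov a b (s (p n)) (s (p n))
        - 2 * (hh (x n) * cov a b (s (p n)) (fun t => t))
        + (1 / 3) ^ k * cov a b (fun t => t) (fun t => t)) := by
  unfold Qa
  rw [sum_range_succ]
  have h1 : ∑ j ∈ range n, ∑ l ∈ range (n + 1), Kp (x j) (x l) * cov a b (s (p j)) (s (p l)) =
      ∑ j ∈ range n, ∑ l ∈ range n, Kp (x j) (x l) * cov a b (s (p j)) (s (p l)) +
      ∑ j ∈ range n, Kp (x j) (x n) * cov a b (s (p j)) (s (p n)) := by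
    rw [← sum_add_distrib]
    exact sum_congr rfl fun j _ => sum_range_succ _ n
  have h2 : ∑ l ∈ range (n + 1), Kp (x n) (x l) * cov a b (s (p n)) (s (p l)) =
      ∑ j ∈ range n, Kp (x j) (x n) * cov a b (s (p j)) (s (p n)) +
        Kp (x n) (x n) * cov a b (s (p n)) (s (p n)) := by
    rw [sum_range_succ]
    congr 1
    exact sum_congr rfl fun j _ => by rw [Kp_comm, cov_comm]
  rw [h1, h2, sum_range_succ (fun j => hh (x j) * cov a b (s (p j)) (fun t => t))]
  push_cast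
  ring

/-- the second part -/
private lemma part2 {k : ℕ} (p : ℕ → ℝ) (x : ℕ → Fin k → ℝ) (hp : ∀ j, 0 ≤ p j) (a b : ℝ)
    (hab : a < b) (n : ℕ) :
    -2 * ∑ j ∈ range n, hh (x j) * cov a b (s (p j)) (fun t => t)
        + 2 * n * ((1 / 3) ^ k * cov a b (fun t => t) (fun t => t)) =
      (b - a) * (V p x n a + V p x n b) / 2 - ∫ t in a..b, V p x n t := by
  have h1 : ∀ j ∈ range n, hh (x j) * cov a b (s (p j)) (fun t => t) =
      hh (x j) * (∫ t in a..b, kap t (p j)) -
        (b - a) / 2 * (kap a (p j) * hh (x j) + kap b (p j) * hh (x j)) := by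
    intro j _
    rw [cov_s_id a b (p j) (hp j) hab]
    ring
  have hi : ∀ j ∈ range n, IntervalIntegrable (fun t => kap t (p j) * hh (x j)) volume a b :=
    fun j _ => ((kap_continuous (p j)).mul continuous_const).intervalIntegrable a b
  have hs : IntervalIntegrable (fun t => 2 * ∑ j ∈ range n, kap t (p j) * hh (x j)) volume a b := by
    have h2 : Continuous (fun t => 2 * ∑ j ∈ range n, kap t (p j) * hh (x j)) :=
      continuous_const.mul (continuous_finsetSum _ fun j _ =>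
        (kap_continuous (p j)).mul continuous_const)
    exact h2.intervalIntegrable a b
  have hq : IntervalIntegrable (fun t : ℝ => (n : ℝ) * (1 - t ^ 2) * (1 / 3) ^ k) volume a b := by
    have h2 : Continuous (fun t : ℝ => (n : ℝ) * (1 - t ^ 2) * (1 / 3) ^ k) := by fun_prop
    exact h2.intervalIntegrable a b
  have hV : ∫ t in a..b, V p x n t =
      2 * ∑ j ∈ range n, (∫ t in a..b, kap t (p j)) * hh (x j) -
        n * ((b - a) - (b ^ 3 - a ^ 3) / 3) * (1 / 3) ^ k := by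
    have e1 : (fun t => V p x n t) = fun t => 2 * ∑ j ∈ range n, kap t (p j) * hh (x j) -
        n * (1 - t ^ 2) * (1 / 3) ^ k := rfl
    rw [e1, intervalIntegral.integral_sub hs hq, intervalIntegral.integral_const_mul,
      intervalIntegral.integral_finsetSum hi]
    congr 1
    · congr 1
      exact sum_congr rfl fun j _ => intervalIntegral.integral_mul_const _ _
    · have e2 : ∀ t : ℝ, (n : ℝ) * (1 - t ^ 2) * (1 / 3) ^ k =
          (n : ℝ) * (1 / 3) ^ k * (1 - t ^ 2) := fun t => by ring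
      simp_rw [e2]
      rw [intervalIntegral.integral_const_mul, intervalIntegral.integral_sub
        (intervalIntegrable_const) ((continuous_pow 2).intervalIntegrable a b)]
      rw [intervalIntegral.integral_const, integral_pow, smul_eq_mul]
      push_cast
      ring
  rw [hV, sum_congr rfl h1, cov_id_id a b hab]
  unfold V
  rw [sum_sub_distrib, ← mul_sum, sum_add_distrib]
  have e3 : ∑ j ∈ range n, hh (x j) * (∫ t in a..b, kap t (p j)) =
      ∑ j ∈ range n, (∫ t in a..b, kap t (p j)) * hh (x j) :=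
    sum_congr rfl fun j _ => mul_comm _ _
  rw [e3]
  ring

/-- the contribution of one jump -/
private lemma jump {k m : ℕ} {p : ℕ → ℝ} {x : ℕ → Fin k → ℝ} (G : Gr m p x) (n : ℕ) (hn : m ≤ n)
    (a b : ℝ) (ha : -1 ≤ a) (hab : a < b) (hb : b ≤ 1) (q : ℝ) (hq : |q| = p n) :
    2 * ∑ j ∈ range n, Kp (x j) (x n) *
        cov a b (s (p j)) (fun t => if q < t then (1 : ℝ) else 0)
      - 2 * n * (hh (x n) * cov a b (fun t => t) (fun t => if q < t then (1 : ℝ) else 0)) ≤
      (b - a) / 2 * (if a ≤ q ∧ q ≤ b then 1 else 0) := by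
  have hba : 0 < b - a := by linarith
  rcases le_or_gt q a with h1 | h1
  · have e1 : ∀ j, cov a b (s (p j)) (fun t => if q < t then (1 : ℝ) else 0) = 0 := fun j =>
      cov_ind_out a b q hab (Or.inl h1) _ (s_intInt _ _ _)
    have e2 : cov a b (fun t => t) (fun t => if q < t then (1 : ℝ) else 0) = 0 :=
      cov_ind_out a b q hab (Or.inl h1) _ (continuous_id.intervalIntegrable a b)
    rw [sum_congr rfl fun j _ => by rw [e1 j, mul_zero], e2]
    rw [sum_const_zero, mul_zero, mul_zero, mul_zero, sub_zero]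
    split_ifs <;> linarith
  rcases le_or_gt b q with h2 | h2
  · have e1 : ∀ j, cov a b (s (p j)) (fun t => if q < t then (1 : ℝ) else 0) = 0 := fun j =>
      cov_ind_out a b q hab (Or.inr h2) _ (s_intInt _ _ _)
    have e2 : cov a b (fun t => t) (fun t => if q < t then (1 : ℝ) else 0) = 0 :=
      cov_ind_out a b q hab (Or.inr h2) _ (continuous_id.intervalIntegrable a b)
    rw [sum_congr rfl fun j _ => by rw [e1 j, mul_zero], e2]
    rw [sum_const_zero, mul_zero, mul_zero, mul_zero, sub_zero]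
    split_ifs <;> linarith
  rw [if_pos ⟨h1.le, h2.le⟩, mul_one]
  -- the functions
  set Pn : ℝ := ∏ r, (1 - x n r) with hPn
  set hn' : ℝ := hh (x n) with hhn
  have hP0 : 0 ≤ Pn := prod_nonneg fun r _ => by
    have := (G.xm n r).2
    linarith
  have hh0 : 0 ≤ hn' := hh_nonneg' (G.xm n)
  have hh1 : hn' ≤ 1 := hh_le_one' (G.xm n)
  set lam : ℝ := (b - q) / (b - a) with hlam
  set mu : ℝ := (q - a) / (b - a) with hmu
  have hlam0 : 0 ≤ lam := div_nonneg (by linarith) hba.le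
  have hmu0 : 0 ≤ mu := div_nonneg (by linarith) hba.le
  have hsum : lam + mu = 1 := by
    rw [hlam, hmu, ← add_div, div_eq_one_iff_eq hba.ne']
    ring
  have hqlin : lam * a + mu * b = q := by
    rw [hlam, hmu, div_mul_eq_mul_div, div_mul_eq_mul_div, ← add_div, div_eq_iff hba.ne']
    ring
  -- minimality
  have hFq : F p x n (p n) (x n) = F p x n q (x n) := by
    unfold F kap
    rw [← hq]
    simp only [abs_abs, sq_abs]
  have hx01 : ∀ r, 0 ≤ x n r ∧ x n r ≤ 1 := fun r => ⟨(G.xm n r).1, (G.xm n r).2.le⟩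
  have hFa := G.gr n hn a ha (by linarith) (x n) hx01
  have hFb := G.gr n hn b (by linarith) hb (x n) hx01
  rw [hFq] at hFa hFb
  have hFlin : F p x n q (x n) ≤ lam * F p x n a (x n) + mu * F p x n b (x n) := by
    have h3 := mul_le_mul_of_nonneg_left hFa hlam0
    have h4 := mul_le_mul_of_nonneg_left hFb hmu0
    have h5 : F p x n q (x n) = lam * F p x n q (x n) + mu * F p x n q (x n) := by
      rw [← add_mul, hsum, one_mul]
    linarith
  -- concavity of the modulus
  have habs : |q| ≤ lam * |a| + mu * |b| := by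
    rw [← hqlin]
    refine (abs_add_le _ _).trans ?_
    rw [abs_mul, abs_mul, abs_of_nonneg hlam0, abs_of_nonneg hmu0]
  -- the square
  have hsq : lam * a ^ 2 + mu * b ^ 2 - q ^ 2 = (b - q) * (q - a) := by
    have h3 : lam * a ^ 2 + mu * b ^ 2 = ((b - q) * a ^ 2 + (q - a) * b ^ 2) / (b - a) := by
      rw [hlam, hmu]
      ring
    rw [h3, div_sub' hba.ne', div_eq_iff hba.ne']
    ring
  have hbq : (b - q) * (q - a) ≤ (b - a) / 2 := by
    have h3 : (b - q) * (q - a) ≤ (b - a) ^ 2 / 4 := by nlinarith [sq_nonneg (b + a - 2 * q)]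
    nlinarith
  -- rewrite the covariances
  have e1 : ∀ j ∈ range n, Kp (x j) (x n) *
      cov a b (s (p j)) (fun t => if q < t then (1 : ℝ) else 0) =
      kap q (p j) * Kp (x j) (x n) - (lam * (kap a (p j) * Kp (x j) (x n)) +
        mu * (kap b (p j) * Kp (x j) (x n))) := by
    intro j _
    rw [cov_s_ind a b (p j) q (G.pm j).1 h1.le h2.le hab, hlam, hmu]
    ring
  rw [sum_congr rfl e1, cov_id_ind a b q h1.le h2.le hab, sum_sub_distrib, sum_add_distrib,
    ← mul_sum, ← mul_sum]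
  have f1 : ∀ t, F p x n t (x n) = 2 * ∑ j ∈ range n, kap t (p j) * Kp (x j) (x n)
      + (1 - |t|) * Pn - (n + 1) * (1 - t ^ 2) * hn' := fun t => rfl
  rw [f1, f1, f1] at hFlin
  set Sq : ℝ := ∑ j ∈ range n, kap q (p j) * Kp (x j) (x n) with hSq
  set Sa : ℝ := ∑ j ∈ range n, kap a (p j) * Kp (x j) (x n) with hSa
  set Sb : ℝ := ∑ j ∈ range n, kap b (p j) * Kp (x j) (x n) with hSb
  have g1 : Pn * |q| ≤ Pn * (lam * |a| + mu * |b|) := mul_le_mul_of_nonneg_left habs hP0
  have g2 : hn' * ((b - q) * (q - a)) ≤ (b - a) / 2 := by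
    have h3 : 0 ≤ (b - q) * (q - a) := mul_nonneg (by linarith) (by linarith)
    nlinarith
  have g3 : ((n : ℝ) + 1) * hn' * (lam * a ^ 2 + mu * b ^ 2 - q ^ 2) =
      ((n : ℝ) + 1) * hn' * ((b - q) * (q - a)) := by rw [hsq]
  have g4 : lam * ((1 - |a|) * Pn) + mu * ((1 - |b|) * Pn) =
      Pn - Pn * (lam * |a| + mu * |b|) := by
    have : Pn = (lam + mu) * Pn := by rw [hsum, one_mul]
    linear_combination -this
  have g5 : lam * (((n : ℝ) + 1) * (1 - a ^ 2) * hn') + mu * (((n : ℝ) + 1) * (1 - b ^ 2) * hn') =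
      ((n : ℝ) + 1) * hn' - ((n : ℝ) + 1) * hn' * (lam * a ^ 2 + mu * b ^ 2) := by
    have : ((n : ℝ) + 1) * hn' = (lam + mu) * (((n : ℝ) + 1) * hn') := by rw [hsum, one_mul]
    linear_combination -this
  have g6 : lam * (2 * Sa + (1 - |a|) * Pn - ((n : ℝ) + 1) * (1 - a ^ 2) * hn') +
      mu * (2 * Sb + (1 - |b|) * Pn - ((n : ℝ) + 1) * (1 - b ^ 2) * hn') =
      2 * (lam * Sa + mu * Sb) + (Pn - Pn * (lam * |a| + mu * |b|)) -
        (((n : ℝ) + 1) * hn' - ((n : ℝ) + 1) * hn' * (lam * a ^ 2 + mu * b ^ 2)) := by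
    rw [← g4, ← g5]
    ring
  rw [g6] at hFlin
  nlinarith

theorem growth {k m : ℕ} {p : ℕ → ℝ} {x : ℕ → Fin k → ℝ} (G : Gr m p x) (n : ℕ) (hn : m ≤ n)
    (a b : ℝ) (ha : -1 ≤ a) (hab : a < b) (hb : b ≤ 1) :
    Qa p x a b (n + 1) - Qa p x a b n
      ≤ 5 / 2 * (b - a) * chi a b (p n) + (b - a) ^ 3 / 6
        + ((b - a) * (V p x n a + V p x n b) / 2 - ∫ t in a..b, V p x n t) := by
  rw [diff_eq, part2 p x (fun j => (G.pm j).1) a b hab n]
  have hba : 0 < b - a := by linarith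
  have h1 := jump G n hn a b ha hab hb (p n) (abs_of_nonneg (G.pm n).1)
  have h2 := jump G n hn a b ha hab hb (-p n) (by rw [abs_neg]; exact abs_of_nonneg (G.pm n).1)
  have e1 : ∀ j ∈ range n, Kp (x j) (x n) * cov a b (s (p j)) (s (p n)) =
      Kp (x j) (x n) * cov a b (s (p j)) (fun t => if p n < t then (1 : ℝ) else 0) +
      Kp (x j) (x n) * cov a b (s (p j)) (fun t => if -p n < t then (1 : ℝ) else 0) := by
    intro j _
    rw [cov_s_right a b (p n) hab _ (s_intInt _ _ _), mul_add]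
  have e2 : cov a b (s (p n)) (fun t => t) =
      cov a b (fun t => t) (fun t => if p n < t then (1 : ℝ) else 0) +
      cov a b (fun t => t) (fun t => if -p n < t then (1 : ℝ) else 0) := by
    rw [cov_comm]
    exact cov_s_right a b (p n) hab _ (continuous_id.intervalIntegrable a b)
  have hT1 : 2 * ∑ j ∈ range n, Kp (x j) (x n) * cov a b (s (p j)) (s (p n))
        - 2 * n * (hh (x n) * cov a b (s (p n)) (fun t => t)) ≤
      (b - a) / 2 * chi a b (p n) := by
    rw [sum_congr rfl e1, sum_add_distrib, e2]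
    unfold chi
    linarith
  have hK0 := Kp_nonneg (G.xm n) (G.xm n)
  have hK1 := Kp_le_one (G.xm n) (G.xm n)
  have hh0 := hh_nonneg' (G.xm n)
  have hh1 := hh_le_one' (G.xm n)
  have c0 := cov_s_s_nonneg a b (p n) (G.pm n).1 hab
  have c1 := cov_s_s_le a b (p n) (G.pm n).1 hab
  have c2 := cov_s_id_abs a b (p n) (G.pm n).1 hab
  have c3 := cov_id_id a b hab
  have hT3 : Kp (x n) (x n) * cov a b (s (p n)) (s (p n))
        - 2 * (hh (x n) * cov a b (s (p n)) (fun t => t))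
        + (1 / 3) ^ k * cov a b (fun t => t) (fun t => t) ≤
      2 * ((b - a) * chi a b (p n)) + (b - a) ^ 3 / 6 := by
    have e0 : 0 ≤ (b - a) ^ 3 / 12 := by positivity
    rw [c3] at c2 ⊢
    have d1 : Kp (x n) (x n) * cov a b (s (p n)) (s (p n)) ≤ cov a b (s (p n)) (s (p n)) := by
      nlinarith
    have d2 : -(2 * (hh (x n) * cov a b (s (p n)) (fun t => t))) ≤
        2 * |cov a b (s (p n)) (fun t => t)| := by
      have d3 : -cov a b (s (p n)) (fun t => t) ≤ |cov a b (s (p n)) (fun t => t)| :=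
        neg_le_abs _
      have d4 := mul_le_mul_of_nonneg_left d3 hh0
      have d5 : hh (x n) * |cov a b (s (p n)) (fun t => t)| ≤
          |cov a b (s (p n)) (fun t => t)| := by
        have := abs_nonneg (cov a b (s (p n)) (fun t => t))
        nlinarith
      linarith
    have d6 : (1 / 3 : ℝ) ^ k * ((b - a) ^ 3 / 12) ≤ (b - a) ^ 3 / 12 := by
      have := third_le k
      nlinarith
    linarith
  linarith

/-- crude bound for the functional -/
theorem Qa_le {k : ℕ} (p : ℕ → ℝ) (x : ℕ → Fin k → ℝ) (hp : ∀ j, 0 ≤ p j ∧ p j < 1)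
    (hx : ∀ j r, 0 ≤ x j r ∧ x j r < 1) (n : ℕ)
    (a b : ℝ) (ha : -1 ≤ a) (hab : a < b) (hb : b ≤ 1) :
    Qa p x a b n ≤ 8 * n ^ 2 * (b - a) := by
  have hba : 0 < b - a := by linarith
  have hn0 : (0 : ℝ) ≤ n := Nat.cast_nonneg n
  unfold Qa
  have h1 : ∑ j ∈ range n, ∑ l ∈ range n, Kp (x j) (x l) * cov a b (s (p j)) (s (p l)) ≤
      n * (n * (2 * (b - a))) := by
    have h2 : ∀ j ∈ range n, ∑ l ∈ range n, Kp (x j) (x l) * cov a b (s (p j)) (s (p l)) ≤
        n * (2 * (b - a)) := by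
      intro j _
      have h3 : ∀ l ∈ range n, Kp (x j) (x l) * cov a b (s (p j)) (s (p l)) ≤ 2 * (b - a) := by
        intro l _
        have h4 := cov_s_s_abs a b (p j) (p l) (hp j).1 (hp l).1 hab
        have h5 := (le_abs_self _).trans h4
        have h6 := Kp_nonneg (hx j) (hx l)
        have h7 := Kp_le_one (hx j) (hx l)
        calc Kp (x j) (x l) * cov a b (s (p j)) (s (p l)) ≤ Kp (x j) (x l) * (2 * (b - a)) :=
              mul_le_mul_of_nonneg_left h5 h6
          _ ≤ 1 * (2 * (b - a)) := mul_le_mul_of_nonneg_right h7 (by linarith)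
          _ = 2 * (b - a) := one_mul _
      have h8 := sum_le_sum h3
      rw [sum_const, card_range, nsmul_eq_mul] at h8
      exact h8
    have h8 := sum_le_sum h2
    rw [sum_const, card_range, nsmul_eq_mul] at h8
    exact h8
  have h2 : -∑ j ∈ range n, hh (x j) * cov a b (s (p j)) (fun t => t) ≤ n * (2 * (b - a)) := by
    rw [← sum_neg_distrib]
    have h3 : ∀ j ∈ range n, -(hh (x j) * cov a b (s (p j)) (fun t => t)) ≤ 2 * (b - a) := by
      intro j _
      have h4 := cov_s_id_abs' a b (p j) (hp j).1 ha hab hb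
      have h5 := (neg_le_abs _).trans h4
      have h6 := hh_nonneg' (hx j)
      have h7 := hh_le_one' (hx j)
      calc -(hh (x j) * cov a b (s (p j)) (fun t => t)) =
            hh (x j) * -cov a b (s (p j)) (fun t => t) := by ring
        _ ≤ hh (x j) * (2 * (b - a)) := mul_le_mul_of_nonneg_left h5 h6
        _ ≤ 1 * (2 * (b - a)) := mul_le_mul_of_nonneg_right h7 (by linarith)
        _ = 2 * (b - a) := one_mul _
    have h8 := sum_le_sum h3
    rw [sum_const, card_range, nsmul_eq_mul] at h8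
    exact h8
  have h3 : (n : ℝ) ^ 2 * (1 / 3) ^ k * cov a b (fun t => t) (fun t => t) ≤
      n ^ 2 * (b - a) := by
    rw [cov_id_id a b hab]
    have h4 : (b - a) ^ 3 / 12 ≤ b - a := by
      have h5 : (b - a) ^ 2 ≤ 4 := by nlinarith
      have h6 : (b - a) ^ 3 = (b - a) ^ 2 * (b - a) := by ring
      rw [h6]
      nlinarith
    have h5 := third_le k
    have h6 := third_nonneg k
    have h7 : (1 / 3 : ℝ) ^ k * ((b - a) ^ 3 / 12) ≤ 1 * (b - a) :=
      mul_le_mul h5 h4 (by positivity) (by norm_num)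
    have h8 := mul_le_mul_of_nonneg_left h7 (sq_nonneg (n : ℝ))
    linarith
  have h4 := mul_le_mul_of_nonneg_left h2 hn0
  have h5 : 0 ≤ (n : ℝ) ^ 2 * (b - a) := by positivity
  nlinarith

end Pool.Agent.H47.KZ
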