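import Pool.Agent.H47.KZ.ProdCS

/-!
MODULE Energy.
* `E_succ` : algebra (`F n (p n) (x n) = 2 ∑ K + K_nn - 2 (n+1) H_n` with
  `H = (1-p^2)/2 * hh x`, `kap (p n) (p n) * Kp = (1 - |p n|) ∏ (1 - x n r)`).
* `mm_nonneg`: integrate `F_le_Phi` over `t ∈ [-1,1]`: `∫_{-1}^1 Phi = 2 Fb`
  (`∫_{-1}^1 kap t p dt = 1 - p^2`, `∫ (1-|t|) = 1`, `∫ (1-t^2) = 4/3`).
* `int_V_sub`: `|V t - F(z_n)| ≤ (Phi t - F(z_n)) + 1`, since
  `Phi - V = (1-|t|) 2^{-k} - (1-t^2) 3^{-k} ∈ [-1,1]`, and `Phi t ≥ F(z_n)`; integrate.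
* `E_nonneg`: `boxCS` for every fixed `t` (with `c j = s (p j) t`, `c0 = - n t`, any box) gives
  `0 ≤ S(t)`, integrate over `t ∈ [-1,1]` (`int_s_s`, `int_s_id`): `∫ S = 2^(k+1) E`.
* `E_le`: `E m ≤ 2 m^2` crude (`0 ≤ kap (p j) (p l) ≤ 1`, `0 ≤ Kp ≤ 1`, `hh ≥ 0`), and
  `E (n+1) = E n - mm n + 2^{-(k+1)} - 3^{-(k+1)} ≤ E n + 1`.
* `sum_mm_le`: telescoping, `∑ mm = E m - E N + (N-m)(2^{-(k+1)} - 3^{-(k+1)}) ≤ 2 m^2 + N`.
-/

namespace Pool.Agent.H47.KZ

open Finset MeasureTheory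

private theorem hh_nonneg {k : ℕ} {y : Fin k → ℝ} (hy : ∀ r, 0 ≤ y r ∧ y r < 1) : 0 ≤ hh y := by
  unfold hh
  refine prod_nonneg fun r _ => ?_
  have h := hy r
  nlinarith [h.1, h.2]

private theorem kap_comm {a b : ℝ} (ha : 0 ≤ a) (hb : 0 ≤ b) : kap a b = kap b a := by
  unfold kap
  rw [abs_of_nonneg ha, abs_of_nonneg hb, max_comm]

private theorem Kp_self {k : ℕ} (y : Fin k → ℝ) : Kp y y = ∏ r, (1 - y r) := by
  unfold Kp
  simp

private theorem Kp_comm {k : ℕ} (y z : Fin k → ℝ) : Kp y z = Kp z y := by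
  unfold Kp
  exact prod_congr rfl fun r _ => by rw [max_comm]

theorem E_succ {k m : ℕ} {p : ℕ → ℝ} {x : ℕ → Fin k → ℝ} (G : Gr m p x) (n : ℕ) :
    E p x (n + 1) = E p x n - mm p x n + (1 / 2) ^ (k + 1) - (1 / 3) ^ (k + 1) := by
  have hK : ∑ j ∈ range n, kap (p n) (p j) * Kp (x n) (x j) =
      ∑ j ∈ range n, kap (p j) (p n) * Kp (x j) (x n) :=
    sum_congr rfl fun j _ => by rw [kap_comm (G.pm n).1 (G.pm j).1, Kp_comm]
  have hK' : ∑ j ∈ range n, kap (p n) (p j) * Kp (x j) (x n) =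
      ∑ j ∈ range n, kap (p j) (p n) * Kp (x j) (x n) :=
    sum_congr rfl fun j _ => by rw [kap_comm (G.pm n).1 (G.pm j).1]
  have hn : kap (p n) (p n) = 1 - |p n| := by
    unfold kap
    rw [abs_of_nonneg (G.pm n).1, max_self]
  unfold mm Fb F E
  rw [hK']
  rw [sum_range_succ, sum_range_succ (fun j => (1 - p j ^ 2) / 2 * hh (x j))]
  simp only [sum_range_succ, sum_add_distrib]
  rw [hK, Kp_self, hn]
  push_cast
  ring

private theorem int_kap (p : ℝ) (hp : 0 ≤ p) (hp1 : p ≤ 1) :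
    ∫ t in (-1 : ℝ)..1, kap t p = 1 - p ^ 2 := by
  have h := integral_eq_of_hasDerivAt_off_countable
    (fun t => t - p * max (-p) (min t p) - (max t p) ^ 2 / 2 + (min t (-p)) ^ 2 / 2)
    (fun t => kap t p) (a := -1) (b := 1) (s := ({p, -p} : Set ℝ))
    (Set.Countable.insert _ (Set.countable_singleton _)) (by fun_prop) ?_
    ((kap_continuous p).intervalIntegrable _ _)
  · rw [h, min_eq_right hp1, max_eq_right (by linarith), max_eq_left hp1, min_eq_right (by linarith),
      min_eq_left (by linarith), max_eq_left (by linarith), max_eq_right (by linarith),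
      min_eq_left (by linarith)]
    ring
  rintro x ⟨_, hx⟩
  have hx1 : x ≠ p := fun h => hx (Or.inl h)
  have hx2 : x ≠ -p := fun h => hx (Or.inr h)
  have hsq : HasDerivAt (fun t : ℝ => t ^ 2) (2 * x) x := by
    have := hasDerivAt_pow 2 x
    simpa using this
  rcases lt_or_gt_of_ne hx1 with h4 | h4
  · rcases lt_or_gt_of_ne hx2 with h5 | h5
    · have e : kap x p = 1 + x := by
        unfold kap
        rw [abs_of_neg (by linarith), max_eq_left (by linarith)]
        ring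
      rw [e]
      have h6 : HasDerivAt (fun t : ℝ => t + p ^ 2 - p ^ 2 / 2 + t ^ 2 / 2) (1 + x) x := by
        have := (((hasDerivAt_id x).add_const (p ^ 2)).sub_const (p ^ 2 / 2)).add (hsq.div_const 2)
        refine this.congr_deriv ?_
        ring
      refine h6.congr_of_eventuallyEq ?_
      filter_upwards [gt_mem_nhds h5] with t ht
      rw [min_eq_left (by linarith : t ≤ p), max_eq_left (by linarith), max_eq_right (by linarith),
        min_eq_left (by linarith)]
      ring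
    · have e : kap x p = 1 - p := by
        unfold kap
        rw [max_eq_right (abs_le.2 ⟨h5.le, h4.le⟩)]
      rw [e]
      have h6 : HasDerivAt (fun t : ℝ => t - p * t - p ^ 2 / 2 + p ^ 2 / 2) (1 - p) x := by
        have := (((hasDerivAt_id x).sub ((hasDerivAt_id x).const_mul p)).sub_const
          (p ^ 2 / 2)).add_const (p ^ 2 / 2)
        refine this.congr_deriv ?_
        ring
      refine h6.congr_of_eventuallyEq ?_
      filter_upwards [gt_mem_nhds h4, lt_mem_nhds h5] with t ht ht'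
      rw [min_eq_left (by linarith : t ≤ p), max_eq_right (by linarith : -p ≤ t),
        max_eq_right (by linarith), min_eq_right (by linarith)]
      ring
  · have e : kap x p = 1 - x := by
      unfold kap
      rw [abs_of_pos (by linarith), max_eq_left (by linarith)]
    rw [e]
    have h6 : HasDerivAt (fun t : ℝ => t - p ^ 2 - t ^ 2 / 2 + p ^ 2 / 2) (1 - x) x := by
      have := (((hasDerivAt_id x).sub_const (p ^ 2)).sub (hsq.div_const 2)).add_const (p ^ 2 / 2)
      refine this.congr_deriv ?_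
      ring
    refine h6.congr_of_eventuallyEq ?_
    filter_upwards [lt_mem_nhds h4] with t ht
    rw [min_eq_right (by linarith : p ≤ t), max_eq_right (by linarith), max_eq_left (by linarith),
      min_eq_right (by linarith)]
    ring

private theorem int_abs : ∫ t in (-1 : ℝ)..1, (1 - |t|) = 1 := by
  have h := int_kap 0 le_rfl zero_le_one
  have e : (fun t : ℝ => kap t 0) = fun t => 1 - |t| := by
    funext t
    unfold kap
    rw [max_eq_left (abs_nonneg t)]
  rw [e] at h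
  rw [h]
  ring

private theorem int_sq : ∫ t in (-1 : ℝ)..1, (1 - t ^ 2) = 4 / 3 := by
  rw [intervalIntegral.integral_sub intervalIntegrable_const
    ((continuous_pow 2).intervalIntegrable _ _), integral_pow]
  simp
  norm_num

private theorem Phi_continuous {k : ℕ} (p : ℕ → ℝ) (x : ℕ → Fin k → ℝ) (n : ℕ) :
    Continuous (Phi p x n) := by
  unfold Phi
  have h : ∀ j, Continuous fun t => kap t (p j) := fun j => kap_continuous (p j)
  fun_prop

theorem V_continuous {k : ℕ} (p : ℕ → ℝ) (x : ℕ → Fin k → ℝ) (n : ℕ) :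
    Continuous (V p x n) := by
  unfold V
  have h : ∀ j, Continuous fun t => kap t (p j) := fun j => kap_continuous (p j)
  fun_prop

private theorem int_Phi {k m : ℕ} {p : ℕ → ℝ} {x : ℕ → Fin k → ℝ} (G : Gr m p x) (n : ℕ) :
    ∫ t in (-1 : ℝ)..1, Phi p x n t = 2 * Fb p x n := by
  have h1 : ∀ j, IntervalIntegrable (fun t => kap t (p j) * hh (x j)) volume (-1) 1 := fun j =>
    ((kap_continuous (p j)).mul continuous_const).intervalIntegrable _ _
  have h2 : IntervalIntegrable (fun t => 2 * ∑ j ∈ range n, kap t (p j) * hh (x j)) volume (-1) 1 := by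
    apply Continuous.intervalIntegrable
    have h : ∀ j, Continuous fun t => kap t (p j) := fun j => kap_continuous (p j)
    fun_prop
  have h3 : IntervalIntegrable (fun t : ℝ => (1 - |t|) * (1 / 2 : ℝ) ^ k) volume (-1) 1 := by
    apply Continuous.intervalIntegrable
    fun_prop
  have h4 : IntervalIntegrable (fun t : ℝ => ((n : ℝ) + 1) * (1 - t ^ 2) * (1 / 3 : ℝ) ^ k)
      volume (-1) 1 := by
    apply Continuous.intervalIntegrable
    fun_prop
  have h5 : ∫ t in (-1 : ℝ)..1, 2 * ∑ j ∈ range n, kap t (p j) * hh (x j) =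
      2 * ∑ j ∈ range n, (1 - p j ^ 2) * hh (x j) := by
    rw [intervalIntegral.integral_const_mul, intervalIntegral.integral_finsetSum fun j _ => h1 j]
    congr 1
    refine sum_congr rfl fun j _ => ?_
    rw [intervalIntegral.integral_mul_const, int_kap (p j) (G.pm j).1 (G.pm j).2.le]
  have h6 : ∫ t in (-1 : ℝ)..1, (1 - |t|) * (1 / 2 : ℝ) ^ k = (1 / 2 : ℝ) ^ k := by
    rw [intervalIntegral.integral_mul_const, int_abs, one_mul]
  have h7 : ∫ t in (-1 : ℝ)..1, ((n : ℝ) + 1) * (1 - t ^ 2) * (1 / 3 : ℝ) ^ k =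
      ((n : ℝ) + 1) * (4 / 3) * (1 / 3 : ℝ) ^ k := by
    rw [intervalIntegral.integral_mul_const, intervalIntegral.integral_const_mul, int_sq]
  have h8 : ∑ j ∈ range n, (1 - p j ^ 2) * hh (x j) =
      2 * ∑ j ∈ range n, (1 - p j ^ 2) / 2 * hh (x j) := by
    rw [mul_sum]
    exact sum_congr rfl fun j _ => by ring
  unfold Phi Fb
  rw [intervalIntegral.integral_sub (h2.add h3) h4, intervalIntegral.integral_add h2 h3, h5, h6, h7, h8]
  ring

theorem mm_nonneg {k m : ℕ} {p : ℕ → ℝ} {x : ℕ → Fin k → ℝ} (G : Gr m p x) (n : ℕ) (hn : m ≤ n) :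
    0 ≤ mm p x n := by
  have h1 : ∫ _ in (-1 : ℝ)..1, F p x n (p n) (x n) ≤ ∫ t in (-1 : ℝ)..1, Phi p x n t :=
    intervalIntegral.integral_mono_on (by norm_num) intervalIntegrable_const
      ((Phi_continuous p x n).intervalIntegrable _ _)
      fun t ht => F_le_Phi G n hn t ht.1 ht.2
  rw [int_Phi G, intervalIntegral.integral_const] at h1
  unfold mm
  simp only [smul_eq_mul] at h1
  linarith

theorem int_V_sub {k m : ℕ} {p : ℕ → ℝ} {x : ℕ → Fin k → ℝ} (G : Gr m p x) (n : ℕ) (hn : m ≤ n) :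
    ∫ t in (-1 : ℝ)..1, |V p x n t - F p x n (p n) (x n)| ≤ 2 * mm p x n + 2 := by
  set f0 := F p x n (p n) (x n) with hf0
  have hPV : ∀ t : ℝ, -1 ≤ t → t ≤ 1 → |Phi p x n t - V p x n t| ≤ 1 := by
    intro t h1 h2
    have e : Phi p x n t - V p x n t = (1 - |t|) * (1 / 2) ^ k - (1 - t ^ 2) * (1 / 3) ^ k := by
      unfold Phi V
      ring
    have a1 : |t| ≤ 1 := abs_le.2 ⟨h1, h2⟩
    have a0 := abs_nonneg t
    have b1 : (0 : ℝ) ≤ (1 / 2) ^ k := by positivity
    have b2 : ((1 / 2 : ℝ)) ^ k ≤ 1 := pow_le_one₀ (by norm_num) (by norm_num)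
    have c1 : (0 : ℝ) ≤ (1 / 3) ^ k := by positivity
    have c2 : ((1 / 3 : ℝ)) ^ k ≤ 1 := pow_le_one₀ (by norm_num) (by norm_num)
    have d1 : t ^ 2 ≤ 1 := by nlinarith
    have d0 := sq_nonneg t
    have g1 : 0 ≤ (1 - |t|) * (1 / 2) ^ k := mul_nonneg (by linarith) b1
    have g2 : (1 - |t|) * (1 / 2) ^ k ≤ 1 := mul_le_one₀ (by linarith) b1 b2
    have g3 : 0 ≤ (1 - t ^ 2) * (1 / 3) ^ k := mul_nonneg (by linarith) c1
    have g4 : (1 - t ^ 2) * (1 / 3) ^ k ≤ 1 := mul_le_one₀ (by linarith) c1 c2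
    rw [e, abs_le]
    constructor <;> linarith
  have h1 : ∫ t in (-1 : ℝ)..1, |V p x n t - f0| ≤ ∫ t in (-1 : ℝ)..1, (Phi p x n t + (1 - f0)) := by
    refine intervalIntegral.integral_mono_on (by norm_num)
      (((V_continuous p x n).sub continuous_const).abs.intervalIntegrable _ _)
      (((Phi_continuous p x n).add continuous_const).intervalIntegrable _ _) fun t ht => ?_
    have a1 := F_le_Phi G n hn t ht.1 ht.2
    have a2 := abs_le.1 (hPV t ht.1 ht.2)
    rw [abs_le]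
    constructor <;> linarith
  refine h1.trans ?_
  rw [intervalIntegral.integral_add ((Phi_continuous p x n).intervalIntegrable _ _)
    intervalIntegrable_const, int_Phi G, intervalIntegral.integral_const]
  unfold mm
  rw [← hf0]
  simp only [smul_eq_mul]
  linarith

private theorem ii_sum {f : ℕ → ℝ → ℝ} (n : ℕ) (h : ∀ j, IntervalIntegrable (f j) volume (-1) 1) :
    IntervalIntegrable (fun t => ∑ j ∈ range n, f j t) volume (-1) 1 := by
  have h1 := IntervalIntegrable.sum (range n) fun j _ => h j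
  have e : (fun t => ∑ j ∈ range n, f j t) = ∑ j ∈ range n, f j := by
    funext t
    rw [Finset.sum_apply]
  rw [e]
  exact h1

theorem E_nonneg {k m : ℕ} {p : ℕ → ℝ} {x : ℕ → Fin k → ℝ} (G : Gr m p x) (n : ℕ) :
    0 ≤ E p x n := by
  have hS : ∀ t : ℝ, 0 ≤ ∑ j ∈ range n, ∑ l ∈ range n, s (p j) t * s (p l) t *
      (2 ^ k * Kp (x j) (x l)) + 2 * (-(n * t)) * ∑ j ∈ range n, s (p j) t * (2 ^ k * hh (x j)) +
      (-(n * t)) ^ 2 * (2 / 3) ^ k := by
    intro t
    refine le_trans ?_ (boxCS n x G.xm (fun j => s (p j) t) (-(n * t)) (fun _ => -1) (fun _ => 1)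
      (fun _ => le_rfl) (fun _ => by norm_num) (fun _ => le_rfl))
    exact mul_nonneg (sq_nonneg _) (prod_nonneg fun _ _ => by norm_num)
  have h1 : 0 ≤ ∫ t in (-1 : ℝ)..1, (∑ j ∈ range n, ∑ l ∈ range n, s (p j) t * s (p l) t *
      (2 ^ k * Kp (x j) (x l)) + 2 * (-(n * t)) * ∑ j ∈ range n, s (p j) t * (2 ^ k * hh (x j)) +
      (-(n * t)) ^ 2 * (2 / 3) ^ k) :=
    intervalIntegral.integral_nonneg (by norm_num) fun t _ => hS t
  have i1 : ∀ j l, IntervalIntegrable (fun t => s (p j) t * s (p l) t *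
      (2 ^ k * Kp (x j) (x l))) volume (-1) 1 := fun j l => (s_mul_intInt _ _ _ _).mul_const _
  have i2 : ∀ j, IntervalIntegrable (fun t => ∑ l ∈ range n, s (p j) t * s (p l) t *
      (2 ^ k * Kp (x j) (x l))) volume (-1) 1 := fun j =>
    ii_sum n fun l => i1 j l
  have i3 : IntervalIntegrable (fun t => ∑ j ∈ range n, ∑ l ∈ range n, s (p j) t * s (p l) t *
      (2 ^ k * Kp (x j) (x l))) volume (-1) 1 := ii_sum n fun j => i2 j
  have e4 : ∀ t : ℝ, 2 * (-(n * t)) * ∑ j ∈ range n, s (p j) t * (2 ^ k * hh (x j)) =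
      ∑ j ∈ range n, s (p j) t * t * (-2 * n * (2 ^ k * hh (x j))) := by
    intro t
    rw [mul_sum]
    exact sum_congr rfl fun j _ => by ring
  have i4 : ∀ j, IntervalIntegrable (fun t => s (p j) t * t * (-2 * n * (2 ^ k * hh (x j))))
      volume (-1) 1 := fun j => (s_mul_id_intInt _ _ _).mul_const _
  have i5 : IntervalIntegrable (fun t => ∑ j ∈ range n, s (p j) t * t *
      (-2 * n * (2 ^ k * hh (x j)))) volume (-1) 1 := ii_sum n fun j => i4 j
  have i6 : IntervalIntegrable (fun t : ℝ => (-((n : ℝ) * t)) ^ 2 * (2 / 3 : ℝ) ^ k)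
      volume (-1) 1 := by
    apply Continuous.intervalIntegrable
    fun_prop
  have v6 : ∫ t in (-1 : ℝ)..1, (-((n : ℝ) * t)) ^ 2 * (2 / 3 : ℝ) ^ k =
      n ^ 2 * (2 / 3) * (2 / 3) ^ k := by
    have e : (fun t : ℝ => (-((n : ℝ) * t)) ^ 2 * (2 / 3 : ℝ) ^ k) =
        fun t => t ^ 2 * ((n : ℝ) ^ 2 * (2 / 3 : ℝ) ^ k) := by
      funext t
      ring
    rw [e, intervalIntegral.integral_mul_const, integral_pow]
    norm_num
    ring
  simp only [e4] at h1
  rw [intervalIntegral.integral_add (i3.add i5) i6, intervalIntegral.integral_add i3 i5, v6,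
    intervalIntegral.integral_finsetSum (fun j _ => i2 j),
    intervalIntegral.integral_finsetSum (fun j _ => i4 j)] at h1
  have v3 : ∀ j ∈ range n, ∫ t in (-1 : ℝ)..1, ∑ l ∈ range n, s (p j) t * s (p l) t *
      (2 ^ k * Kp (x j) (x l)) = 2 ^ (k + 1) * ∑ l ∈ range n, kap (p j) (p l) * Kp (x j) (x l) := by
    intro j _
    rw [intervalIntegral.integral_finsetSum (fun l _ => i1 j l), mul_sum]
    refine sum_congr rfl fun l _ => ?_
    rw [intervalIntegral.integral_mul_const, int_s_s (p j) (p l) (G.pm j).1 (G.pm j).2.le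
      (G.pm l).1 (G.pm l).2.le]
    unfold kap
    rw [abs_of_nonneg (G.pm j).1]
    ring
  have v5 : ∀ j ∈ range n, ∫ t in (-1 : ℝ)..1, s (p j) t * t * (-2 * n * (2 ^ k * hh (x j))) =
      2 ^ (k + 1) * (-(2 * n)) * ((1 - p j ^ 2) / 2 * hh (x j)) := by
    intro j _
    rw [intervalIntegral.integral_mul_const, int_s_id (p j) (G.pm j).1 (G.pm j).2.le]
    ring
  rw [sum_congr rfl v3, sum_congr rfl v5, ← mul_sum, ← mul_sum] at h1
  have e : 2 ^ (k + 1) * ∑ j ∈ range n, ∑ l ∈ range n, kap (p j) (p l) * Kp (x j) (x l) +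
      2 ^ (k + 1) * (-(2 * n)) * ∑ j ∈ range n, (1 - p j ^ 2) / 2 * hh (x j) +
      n ^ 2 * (2 / 3) * (2 / 3) ^ k = 2 ^ (k + 1) * E p x n := by
    unfold E
    have e2 : (2 / 3 : ℝ) * (2 / 3) ^ k = 2 ^ (k + 1) * (1 / 3) ^ (k + 1) := by
      rw [← pow_succ', ← mul_pow]
      norm_num
    linear_combination (n : ℝ) ^ 2 * e2
  rw [e] at h1
  exact nonneg_of_mul_nonneg_right h1 (by positivity)

private theorem E_init {k m : ℕ} {p : ℕ → ℝ} {x : ℕ → Fin k → ℝ} (G : Gr m p x) :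
    E p x m ≤ 2 * m ^ 2 := by
  have h1 : ∑ j ∈ range m, ∑ l ∈ range m, kap (p j) (p l) * Kp (x j) (x l) ≤ (m : ℝ) ^ 2 := by
    have h2 : ∀ j ∈ range m, ∑ l ∈ range m, kap (p j) (p l) * Kp (x j) (x l) ≤ (m : ℝ) := by
      intro j _
      have h3 : ∀ l ∈ range m, kap (p j) (p l) * Kp (x j) (x l) ≤ 1 := by
        intro l _
        have k0 : 0 ≤ kap (p j) (p l) := by
          unfold kap
          rw [abs_of_nonneg (G.pm j).1]
          have := max_lt (G.pm j).2 (G.pm l).2
          linarith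
        have k1 : kap (p j) (p l) ≤ 1 := by
          unfold kap
          have := (abs_nonneg (p j)).trans (le_max_left |p j| (p l))
          linarith
        have q0 : 0 ≤ Kp (x j) (x l) := by
          unfold Kp
          refine prod_nonneg fun r _ => ?_
          have := max_lt (G.xm j r).2 (G.xm l r).2
          linarith
        have q1 : Kp (x j) (x l) ≤ 1 := by
          unfold Kp
          refine prod_le_one (fun r _ => ?_) (fun r _ => ?_)
          · have := max_lt (G.xm j r).2 (G.xm l r).2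
            linarith
          · have := (G.xm j r).1.trans (le_max_left (x j r) (x l r))
            linarith
        exact mul_le_one₀ k1 q0 q1
      calc ∑ l ∈ range m, kap (p j) (p l) * Kp (x j) (x l) ≤ ∑ _l ∈ range m, (1 : ℝ) :=
            sum_le_sum h3
        _ = m := by simp
    calc ∑ j ∈ range m, ∑ l ∈ range m, kap (p j) (p l) * Kp (x j) (x l)
        ≤ ∑ _j ∈ range m, (m : ℝ) := sum_le_sum h2
      _ = (m : ℝ) ^ 2 := by
        rw [sum_const, card_range, nsmul_eq_mul]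
        ring
  have h2 : 0 ≤ ∑ j ∈ range m, (1 - p j ^ 2) / 2 * hh (x j) := by
    refine sum_nonneg fun j _ => mul_nonneg ?_ (hh_nonneg (G.xm j))
    have h3 := G.pm j
    nlinarith [h3.1, h3.2]
  have h3 : ((1 / 3 : ℝ)) ^ (k + 1) ≤ 1 := pow_le_one₀ (by norm_num) (by norm_num)
  have h4 : (m : ℝ) ^ 2 * (1 / 3) ^ (k + 1) ≤ (m : ℝ) ^ 2 :=
    mul_le_of_le_one_right (sq_nonneg _) h3
  have h5 : 0 ≤ 2 * (m : ℝ) * ∑ j ∈ range m, (1 - p j ^ 2) / 2 * hh (x j) := by positivity
  unfold E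
  linarith

theorem E_le {k m : ℕ} {p : ℕ → ℝ} {x : ℕ → Fin k → ℝ} (G : Gr m p x) (n : ℕ) (hn : m ≤ n) :
    E p x n ≤ 2 * m ^ 2 + n := by
  induction n, hn using Nat.le_induction with
  | base =>
    have := E_init G
    have h0 : (0 : ℝ) ≤ m := Nat.cast_nonneg m
    linarith
  | succ n hn ih =>
    rw [E_succ G]
    have h1 := mm_nonneg G n hn
    have h2 : ((1 / 2 : ℝ)) ^ (k + 1) ≤ 1 := pow_le_one₀ (by norm_num) (by norm_num)
    have h3 : (0 : ℝ) ≤ (1 / 3) ^ (k + 1) := by positivity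
    push_cast
    linarith

theorem sum_mm_le {k m : ℕ} {p : ℕ → ℝ} {x : ℕ → Fin k → ℝ} (G : Gr m p x) (N : ℕ) (hN : m ≤ N) :
    ∑ n ∈ Ico m N, mm p x n ≤ 2 * m ^ 2 + N := by
  have key : ∑ n ∈ Ico m N, mm p x n ≤ E p x m - E p x N + (N - m) := by
    induction N, hN using Nat.le_induction with
    | base => simp
    | succ n hn ih =>
      rw [sum_Ico_succ_top hn, E_succ G]
      have h2 : ((1 / 2 : ℝ)) ^ (k + 1) ≤ 1 := pow_le_one₀ (by norm_num) (by norm_num)
      have h3 : (0 : ℝ) ≤ (1 / 3) ^ (k + 1) := by positivity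
      push_cast
      linarith
  have h1 := E_init G
  have h2 := E_nonneg G N
  have h3 : (0 : ℝ) ≤ m := Nat.cast_nonneg m
  linarith

end Pool.Agent.H47.KZ
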