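import Pool.Agent.H47.KZ.Defs

/-!
MODULE Link: from the definition of a Kritzinger sequence (same definitions as in the earlier
hand-in `Pool/Agent/Results/MP_c285df_nt/DimOneLogBound.lean`) to the structure `Gr`.

For `y` in the half open cube: `warnock d (n+1) (update z n y) = const + (n+1)^{-2} F_n(y)`, where
`F_n(y) = 2 ∑_{j<n} ∏ (1 - max (z j r) (y r)) + ∏ (1 - y r) - (n+1) 2^{1-d} ∏ (1 - y r^2)`
(`d = k+1`, `2^{1-d} ∏ (1-y^2) = (1-t^2) * hh y'`).  Split the coordinate `i`: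
`Fin.prod_univ_succAbove`, `y = i.insertNth t y'`.  Then pass to the closed cube by continuity
(e.g. replace `y` by `(1-ε) y`, `ε → 0`), and to `t < 0` by evenness (`|t|`, `t^2`).
-/

namespace Pool.Agent.H47.KZ

open Finset

/-- The half-open unit cube `[0,1)^d`. -/
def cube (d : ℕ) : Set (Fin d → ℝ) := {x | ∀ r, 0 ≤ x r ∧ x r < 1}

/-- Warnock's formula. -/
noncomputable def warnock (d n : ℕ) (z : ℕ → Fin d → ℝ) : ℝ :=
  (3 : ℝ) ^ (-(d : ℤ))
    - (2 : ℝ) ^ (1 - (d : ℤ)) / n * ∑ i ∈ range n, ∏ r, (1 - (z i r) ^ 2)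
    + 1 / (n : ℝ) ^ 2 * ∑ i ∈ range n, ∑ j ∈ range n, ∏ r, (1 - max (z i r) (z j r))

/-- Kritzinger sequence. -/
structure IsKritzinger (d m : ℕ) (z : ℕ → Fin d → ℝ) : Prop where
  nonempty : 1 ≤ m
  mem : ∀ i, z i ∈ cube d
  greedy : ∀ n, m ≤ n → ∀ y ∈ cube d,
    warnock d (n + 1) z ≤ warnock d (n + 1) (Function.update z n y)

/-- Star discrepancy. -/
noncomputable def starDisc (d N : ℕ) (z : ℕ → Fin d → ℝ) : ℝ :=
  ⨆ q : cube d,
    |(((range N).filter (fun i => ∀ r, 0 ≤ z i r ∧ z i r < q.1 r)).card : ℝ) / N - ∏ r, q.1 r|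

private theorem two_zpow (k : ℕ) : (2 : ℝ) ^ (1 - ((k + 1 : ℕ) : ℤ)) = (1 / 2) ^ k := by
  have h : (1 : ℤ) - ((k + 1 : ℕ) : ℤ) = -(k : ℤ) := by
    push_cast
    ring
  rw [h, zpow_neg, zpow_natCast, one_div, inv_pow]

private theorem hh_eq {k : ℕ} (y : Fin k → ℝ) :
    hh y = (1 / 2) ^ k * ∏ r, (1 - y r ^ 2) := by
  unfold hh
  have h : ∀ r ∈ (Finset.univ : Finset (Fin k)), (1 - y r ^ 2) / 2 = (1 / 2) * (1 - y r ^ 2) := by
    intro r _
    ring
  rw [Finset.prod_congr rfl h, Finset.prod_mul_distrib, Finset.prod_const, Finset.card_univ,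
    Fintype.card_fin]

private theorem warn_upd {k : ℕ} (z : ℕ → Fin (k + 1) → ℝ) (i : Fin (k + 1)) (n : ℕ)
    (w : Fin (k + 1) → ℝ) (hw : 0 ≤ w i) :
    warnock (k + 1) (n + 1) (Function.update z n w) =
      ((3 : ℝ) ^ (-((k + 1 : ℕ) : ℤ))
        - (1 / 2) ^ k / ((n : ℝ) + 1) * ∑ j ∈ range n, ∏ r, (1 - (z j r) ^ 2)
        + 1 / ((n : ℝ) + 1) ^ 2 * ∑ j ∈ range n, ∑ l ∈ range n, ∏ r, (1 - max (z j r) (z l r)))
      + 1 / ((n : ℝ) + 1) ^ 2 *
        F (fun j => z j i) (fun j r => z j (i.succAbove r)) n (w i) (fun r => w (i.succAbove r)) := by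
  have hj : ∀ j ∈ range n, Function.update z n w j = z j := by
    intro j hj
    exact Function.update_of_ne (Finset.mem_range.1 hj).ne _ _
  have hn : Function.update z n w n = w := Function.update_self _ _ _
  have h1 : ∑ j ∈ range (n + 1), ∏ r, (1 - (Function.update z n w j r) ^ 2) =
      ∑ j ∈ range n, ∏ r, (1 - (z j r) ^ 2) + ∏ r, (1 - (w r) ^ 2) := by
    rw [Finset.sum_range_succ, hn]
    congr 1
    apply Finset.sum_congr rfl
    intro j hjj
    rw [hj j hjj]
  have h2 : ∑ j ∈ range (n + 1), ∑ l ∈ range (n + 1),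
      ∏ r, (1 - max (Function.update z n w j r) (Function.update z n w l r)) =
      ∑ j ∈ range n, ∑ l ∈ range n, ∏ r, (1 - max (z j r) (z l r))
        + 2 * ∑ j ∈ range n, ∏ r, (1 - max (z j r) (w r)) + ∏ r, (1 - w r) := by
    rw [Finset.sum_range_succ, hn]
    have h3 : ∀ j ∈ range n, ∑ l ∈ range (n + 1),
        ∏ r, (1 - max (Function.update z n w j r) (Function.update z n w l r)) =
        ∑ l ∈ range n, ∏ r, (1 - max (z j r) (z l r)) + ∏ r, (1 - max (z j r) (w r)) := by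
      intro j hjj
      rw [Finset.sum_range_succ, hn, hj j hjj]
      congr 1
      apply Finset.sum_congr rfl
      intro l hl
      rw [hj l hl]
    rw [Finset.sum_congr rfl h3, Finset.sum_add_distrib, Finset.sum_range_succ, hn]
    have h4 : ∀ l ∈ range n, ∏ r, (1 - max (w r) (Function.update z n w l r)) =
        ∏ r, (1 - max (z l r) (w r)) := by
      intro l hl
      rw [hj l hl]
      apply Finset.prod_congr rfl
      intro r _
      rw [max_comm]
    have h5 : ∏ r, (1 - max (w r) (w r)) = ∏ r, (1 - w r) := by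
      apply Finset.prod_congr rfl
      intro r _
      rw [max_self]
    rw [Finset.sum_congr rfl h4, h5]
    ring
  have h6 : ∀ j ∈ range n, kap (w i) (z j i) *
      Kp (fun r => z j (i.succAbove r)) (fun r => w (i.succAbove r)) =
      ∏ r, (1 - max (z j r) (w r)) := by
    intro j _
    rw [Fin.prod_univ_succAbove _ i]
    unfold kap Kp
    rw [abs_of_nonneg hw, max_comm]
  have h7 : (1 - |w i|) * ∏ r, (1 - w (i.succAbove r)) = ∏ r, (1 - w r) := by
    rw [Fin.prod_univ_succAbove _ i, abs_of_nonneg hw]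
  have h8 : (1 - w i ^ 2) * hh (fun r => w (i.succAbove r)) =
      (1 / 2) ^ k * ∏ r, (1 - (w r) ^ 2) := by
    rw [Fin.prod_univ_succAbove (fun r => (1 - (w r) ^ 2)) i, hh_eq]
    ring
  have hF : F (fun j => z j i) (fun j r => z j (i.succAbove r)) n (w i)
      (fun r => w (i.succAbove r)) =
      2 * ∑ j ∈ range n, ∏ r, (1 - max (z j r) (w r)) + ∏ r, (1 - w r)
        - ((n : ℝ) + 1) * ((1 / 2) ^ k * ∏ r, (1 - (w r) ^ 2)) := by
    unfold F
    rw [Finset.sum_congr rfl h6, h7, mul_assoc, h8]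
  rw [hF]
  unfold warnock
  rw [h1, h2, two_zpow]
  have hn1 : ((n : ℝ) + 1) ≠ 0 := by positivity
  push_cast
  field_simp
  ring

private theorem gr_cube {k m : ℕ} {z : ℕ → Fin (k + 1) → ℝ} (h : IsKritzinger (k + 1) m z)
    (i : Fin (k + 1)) (n : ℕ) (hn : m ≤ n) (w : Fin (k + 1) → ℝ) (hw : w ∈ cube (k + 1)) :
    F (fun j => z j i) (fun j r => z j (i.succAbove r)) n (z n i) (fun r => z n (i.succAbove r)) ≤
    F (fun j => z j i) (fun j r => z j (i.succAbove r)) n (w i) (fun r => w (i.succAbove r)) := by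
  have h1 := h.greedy n hn w hw
  have h2 := warn_upd z i n (z n) (h.mem n i).1
  rw [Function.update_eq_self] at h2
  rw [h2, warn_upd z i n w (hw i).1] at h1
  have h3 := le_of_add_le_add_left h1
  have h4 : (0 : ℝ) < 1 / ((n : ℝ) + 1) ^ 2 := by positivity
  exact le_of_mul_le_mul_left h3 h4

private theorem F_abs {k : ℕ} (p : ℕ → ℝ) (x : ℕ → Fin k → ℝ) (n : ℕ) (t : ℝ) (y : Fin k → ℝ) :
    F p x n |t| y = F p x n t y := by
  unfold F kap
  rw [abs_abs, sq_abs]

private theorem F_cont {k : ℕ} (p : ℕ → ℝ) (x : ℕ → Fin k → ℝ) (n : ℕ) (t : ℝ) (y : Fin k → ℝ) :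
    Continuous (fun e : ℝ => F p x n ((1 - e) * t) (fun r => (1 - e) * y r)) := by
  unfold F kap Kp hh
  fun_prop

theorem link {k m : ℕ} {z : ℕ → Fin (k + 1) → ℝ} (h : IsKritzinger (k + 1) m z)
    (i : Fin (k + 1)) :
    Gr m (fun j => z j i) (fun j r => z j (i.succAbove r)) := by
  refine ⟨fun j => h.mem j i, fun j r => h.mem j (i.succAbove r), ?_⟩
  intro n hn t ht1 ht2 y hy
  rw [← F_abs _ _ n t y]
  have ht : |t| ≤ 1 := abs_le.2 ⟨ht1, ht2⟩
  have ht0 : 0 ≤ |t| := abs_nonneg t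
  have hc := F_cont (fun j => z j i) (fun j r => z j (i.succAbove r)) n |t| y
  have hlim : Filter.Tendsto (fun e : ℝ => F (fun j => z j i) (fun j r => z j (i.succAbove r)) n
      ((1 - e) * |t|) (fun r => (1 - e) * y r)) (nhdsWithin 0 (Set.Ioo 0 1))
      (nhds (F (fun j => z j i) (fun j r => z j (i.succAbove r)) n |t| y)) := by
    have h0 := hc.tendsto 0
    simp only [sub_zero, one_mul] at h0
    exact h0.mono_left nhdsWithin_le_nhds
  have hne : (nhdsWithin (0 : ℝ) (Set.Ioo 0 1)).NeBot := by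
    rw [nhdsWithin_Ioo_eq_nhdsGT (zero_lt_one' ℝ)]
    infer_instance
  refine ge_of_tendsto hlim ?_
  filter_upwards [self_mem_nhdsWithin] with e he
  obtain ⟨he0, he1⟩ := he
  have hq := gr_cube h i n hn (i.insertNth ((1 - e) * |t|) (fun r => (1 - e) * y r)) (by
    intro r
    have hb : ∀ a : ℝ, 0 ≤ a → a ≤ 1 → 0 ≤ (1 - e) * a ∧ (1 - e) * a < 1 := by
      intro a ha0 ha1
      constructor
      · exact mul_nonneg (by linarith) ha0
      · nlinarith
    rcases Fin.eq_self_or_eq_succAbove i r with hr | ⟨r', hr⟩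
    · rw [hr, Fin.insertNth_apply_same]
      exact hb _ ht0 ht
    · rw [hr, Fin.insertNth_apply_succAbove]
      exact hb _ (hy r').1 (hy r').2)
  simp only [Fin.insertNth_apply_same, Fin.insertNth_apply_succAbove] at hq
  exact hq

end Pool.Agent.H47.KZ
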