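import Mathlib

/-!
MODULE Path: abstract path lemma (pure real analysis, independent of everything else).

`v k` is the box average at scale indices `k r ≤ K r`; box half-lengths `2^(k r) ρ`.
Induction on `M = ∑ (K r - k r)`: `|v k| ≤ M β + γ`.
* `M = 0`: `k = K`, `hfin`.
* `M > 0`: choose `s` with `k s < K s` minimising `T_s = 2^(k s) ρ / X s` among such `s`.
  For `r` with `k r = K r` : `T_r > 1/4` (`hK2`), and `T_s ≤ 1/4` (as `2^(k s + 1) ρ ≤ 2^(K s) ρ ≤ X s/2`),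
  so `T_s ≤ T_r` for ALL `r`.  Then
  `(2^(k s) ρ) / ∏ = 1 / ∏_{r ≠ s} ≤ ρ^{-(d-1)}`, and
  `(2^(k s) ρ)^2/(X s)^2 / ∏_r (2^(k r) ρ) = T_s^2/ ∏ (T_r X_r) ≤ T_s^(2-d) / ∏ X_r ≤ ρ^(2-d) /(δ ρ)`
  (`T_s ≥ ρ` because `X s ≤ 1`).  So the step costs at most `β = sqrt ((1 + 1/δ) A / ρ^(d-1))`.
* `hfin`: `∏ 2^(K r) ρ ≥ ∏ X r/4 ≥ 4^{-d} δ ρ`, so `γ = sqrt (4^d/δ A/ρ^(d-1))` works (`ρ ≤ 1`, `d ≥ 2`).
-/

namespace Pool.Agent.H47.KZ

open Finset

private theorem two_parts (d : ℕ) (hd : 2 ≤ d) (K : Fin d → ℕ) (ρ δ : ℝ) (X : Fin d → ℝ)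
    (hρ : 0 < ρ) (hδ : 0 < δ) (hX : ∀ r, 0 < X r ∧ X r ≤ 1)
    (hK1 : ∀ r, 2 ^ K r * ρ ≤ X r / 2) (hK2 : ∀ r, X r / 2 < 2 ^ (K r + 1) * ρ)
    (hprod : δ * ρ ≤ ∏ r, X r) (k : Fin d → ℕ) (hk : ∀ r, k r ≤ K r) (s : Fin d)
    (hs : k s < K s)
    (hmin : ∀ r, k r < K r → 2 ^ k s * ρ / X s ≤ 2 ^ k r * ρ / X r) :
    2 ^ k s * ρ * ρ ^ (d - 1) ≤ ∏ r, (2 ^ k r * ρ) ∧
      (2 ^ k s * ρ / X s) ^ 2 * (δ * ρ ^ (d - 1)) ≤ ∏ r, (2 ^ k r * ρ) := by
  have hpos : ∀ r : Fin d, 0 < (2 : ℝ) ^ k r * ρ := fun r => by positivity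
  have hge : ∀ r : Fin d, ρ ≤ (2 : ℝ) ^ k r * ρ := fun r => by
    have : (1 : ℝ) ≤ 2 ^ k r := one_le_pow₀ (by norm_num)
    nlinarith
  constructor
  · rw [← Finset.mul_prod_erase Finset.univ _ (Finset.mem_univ s)]
    apply mul_le_mul_of_nonneg_left _ (hpos s).le
    have h1 : ∏ r ∈ Finset.univ.erase s, ρ ≤ ∏ r ∈ Finset.univ.erase s, (2 ^ k r * ρ) :=
      Finset.prod_le_prod (fun _ _ => hρ.le) (fun r _ => hge r)
    rw [Finset.prod_const, Finset.card_erase_of_mem (Finset.mem_univ s), Finset.card_univ,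
      Fintype.card_fin] at h1
    exact h1
  · set T : Fin d → ℝ := fun r => 2 ^ k r * ρ / X r with hT
    have hTpos : ∀ r, 0 < T r := fun r => div_pos (hpos r) (hX r).1
    have hTs : T s ≤ 1 / 4 := by
      have h1 : (2 : ℝ) ^ (k s + 1) ≤ 2 ^ K s := pow_le_pow_right₀ (by norm_num) hs
      have h2 : (2 : ℝ) ^ (k s + 1) * ρ ≤ X s / 2 :=
        le_trans (mul_le_mul_of_nonneg_right h1 hρ.le) (hK1 s)
      rw [pow_succ] at h2
      show 2 ^ k s * ρ / X s ≤ 1 / 4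
      rw [div_le_iff₀ (hX s).1]
      linarith
    have hTr : ∀ r, T s ≤ T r := by
      intro r
      rcases (hk r).lt_or_eq with h | h
      · exact hmin r h
      · refine le_trans hTs ?_
        have h2 := hK2 r
        rw [← h, pow_succ] at h2
        show 1 / 4 ≤ 2 ^ k r * ρ / X r
        rw [le_div_iff₀ (hX r).1]
        linarith
    have hρT : ρ ≤ T s := by
      show ρ ≤ 2 ^ k s * ρ / X s
      rw [le_div_iff₀ (hX s).1]
      have := (hX s).2
      nlinarith [hge s]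
    have e1 : ∏ r, (2 ^ k r * ρ) = (∏ r, T r) * ∏ r, X r := by
      rw [← Finset.prod_mul_distrib]
      refine Finset.prod_congr rfl fun r _ => ?_
      show (2 : ℝ) ^ k r * ρ = 2 ^ k r * ρ / X r * X r
      rw [div_mul_cancel₀ _ (hX r).1.ne']
    have e2 : T s ^ d ≤ ∏ r, T r := by
      have h1 : ∏ _r : Fin d, T s ≤ ∏ r, T r :=
        Finset.prod_le_prod (fun _ _ => (hTpos s).le) (fun r _ => hTr r)
      rw [Finset.prod_const, Finset.card_univ, Fintype.card_fin] at h1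
      exact h1
    obtain ⟨m, rfl⟩ : ∃ m, d = m + 2 := ⟨d - 2, by omega⟩
    have e3 : T s ^ 2 * (δ * ρ ^ (m + 2 - 1)) ≤ T s ^ (m + 2) * (δ * ρ) := by
      have h1 : ρ ^ m ≤ T s ^ m := pow_le_pow_left₀ hρ.le hρT m
      have h2 : m + 2 - 1 = m + 1 := by omega
      rw [h2, pow_succ ρ m, pow_add (T s) m 2]
      have h3 : 0 ≤ T s ^ 2 * (δ * ρ) := by have := hTpos s; positivity
      calc T s ^ 2 * (δ * (ρ ^ m * ρ)) = ρ ^ m * (T s ^ 2 * (δ * ρ)) := by ring
        _ ≤ T s ^ m * (T s ^ 2 * (δ * ρ)) := mul_le_mul_of_nonneg_right h1 h3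
        _ = T s ^ m * T s ^ 2 * (δ * ρ) := by ring
    refine le_trans e3 ?_
    rw [e1]
    exact mul_le_mul e2 hprod (by positivity) (Finset.prod_nonneg fun r _ => (hTpos r).le)

private theorem step_bound (d : ℕ) (hd : 2 ≤ d) (K : Fin d → ℕ) (ρ A δ : ℝ) (X : Fin d → ℝ)
    (hρ : 0 < ρ) (hA : 0 ≤ A) (hδ : 0 < δ) (hX : ∀ r, 0 < X r ∧ X r ≤ 1)
    (hK1 : ∀ r, 2 ^ K r * ρ ≤ X r / 2) (hK2 : ∀ r, X r / 2 < 2 ^ (K r + 1) * ρ)
    (hprod : δ * ρ ≤ ∏ r, X r) (k : Fin d → ℕ) (hk : ∀ r, k r ≤ K r) (s : Fin d)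
    (hs : k s < K s)
    (hmin : ∀ r, k r < K r → 2 ^ k s * ρ / X s ≤ 2 ^ k r * ρ / X r) :
    A * (2 ^ k s * ρ + (2 ^ k s * ρ) ^ 2 / X s ^ 2) / ∏ r, (2 ^ k r * ρ) ≤
      (1 + 4 ^ d / δ) * A / ρ ^ (d - 1) := by
  obtain ⟨h1, h2⟩ := two_parts d hd K ρ δ X hρ hδ hX hK1 hK2 hprod k hk s hs hmin
  have hP : 0 < ∏ r, ((2 : ℝ) ^ k r * ρ) := Finset.prod_pos fun r _ => by positivity
  have hR : 0 < ρ ^ (d - 1) := by positivity
  rw [div_le_div_iff₀ hP hR]
  rw [div_pow] at h2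
  set P := ∏ r, ((2 : ℝ) ^ k r * ρ)
  set R := ρ ^ (d - 1)
  set t := (2 : ℝ) ^ k s * ρ
  set q := t ^ 2 / X s ^ 2
  have h3 : q * R ≤ P / δ := by
    rw [le_div_iff₀ hδ]
    linarith
  have h4 : P / δ ≤ (4 ^ d / δ) * P := by
    rw [div_mul_eq_mul_div]
    apply div_le_div_of_nonneg_right _ hδ.le
    have : (1 : ℝ) ≤ 4 ^ d := one_le_pow₀ (by norm_num)
    nlinarith
  calc A * (t + q) * R = A * (t * R + q * R) := by ring
    _ ≤ A * (P + (4 ^ d / δ) * P) := by
        apply mul_le_mul_of_nonneg_left _ hA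
        linarith
    _ = (1 + 4 ^ d / δ) * A * P := by ring

theorem path (d : ℕ) (hd : 2 ≤ d) (K : Fin d → ℕ) (ρ A δ : ℝ) (X : Fin d → ℝ)
    (v : (Fin d → ℕ) → ℝ) (hρ : 0 < ρ) (hρ1 : ρ ≤ 1) (hA : 0 ≤ A) (hδ : 0 < δ)
    (hX : ∀ r, 0 < X r ∧ X r ≤ 1)
    (hK1 : ∀ r, 2 ^ K r * ρ ≤ X r / 2) (hK2 : ∀ r, X r / 2 < 2 ^ (K r + 1) * ρ)
    (hprod : δ * ρ ≤ ∏ r, X r)
    (hstep : ∀ (k : Fin d → ℕ) (i : Fin d), (∀ r, k r ≤ K r) → k i < K i →
      (v k - v (Function.update k i (k i + 1))) ^ 2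
        ≤ A * (2 ^ k i * ρ + (2 ^ k i * ρ) ^ 2 / X i ^ 2) / ∏ r, (2 ^ k r * ρ))
    (hfin : (v K) ^ 2 ≤ A / ∏ r, (2 ^ K r * ρ)) :
    |v (fun _ => 0)| ≤ (∑ r, (K r : ℝ) + 1) * Real.sqrt ((1 + 4 ^ d / δ) * A / ρ ^ (d - 1)) := by
  set B : ℝ := (1 + 4 ^ d / δ) * A / ρ ^ (d - 1) with hB
  have hB0 : 0 ≤ B := by positivity
  have hbase : |v K| ≤ Real.sqrt B := by
    apply Real.abs_le_sqrt
    refine le_trans hfin ?_
    have hP : δ * ρ / 4 ^ d ≤ ∏ r, ((2 : ℝ) ^ K r * ρ) := by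
      have h1 : ∏ r, (X r / 4) ≤ ∏ r, ((2 : ℝ) ^ K r * ρ) := by
        refine Finset.prod_le_prod (fun r _ => by have := (hX r).1; positivity) fun r _ => ?_
        have := hK2 r
        rw [pow_succ] at this
        linarith
      rw [Finset.prod_div_distrib, Finset.prod_const, Finset.card_univ, Fintype.card_fin] at h1
      refine le_trans ?_ h1
      exact div_le_div_of_nonneg_right hprod (by positivity)
    have hR : 0 < ρ ^ (d - 1) := by positivity
    have hR1 : ρ ^ (d - 1) ≤ ρ := by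
      calc ρ ^ (d - 1) ≤ ρ ^ 1 := pow_le_pow_of_le_one hρ.le hρ1 (by omega)
        _ = ρ := pow_one ρ
    have h0 : 0 < δ * ρ / 4 ^ d := by positivity
    calc A / ∏ r, ((2 : ℝ) ^ K r * ρ) ≤ A / (δ * ρ / 4 ^ d) :=
          div_le_div_of_nonneg_left hA h0 hP
      _ = (4 ^ d / δ) * A / ρ := by field_simp
      _ ≤ (4 ^ d / δ) * A / ρ ^ (d - 1) := by
          apply div_le_div_of_nonneg_left _ hR hR1
          positivity
      _ ≤ B := by
          rw [hB]
          apply div_le_div_of_nonneg_right _ hR.le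
          nlinarith
  have main : ∀ (M : ℕ) (k : Fin d → ℕ), (∀ r, k r ≤ K r) → ∑ r, (K r - k r) = M →
      |v k| ≤ ((M : ℝ) + 1) * Real.sqrt B := by
    intro M
    induction M with
    | zero =>
      intro k hk hM
      have hkK : k = K := by
        funext r
        have h1 := (Finset.sum_eq_zero_iff.1 hM) r (Finset.mem_univ r)
        have h2 := hk r
        omega
      rw [hkK]
      simpa using hbase
    | succ M ih =>
      intro k hk hM
      set G : Finset (Fin d) := Finset.univ.filter fun r => k r < K r with hG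
      have hne : G.Nonempty := by
        by_contra hemp
        rw [Finset.not_nonempty_iff_eq_empty] at hemp
        have : ∑ r, (K r - k r) = 0 := by
          apply Finset.sum_eq_zero
          intro r _
          have h3 : r ∉ G := by rw [hemp]; exact Finset.notMem_empty r
          rw [hG, Finset.mem_filter, not_and] at h3
          have h4 := h3 (Finset.mem_univ r)
          omega
        omega
      obtain ⟨s, hsG, hsmin⟩ := G.exists_min_image (fun r => (2 : ℝ) ^ k r * ρ / X r) hne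
      have hs : k s < K s := (Finset.mem_filter.1 hsG).2
      have hmin : ∀ r, k r < K r → (2 : ℝ) ^ k s * ρ / X s ≤ 2 ^ k r * ρ / X r := fun r hr =>
        hsmin r (Finset.mem_filter.2 ⟨Finset.mem_univ r, hr⟩)
      have hb := step_bound d hd K ρ A δ X hρ hA hδ hX hK1 hK2 hprod k hk s hs hmin
      have hd1 : |v k - v (Function.update k s (k s + 1))| ≤ Real.sqrt B :=
        Real.abs_le_sqrt (le_trans (hstep k s hk hs) hb)
      have hk' : ∀ r, Function.update k s (k s + 1) r ≤ K r := by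
        intro r
        by_cases h : r = s
        · subst h
          rw [Function.update_self]
          exact hs
        · rw [Function.update_of_ne h]
          exact hk r
      have hM' : ∑ r, (K r - Function.update k s (k s + 1) r) = M := by
        rw [← Finset.add_sum_erase Finset.univ _ (Finset.mem_univ s)] at hM ⊢
        rw [Function.update_self]
        have : ∑ r ∈ Finset.univ.erase s, (K r - Function.update k s (k s + 1) r) =
            ∑ r ∈ Finset.univ.erase s, (K r - k r) := by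
          refine Finset.sum_congr rfl fun r hr => ?_
          rw [Function.update_of_ne (Finset.ne_of_mem_erase hr)]
        rw [this]
        omega
      have h5 := ih _ hk' hM'
      have h6 : |v k| ≤ |v k - v (Function.update k s (k s + 1))| +
          |v (Function.update k s (k s + 1))| := by
        have := abs_add_le (v k - v (Function.update k s (k s + 1)))
          (v (Function.update k s (k s + 1)))
        rwa [sub_add_cancel] at this
      push_cast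
      linarith
  have h := main (∑ r, (K r - 0)) (fun _ => 0) (fun r => Nat.zero_le _) rfl
  have e : ((∑ r, (K r - 0) : ℕ) : ℝ) = ∑ r, (K r : ℝ) := by
    push_cast
    simp
  rw [e] at h
  exact h

end Pool.Agent.H47.KZ
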