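import Pool.Agent.H47.KZ.Good
import Pool.Agent.H47.KZ.Path
import Pool.Agent.H47.KZ.Link

/-!
Bound for averages over small cubes (assembly of good, stage, final, path, link).
For every coordinate `r` and `1 ≤ κ ≤ K r` take the interval of half-length `2^κ ρ` from
`good` (applied to the coordinate `r`), and `[c r - ρ, c r + ρ]` for `κ = 0`.
-/

namespace Pool.Agent.H47.KZ

open Finset

private lemma avB_eq_av {k : ℕ} (z : ℕ → Fin (k + 1) → ℝ) (n : ℕ) (α β : Fin (k + 1) → ℝ)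
    (i : Fin (k + 1)) :
    avB z n α β = av (fun j => z j i) (fun j r => z j (i.succAbove r)) n (α i) (β i)
      (fun r => α (i.succAbove r)) (fun r => β (i.succAbove r)) := by
  unfold avB av
  congr 1
  · apply sum_congr rfl
    intro j _
    rw [Fin.prod_univ_succAbove _ i]
  · rw [Fin.prod_univ_succAbove _ i]
    ring

theorem box {k m : ℕ} (hk : 1 ≤ k) {z : ℕ → Fin (k + 1) → ℝ} (h : IsKritzinger (k + 1) m z)
    (N : ℕ) (hN : m ≤ N) (δ ρ : ℝ) (hδ : 0 < δ) (hρ : 0 < ρ) (hNρ : 1 ≤ N * ρ)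
    (c : Fin (k + 1) → ℝ) (hc : ∀ r, 0 ≤ c r) (hc1 : ∀ r, ρ ≤ (1 - c r) / 2)
    (hprod : δ * ρ ≤ ∏ r, (1 - c r)) :
    |avB z N (fun r => c r - ρ) (fun r => c r + ρ)|
      ≤ ((k + 1) * (Real.logb 2 (1 / ρ)) + 1)
        * Real.sqrt ((1 + 4 ^ (k + 1) / δ) * (2000 * m ^ 2 * N) / ρ ^ k) := by
  have hm1 : (1 : ℝ) ≤ m := by exact_mod_cast h.nonempty
  have hNR : (1 : ℝ) ≤ N := by
    have : (m : ℝ) ≤ N := by exact_mod_cast hN
    linarith
  have hX : ∀ r, 0 < 1 - c r ∧ 1 - c r ≤ 1 := fun r => ⟨by linarith [hc1 r], by linarith [hc r]⟩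
  have hρ1 : ρ ≤ 1 / 2 := by linarith [hc1 0, (hX 0).2]
  have hK : ∀ r, ∃ K : ℕ, 2 ^ K * ρ ≤ (1 - c r) / 2 ∧ (1 - c r) / 2 < 2 ^ (K + 1) * ρ := by
    intro r
    have h1 : 1 ≤ (1 - c r) / 2 / ρ := by rw [le_div_iff₀ hρ]; linarith [hc1 r]
    obtain ⟨K, h2, h3⟩ := exists_nat_pow_near h1 (one_lt_two)
    exact ⟨K, (le_div_iff₀ hρ).1 h2, (div_lt_iff₀ hρ).1 h3⟩
  choose K hK1 hK2 using hK
  have hpow : ∀ {a b : ℕ}, a ≤ b → (2 : ℝ) ^ a * ρ ≤ 2 ^ b * ρ := fun hab =>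
    mul_le_mul_of_nonneg_right (pow_le_pow_right₀ one_le_two hab) hρ.le
  have hcen : ∀ (r : Fin (k + 1)) (κ : ℕ), ∃ a : ℝ, (κ ≤ K r → |a - c r| ≤ 2 ^ κ * ρ / 4
      ∧ -1 ≤ a - 2 ^ κ * ρ ∧ a + 2 ^ κ * ρ ≤ 1 ∧ (1 ≤ κ →
        Qa (fun j => z j r) (fun j i => z j (r.succAbove i)) (a - 2 ^ κ * ρ) (a + 2 ^ κ * ρ) N
        ≤ 200 * m ^ 2 + 100 * (2 ^ κ * ρ) * N + 600 * (2 ^ κ * ρ) ^ 2 * N / (1 - c r) ^ 2))
      ∧ (κ = 0 → a = c r) := by
    intro r κ
    rcases Nat.eq_zero_or_pos κ with rfl | hκ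
    · refine ⟨c r, fun _ => ⟨by simp; positivity, ?_, ?_, fun h => absurd h (by norm_num)⟩,
        fun _ => rfl⟩
      · simp only [pow_zero, one_mul]; linarith [hc r]
      · simp only [pow_zero, one_mul]; linarith [hc1 r]
    · by_cases hκK : κ ≤ K r
      · obtain ⟨a, h1, h2, h3, h4⟩ := good (link h r) N hN (c r) (2 ^ κ * ρ) (hc r)
          (by linarith [(hX r).1]) (by positivity) ((hpow hκK).trans (hK1 r))
        exact ⟨a, fun _ => ⟨h1, h2, h3, fun _ => h4⟩, fun h => by omega⟩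
      · exact ⟨c r, fun h => absurd h hκK, fun h => by omega⟩
  choose cen hcen1 hcen0 using hcen
  have hpm : ∀ (i : Fin (k + 1)) j, 0 ≤ z j i ∧ z j i < 1 := fun i j => h.mem j i
  have hxm : ∀ (i : Fin (k + 1)) j (r : Fin k), 0 ≤ z j (i.succAbove r) ∧ z j (i.succAbove r) < 1 :=
    fun i j r => h.mem j _
  have hprodeq : ∀ (kk : Fin (k + 1) → ℕ) (i : Fin (k + 1)),
      ((cen i (kk i) + 2 ^ kk i * ρ) - (cen i (kk i) - 2 ^ kk i * ρ)) *
        ∏ r : Fin k, ((cen (i.succAbove r) (kk (i.succAbove r)) + 2 ^ kk (i.succAbove r) * ρ)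
          - (cen (i.succAbove r) (kk (i.succAbove r)) - 2 ^ kk (i.succAbove r) * ρ))
      = 2 ^ (k + 1) * ∏ r, (2 ^ kk r * ρ) := by
    intro kk i
    rw [Fin.prod_univ_succAbove _ i]
    have e : ∀ r : Fin (k + 1), ((cen r (kk r) + 2 ^ kk r * ρ) - (cen r (kk r) - 2 ^ kk r * ρ))
        = 2 * (2 ^ kk r * ρ) := fun r => by ring
    simp only [e]
    rw [prod_mul_distrib, prod_const, card_univ, Fintype.card_fin]
    ring
  have hlam : ∀ (kk : Fin (k + 1) → ℕ), 0 < ∏ r, ((2 : ℝ) ^ kk r * ρ) := fun kk =>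
    prod_pos fun r _ => by positivity
  have key := path (k + 1) (by omega) K ρ (2000 * m ^ 2 * N) δ (fun r => 1 - c r)
    (fun kk => avB z N (fun r => cen r (kk r) - 2 ^ kk r * ρ) (fun r => cen r (kk r) + 2 ^ kk r * ρ))
    hρ (by linarith) (by positivity) hδ hX hK1 hK2 hprod ?_ ?_
  · have hc00 : ∀ r, cen r 0 = c r := fun r => hcen0 r 0 rfl
    simp only [pow_zero, one_mul, hc00] at key
    refine key.trans ?_
    rw [Nat.add_sub_cancel]
    apply mul_le_mul_of_nonneg_right _ (Real.sqrt_nonneg _)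
    have hKl : ∀ r, (K r : ℝ) ≤ Real.logb 2 (1 / ρ) := by
      intro r
      rw [Real.le_logb_iff_rpow_le one_lt_two (by positivity), Real.rpow_natCast,
        le_div_iff₀ hρ]
      linarith [hK1 r, (hX r).2]
    have : ∑ r, (K r : ℝ) ≤ ∑ _r : Fin (k + 1), Real.logb 2 (1 / ρ) := sum_le_sum fun r _ => hKl r
    rw [sum_const, card_univ, Fintype.card_fin, nsmul_eq_mul] at this
    push_cast at this
    linarith
  · intro kk i hkk hi
    obtain ⟨h1, h2, h3, _⟩ := hcen1 i (kk i) (hkk i)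
    obtain ⟨h1', h2', h3', h4'⟩ := hcen1 i (kk i + 1) hi
    have h4 := h4' (by omega)
    have hsA : ∀ r : Fin k, i.succAbove r ≠ i := fun r => Fin.succAbove_ne i r
    have hα : ∀ r : Fin k, -1 ≤ cen (i.succAbove r) (kk (i.succAbove r))
        - 2 ^ kk (i.succAbove r) * ρ := fun r => (hcen1 _ _ (hkk _)).2.1
    have hβ : ∀ r : Fin k, cen (i.succAbove r) (kk (i.succAbove r))
        + 2 ^ kk (i.succAbove r) * ρ ≤ 1 := fun r => (hcen1 _ _ (hkk _)).2.2.1
    have hαβ : ∀ r : Fin k, cen (i.succAbove r) (kk (i.succAbove r))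
        - 2 ^ kk (i.succAbove r) * ρ < cen (i.succAbove r) (kk (i.succAbove r))
        + 2 ^ kk (i.succAbove r) * ρ := fun r => by
      have : 0 < (2 : ℝ) ^ kk (i.succAbove r) * ρ := by positivity
      linarith
    obtain ⟨t, ht⟩ : ∃ t, t = (2 : ℝ) ^ kk i * ρ := ⟨_, rfl⟩
    have ht0 : 0 < t := by rw [ht]; positivity
    have ht2 : (2 : ℝ) ^ (kk i + 1) * ρ = 2 * t := by rw [ht, pow_succ]; ring
    have htρ : ρ ≤ t := by
      rw [ht]; nlinarith [one_le_pow₀ (one_le_two : (1 : ℝ) ≤ 2) (n := kk i)]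
    have hab1 := abs_le.1 h1
    have hab2 := abs_le.1 h1'
    rw [ht2] at hab2 h4 h2' h3'
    rw [← ht] at hab1 h2 h3
    have st := stage (fun j => z j i) (fun j r => z j (i.succAbove r)) (hpm i) (hxm i) N
      (cen i (kk i) - t) (cen i (kk i) + t) (cen i (kk i + 1) - 2 * t) (cen i (kk i + 1) + 2 * t)
      (by linarith) (by linarith) (by linarith) _ _ hα hαβ hβ
    have hpe := hprodeq kk i
    rw [← ht] at hpe
    rw [hpe] at st
    have e1 : avB z N (fun r => cen r (kk r) - 2 ^ kk r * ρ) (fun r => cen r (kk r) + 2 ^ kk r * ρ)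
        = av (fun j => z j i) (fun j r => z j (i.succAbove r)) N (cen i (kk i) - t)
          (cen i (kk i) + t)
          (fun r => cen (i.succAbove r) (kk (i.succAbove r)) - 2 ^ kk (i.succAbove r) * ρ)
          (fun r => cen (i.succAbove r) (kk (i.succAbove r)) + 2 ^ kk (i.succAbove r) * ρ) := by
      rw [avB_eq_av z N _ _ i, ← ht]
    have e2 : avB z N (fun r => cen r (Function.update kk i (kk i + 1) r)
          - 2 ^ (Function.update kk i (kk i + 1) r) * ρ)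
          (fun r => cen r (Function.update kk i (kk i + 1) r)
          + 2 ^ (Function.update kk i (kk i + 1) r) * ρ)
        = av (fun j => z j i) (fun j r => z j (i.succAbove r)) N (cen i (kk i + 1) - 2 * t)
          (cen i (kk i + 1) + 2 * t)
          (fun r => cen (i.succAbove r) (kk (i.succAbove r)) - 2 ^ kk (i.succAbove r) * ρ)
          (fun r => cen (i.succAbove r) (kk (i.succAbove r)) + 2 ^ kk (i.succAbove r) * ρ) := by
      rw [avB_eq_av z N _ _ i]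
      simp only [Function.update_self, Function.update_of_ne (hsA _)]
      rw [ht2]
    rw [e1, e2]
    have hP := hlam kk
    rw [← ht, le_div_iff₀ hP]
    have hX0 : 0 < (1 - c i) ^ 2 := by have := (hX i).1; positivity
    have h5 : (600 : ℝ) * (2 * t) ^ 2 * N / (1 - c i) ^ 2 = 2400 * (N * (t ^ 2 / (1 - c i) ^ 2)) := by
      ring
    rw [h5] at h4
    have h6 : (m : ℝ) ^ 2 ≤ m ^ 2 * (N * t) := by
      have : (1 : ℝ) ≤ N * t := hNρ.trans (mul_le_mul_of_nonneg_left htρ (by positivity))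
      nlinarith [sq_nonneg (m : ℝ)]
    have h7 : (N : ℝ) * t ≤ m ^ 2 * (N * t) := by
      have : 0 ≤ (N : ℝ) * t := by positivity
      nlinarith [one_le_pow₀ hm1 (n := 2)]
    have h8 : (N : ℝ) * (t ^ 2 / (1 - c i) ^ 2) ≤ m ^ 2 * (N * (t ^ 2 / (1 - c i) ^ 2)) := by
      have : 0 ≤ (N : ℝ) * (t ^ 2 / (1 - c i) ^ 2) := by positivity
      nlinarith [one_le_pow₀ hm1 (n := 2)]
    have h9 : 0 ≤ (m : ℝ) ^ 2 * (N * t) := by positivity
    have h10 : 0 ≤ (m : ℝ) ^ 2 * (N * (t ^ 2 / (1 - c i) ^ 2)) := by positivity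
    have h11 : (2 : ℝ) ^ k * Qa (fun j => z j i) (fun j r => z j (i.succAbove r))
        (cen i (kk i + 1) - 2 * t) (cen i (kk i + 1) + 2 * t) N
        ≤ 2 ^ k * (2 * (2000 * m ^ 2 * N * (t + t ^ 2 / (1 - c i) ^ 2))) := by
      apply mul_le_mul_of_nonneg_left _ (by positivity)
      nlinarith
    have h12 : (2 : ℝ) ^ k * (2 * (2000 * m ^ 2 * N * (t + t ^ 2 / (1 - c i) ^ 2)))
        = 2 ^ (k + 1) * (2000 * m ^ 2 * N * (t + t ^ 2 / (1 - c i) ^ 2)) := by ring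
    have h13 : (0 : ℝ) < 2 ^ (k + 1) := by positivity
    have h14 := st.trans (h11.trans h12.le)
    rw [mul_left_comm] at h14
    exact le_of_mul_le_mul_left h14 h13
  · have hα : ∀ r : Fin k, -1 ≤ cen ((0 : Fin (k + 1)).succAbove r) (K ((0 : Fin (k + 1)).succAbove r))
        - 2 ^ K ((0 : Fin (k + 1)).succAbove r) * ρ := fun r => (hcen1 _ _ le_rfl).2.1
    have hβ : ∀ r : Fin k, cen ((0 : Fin (k + 1)).succAbove r) (K ((0 : Fin (k + 1)).succAbove r))
        + 2 ^ K ((0 : Fin (k + 1)).succAbove r) * ρ ≤ 1 := fun r => (hcen1 _ _ le_rfl).2.2.1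
    have hαβ : ∀ r : Fin k, cen ((0 : Fin (k + 1)).succAbove r) (K ((0 : Fin (k + 1)).succAbove r))
        - 2 ^ K ((0 : Fin (k + 1)).succAbove r) * ρ
        < cen ((0 : Fin (k + 1)).succAbove r) (K ((0 : Fin (k + 1)).succAbove r))
        + 2 ^ K ((0 : Fin (k + 1)).succAbove r) * ρ := fun r => by
      have : 0 < (2 : ℝ) ^ K ((0 : Fin (k + 1)).succAbove r) * ρ := by positivity
      linarith
    have h0 : 0 < (2 : ℝ) ^ K 0 * ρ := by positivity
    have fn := final (fun j => z j 0) (fun j r => z j ((0 : Fin (k + 1)).succAbove r)) (hpm 0)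
      (hxm 0) N (cen 0 (K 0) - 2 ^ K 0 * ρ) (cen 0 (K 0) + 2 ^ K 0 * ρ)
      (hcen1 0 (K 0) le_rfl).2.1 (by linarith) (hcen1 0 (K 0) le_rfl).2.2.1 _ _ hα hαβ hβ
    rw [hprodeq K 0] at fn
    have e1 : avB z N (fun r => cen r (K r) - 2 ^ K r * ρ) (fun r => cen r (K r) + 2 ^ K r * ρ)
        = av (fun j => z j 0) (fun j r => z j ((0 : Fin (k + 1)).succAbove r)) N
          (cen 0 (K 0) - 2 ^ K 0 * ρ) (cen 0 (K 0) + 2 ^ K 0 * ρ)
          (fun r => cen ((0 : Fin (k + 1)).succAbove r) (K ((0 : Fin (k + 1)).succAbove r))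
            - 2 ^ K ((0 : Fin (k + 1)).succAbove r) * ρ)
          (fun r => cen ((0 : Fin (k + 1)).succAbove r) (K ((0 : Fin (k + 1)).succAbove r))
            + 2 ^ K ((0 : Fin (k + 1)).succAbove r) * ρ) := avB_eq_av z N _ _ 0
    rw [e1, le_div_iff₀ (hlam K)]
    have hE := E_le (link h 0) N hN
    rw [mul_left_comm] at fn
    have h13 : (0 : ℝ) < 2 ^ (k + 1) := by positivity
    have fn' := le_of_mul_le_mul_left fn h13
    refine fn'.trans (hE.trans ?_)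
    have h6 : (m : ℝ) ^ 2 ≤ m ^ 2 * N := by nlinarith [sq_nonneg (m : ℝ)]
    have h7 : (N : ℝ) ≤ m ^ 2 * N := by nlinarith [one_le_pow₀ hm1 (n := 2)]
    nlinarith

end Pool.Agent.H47.KZ
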