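import Mathlib

/-!
# Greedy L2 (Kritzinger) sequences in all dimensions: definitions  (helper47, MP_c285df_nt)

Dimension `d = k + 1`.  A coordinate is singled out: `p j` is that coordinate of the `j`-th point,
`x j : Fin k → ℝ` are the other coordinates.
-/

namespace Pool.Agent.H47.KZ

open Finset MeasureTheory

/-- odd extension (to `[-1,1]`) of the indicator of `(p, 1]`, `0 ≤ p` -/
noncomputable def s (p t : ℝ) : ℝ := (if p < t then 1 else 0) + (if -p < t then 1 else 0) - 1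

/-- one dimensional potential kernel `1 - max |t| p` (even in `t`) -/
noncomputable def kap (t p : ℝ) : ℝ := 1 - max |t| p

/-- average of `s p` over `[a,b]` -/
noncomputable def avs (a b p : ℝ) : ℝ := (∫ t in a..b, s p t) / (b - a)

/-- covariance on `[a,b]` -/
noncomputable def cov (a b : ℝ) (f g : ℝ → ℝ) : ℝ :=
  (∫ t in a..b, f t * g t) - (∫ t in a..b, f t) * (∫ t in a..b, g t) / (b - a)

/-- product kernel of the other coordinates -/
noncomputable def Kp {k : ℕ} (x y : Fin k → ℝ) : ℝ := ∏ r, (1 - max (x r) (y r))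

/-- its mean over `y` in the unit cube -/
noncomputable def hh {k : ℕ} (x : Fin k → ℝ) : ℝ := ∏ r, ((1 - x r ^ 2) / 2)

/-- the greedy functional (even extension in the first coordinate) -/
noncomputable def F {k : ℕ} (p : ℕ → ℝ) (x : ℕ → Fin k → ℝ) (n : ℕ) (t : ℝ) (y : Fin k → ℝ) : ℝ :=
  2 * ∑ j ∈ range n, kap t (p j) * Kp (x j) y + (1 - |t|) * ∏ r, (1 - y r)
    - (n + 1) * (1 - t ^ 2) * hh y

/-- the hypotheses used: points in `[0,1)^d`, and for `n ≥ m` the point `n` minimises `F n` over the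
closed cube (extended evenly in the first coordinate) -/
structure Gr {k : ℕ} (m : ℕ) (p : ℕ → ℝ) (x : ℕ → Fin k → ℝ) : Prop where
  pm : ∀ j, 0 ≤ p j ∧ p j < 1
  xm : ∀ j r, 0 ≤ x j r ∧ x j r < 1
  gr : ∀ n, m ≤ n → ∀ t : ℝ, -1 ≤ t → t ≤ 1 → ∀ y : Fin k → ℝ, (∀ r, 0 ≤ y r ∧ y r ≤ 1) →
    F p x n (p n) (x n) ≤ F p x n t y

/-- marginal (over `y`) of `F n` -/
noncomputable def Phi {k : ℕ} (p : ℕ → ℝ) (x : ℕ → Fin k → ℝ) (n : ℕ) (t : ℝ) : ℝ :=
  2 * ∑ j ∈ range n, kap t (p j) * hh (x j) + (1 - |t|) * (1 / 2) ^ k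
    - (n + 1) * (1 - t ^ 2) * (1 / 3) ^ k

/-- marginal potential -/
noncomputable def V {k : ℕ} (p : ℕ → ℝ) (x : ℕ → Fin k → ℝ) (n : ℕ) (t : ℝ) : ℝ :=
  2 * ∑ j ∈ range n, kap t (p j) * hh (x j) - n * (1 - t ^ 2) * (1 / 3) ^ k

/-- mean of `F n` over the unit cube -/
noncomputable def Fb {k : ℕ} (p : ℕ → ℝ) (x : ℕ → Fin k → ℝ) (n : ℕ) : ℝ :=
  2 * ∑ j ∈ range n, (1 - p j ^ 2) / 2 * hh (x j) + (1 / 2) ^ (k + 1)
    - 2 * (n + 1) * (1 / 3) ^ (k + 1)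

/-- drop `mean F - min F` at step `n` -/
noncomputable def mm {k : ℕ} (p : ℕ → ℝ) (x : ℕ → Fin k → ℝ) (n : ℕ) : ℝ :=
  Fb p x n - F p x n (p n) (x n)

/-- energy (squared L2 norm of the discrepancy function of the first `n` points) -/
noncomputable def E {k : ℕ} (p : ℕ → ℝ) (x : ℕ → Fin k → ℝ) (n : ℕ) : ℝ :=
  ∑ j ∈ range n, ∑ l ∈ range n, kap (p j) (p l) * Kp (x j) (x l)
    - 2 * n * ∑ j ∈ range n, (1 - p j ^ 2) / 2 * hh (x j) + n ^ 2 * (1 / 3) ^ (k + 1)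

/-- slab functional of the interval `[a,b]` -/
noncomputable def Qa {k : ℕ} (p : ℕ → ℝ) (x : ℕ → Fin k → ℝ) (a b : ℝ) (n : ℕ) : ℝ :=
  ∑ j ∈ range n, ∑ l ∈ range n, Kp (x j) (x l) * cov a b (s (p j)) (s (p l))
    - 2 * n * ∑ j ∈ range n, hh (x j) * cov a b (s (p j)) (fun t => t)
    + n ^ 2 * (1 / 3) ^ k * cov a b (fun t => t) (fun t => t)

/-- number of `q ∈ {p, -p}` in `[a,b]` -/
noncomputable def chi (a b p : ℝ) : ℝ :=
  (if a ≤ p ∧ p ≤ b then 1 else 0) + (if a ≤ -p ∧ -p ≤ b then 1 else 0)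

/-- average of the (oddly extended) discrepancy function over the box
`[a,b] × ∏ [α r, β r]` -/
noncomputable def av {k : ℕ} (p : ℕ → ℝ) (x : ℕ → Fin k → ℝ) (n : ℕ) (a b : ℝ)
    (α β : Fin k → ℝ) : ℝ :=
  ∑ j ∈ range n, avs a b (p j) * ∏ r, avs (α r) (β r) (x j r)
    - n * ((a + b) / 2) * ∏ r, ((α r + β r) / 2)

/-- the same for a box in `Fin d → ℝ` and a sequence of points -/
noncomputable def avB {d : ℕ} (z : ℕ → Fin d → ℝ) (n : ℕ) (α β : Fin d → ℝ) : ℝ :=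
  ∑ j ∈ range n, ∏ r, avs (α r) (β r) (z j r) - n * ∏ r, ((α r + β r) / 2)

/-- discrepancy function (counting) -/
noncomputable def D {d : ℕ} (z : ℕ → Fin d → ℝ) (n : ℕ) (q : Fin d → ℝ) : ℝ :=
  (((range n).filter (fun j => ∀ r, z j r < q r)).card : ℝ) - n * ∏ r, q r

/-- weight function -/
noncomputable def W (c w a : ℝ) : ℝ := (max 0 (1 - ((a - c) / w) ^ 2)) ^ 2

end Pool.Agent.H47.KZ
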