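import Pool.Agent.H47.KZ.Defs

/-!
MODULE Wl: the smooth weight (independent of everything else).

`W c w a = (max 0 (1 - ((a-c)/w)^2))^2`.  It is C^1 with derivative
`W' a = -4 (a-c)/w^2 * max 0 (1 - ((a-c)/w)^2)`, and `W'` is Lipschitz with constant `8 / w^2`.
Hence for `|h| ≤ τ`:
`|W(y-τ) + W(y+τ) - W(y-h) - W(y+h)| = |∫_{|h|}^τ (W'(y+u) - W'(y-u)) du| ≤ 8/w^2 (τ^2 - h^2)`.
Main statement:
`∫ W(a) [τ (V(a+τ)+V(a-τ)) - ∫_{a-τ}^{a+τ} V] da
   = ∫ W(a) ∫_{-τ}^{τ} [ (V(a+τ)+V(a-τ))/2 - V(a+h) ] dh da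
   = ∫_y V(y) κ(y) dy`,  `κ(y) = ∫_{-τ}^{τ} [(W(y-τ)+W(y+τ))/2 - W(y-h)] dh
   = 1/2 ∫_{-τ}^{τ} [W(y-τ)+W(y+τ) - W(y-h) - W(y+h)] dh`,
`|κ| ≤ (16/3) τ^3/w^2 ≤ 8 τ^3/w^2`, `κ = 0` outside `[c-w-τ, c+w+τ]`, `∫ κ = 0`
(so `V` may be replaced by `V - e`; or note directly that the left side does not change when a
constant is added to `V`).
-/

namespace Pool.Agent.H47.KZ

open Finset MeasureTheory

lemma W_nonneg (c w a : ℝ) : 0 ≤ W c w a := sq_nonneg _

lemma W_le_one (c w a : ℝ) : W c w a ≤ 1 := by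
  unfold W
  have h1 : 0 ≤ max 0 (1 - ((a - c) / w) ^ 2) := le_max_left _ _
  have h2 : max 0 (1 - ((a - c) / w) ^ 2) ≤ 1 :=
    max_le zero_le_one (by nlinarith [sq_nonneg ((a - c) / w)])
  exact pow_le_one₀ h1 h2

lemma W_continuous (c w : ℝ) : Continuous (W c w) := by
  unfold W
  fun_prop

lemma W_zero (c w a : ℝ) (hw : 0 < w) (h : w ≤ |a - c|) : W c w a = 0 := by
  unfold W
  have h1 : 1 ≤ ((a - c) / w) ^ 2 := by
    rw [div_pow, one_le_div (by positivity), ← sq_abs (a - c)]
    exact pow_le_pow_left₀ hw.le h 2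
  rw [max_eq_left (by linarith)]
  norm_num

lemma W_half (c w a : ℝ) (hw : 0 < w) (h : |a - c| ≤ w / 4) : 1 / 2 ≤ W c w a := by
  unfold W
  have h1 : ((a - c) / w) ^ 2 ≤ 1 / 16 := by
    rw [div_pow, div_le_iff₀ (by positivity), ← sq_abs (a - c)]
    calc |a - c| ^ 2 ≤ (w / 4) ^ 2 := pow_le_pow_left₀ (abs_nonneg _) h 2
      _ = 1 / 16 * w ^ 2 := by ring
  have h2 : 15 / 16 ≤ max 0 (1 - ((a - c) / w) ^ 2) := le_trans (by linarith) (le_max_right _ _)
  nlinarith

/-! ### the derivative of the weight -/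

private theorem pos_sq_deriv (x : ℝ) : HasDerivAt (fun x : ℝ => (max 0 x) ^ 2) (2 * max 0 x) x := by
  rcases lt_trichotomy x 0 with h | h | h
  · have e : (fun x : ℝ => (max 0 x) ^ 2) =ᶠ[nhds x] fun _ => (0 : ℝ) := by
      filter_upwards [Iio_mem_nhds h] with y hy
      rw [max_eq_left (le_of_lt hy)]
      norm_num
    rw [max_eq_left h.le, mul_zero]
    exact (hasDerivAt_const x (0 : ℝ)).congr_of_eventuallyEq e
  · subst h
    rw [max_self, mul_zero]
    have hsq : HasDerivAt (fun x : ℝ => x ^ 2) 0 0 := by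
      simpa using hasDerivAt_pow 2 (0 : ℝ)
    rw [hasDerivAt_iff_isLittleO] at hsq ⊢
    refine Asymptotics.IsBigO.trans_isLittleO ?_ hsq
    refine Asymptotics.IsBigO.of_bound 1 (Filter.Eventually.of_forall fun y => ?_)
    simp only [max_self, sub_zero, smul_eq_mul, mul_zero, Real.norm_eq_abs, one_mul, ne_eq,
      OfNat.ofNat_ne_zero, not_false_eq_true, zero_pow, abs_pow]
    exact pow_le_pow_left₀ (abs_nonneg _) (by
      rw [abs_of_nonneg (le_max_left _ _)]
      exact max_le (abs_nonneg _) (le_abs_self _)) 2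
  · have e : (fun x : ℝ => (max 0 x) ^ 2) =ᶠ[nhds x] fun y => y ^ 2 := by
      filter_upwards [Ioi_mem_nhds h] with y hy
      rw [max_eq_right (le_of_lt hy)]
    rw [max_eq_right h.le]
    have h1 : HasDerivAt (fun y : ℝ => y ^ 2) (2 * x) x := by
      simpa using hasDerivAt_pow 2 x
    exact h1.congr_of_eventuallyEq e

/-- the profile of the derivative -/
private noncomputable def q (x : ℝ) : ℝ := x * max 0 (1 - x ^ 2)

private theorem q_out {t : ℝ} (h : 1 ≤ t ^ 2) : q t = 0 := by
  unfold q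
  rw [max_eq_left (by linarith), mul_zero]

private theorem q_in {t : ℝ} (h1 : -1 ≤ t) (h2 : t ≤ 1) : q t = t - t ^ 3 := by
  unfold q
  have h : t ^ 2 ≤ 1 := by nlinarith
  rw [max_eq_right (by linarith)]
  ring

private theorem q_lip_le {x y : ℝ} (h : x ≤ y) : |q y - q x| ≤ 2 * (y - x) := by
  rcases le_total x (-1) with hx | hx
  · rw [q_out (by nlinarith : 1 ≤ x ^ 2), sub_zero]
    rcases le_total y (-1) with hy | hy
    · rw [q_out (by nlinarith : 1 ≤ y ^ 2), abs_zero]
      linarith
    · rcases le_total y 1 with hy2 | hy2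
      · rw [q_in hy hy2]
        have e : y - y ^ 3 = (y * (1 - y)) * (1 + y) := by ring
        rw [e, abs_mul, abs_of_nonneg (by linarith : 0 ≤ 1 + y)]
        have h3 : |y * (1 - y)| ≤ 2 := by
          rw [abs_le]
          constructor <;> nlinarith
        nlinarith
      · rw [q_out (by nlinarith : 1 ≤ y ^ 2), abs_zero]
        linarith
  · rcases le_total x 1 with hx2 | hx2
    · rw [q_in hx hx2]
      rcases le_total y 1 with hy | hy
      · rw [q_in (hx.trans h) hy]
        have e : y - y ^ 3 - (x - x ^ 3) = (y - x) * (1 - (x ^ 2 + x * y + y ^ 2)) := by ring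
        rw [e, abs_mul, abs_of_nonneg (by linarith : 0 ≤ y - x), mul_comm 2]
        refine mul_le_mul_of_nonneg_left ?_ (by linarith)
        rw [abs_le]
        constructor
        · nlinarith [mul_nonneg (by linarith : (0 : ℝ) ≤ 1 - x) (by linarith : (0 : ℝ) ≤ 1 + x),
            mul_nonneg (by linarith : (0 : ℝ) ≤ 1 - y) (by linarith : (0 : ℝ) ≤ 1 + y),
            sq_nonneg (x - y)]
        · nlinarith [sq_nonneg (x + y), sq_nonneg x, sq_nonneg y]
      · rw [q_out (by nlinarith : 1 ≤ y ^ 2), zero_sub, abs_neg]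
        have e : x - x ^ 3 = (x * (1 + x)) * (1 - x) := by ring
        rw [e, abs_mul, abs_of_nonneg (by linarith : 0 ≤ 1 - x)]
        have h3 : |x * (1 + x)| ≤ 2 := by
          rw [abs_le]
          constructor <;> nlinarith
        nlinarith
    · rw [q_out (by nlinarith : 1 ≤ x ^ 2), q_out (by nlinarith : 1 ≤ y ^ 2), sub_zero, abs_zero]
      linarith

/-- the derivative of the weight -/
private noncomputable def W1 (c w a : ℝ) : ℝ := -(4 / w) * q ((a - c) / w)

private theorem W_deriv (c w a : ℝ) : HasDerivAt (W c w) (W1 c w a) a := by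
  have h1 : HasDerivAt (fun a : ℝ => (a - c) / w) (1 / w) a :=
    ((hasDerivAt_id a).sub_const c).div_const w
  have h2 : HasDerivAt (fun a : ℝ => 1 - ((a - c) / w) ^ 2) (-(2 * ((a - c) / w) * (1 / w))) a := by
    have h3 := (h1.pow 2).const_sub 1
    simpa using h3
  have h4 := (pos_sq_deriv (1 - ((a - c) / w) ^ 2)).comp a h2
  have e : 2 * max 0 (1 - ((a - c) / w) ^ 2) * -(2 * ((a - c) / w) * (1 / w)) = W1 c w a := by
    unfold W1 q
    ring
  rw [e] at h4
  exact h4

private theorem W1_lip (c w : ℝ) (hw : 0 < w) {x y : ℝ} (h : x ≤ y) :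
    |W1 c w y - W1 c w x| ≤ 8 / w ^ 2 * (y - x) := by
  have h1 : (x - c) / w ≤ (y - c) / w := by gcongr
  have h2 := q_lip_le h1
  have e : W1 c w y - W1 c w x = -(4 / w) * (q ((y - c) / w) - q ((x - c) / w)) := by
    unfold W1
    ring
  rw [e, abs_mul, abs_neg, abs_of_pos (by positivity : 0 < 4 / w)]
  calc 4 / w * |q ((y - c) / w) - q ((x - c) / w)|
      ≤ 4 / w * (2 * ((y - c) / w - (x - c) / w)) := by gcongr
    _ = 8 / w ^ 2 * (y - x) := by
        field_simp
        ring

/-- second differences -/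
private theorem W_sd (c w y h τ : ℝ) (hw : 0 < w) (hh : 0 ≤ h) (hτ : h ≤ τ) :
    |W c w (y - τ) + W c w (y + τ) - W c w (y - h) - W c w (y + h)| ≤
      8 / w ^ 2 * (τ ^ 2 - h ^ 2) := by
  set K : ℝ := 8 / w ^ 2 with hK
  have hg : ∀ u : ℝ, HasDerivAt (fun u : ℝ => W c w (y - u) + W c w (y + u))
      (W1 c w (y + u) - W1 c w (y - u)) u := by
    intro u
    have h1 := (W_deriv c w (y - u)).comp u ((hasDerivAt_id u).const_sub y)
    have h2 := (W_deriv c w (y + u)).comp u ((hasDerivAt_id u).const_add y)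
    have h3 := h1.add h2
    have e : W1 c w (y - u) * -1 + W1 c w (y + u) * 1 = W1 c w (y + u) - W1 c w (y - u) := by ring
    rw [e] at h3
    exact h3
  have hq : ∀ u : ℝ, HasDerivAt (fun u : ℝ => K * u ^ 2) (2 * K * u) u := by
    intro u
    have h1 := (hasDerivAt_pow 2 u).const_mul K
    have e : K * (((2 : ℕ) : ℝ) * u ^ (2 - 1)) = 2 * K * u := by
      norm_num
      ring
    rw [e] at h1
    exact h1
  have hb : ∀ u : ℝ, 0 ≤ u → |W1 c w (y + u) - W1 c w (y - u)| ≤ 2 * K * u := by
    intro u hu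
    have h1 := W1_lip c w hw (by linarith : y - u ≤ y + u)
    calc _ ≤ 8 / w ^ 2 * (y + u - (y - u)) := h1
      _ = 2 * K * u := by rw [hK]; ring
  have m1 : MonotoneOn (fun u : ℝ => K * u ^ 2 - (W c w (y - u) + W c w (y + u))) (Set.Ici 0) := by
    refine monotoneOn_of_deriv_nonneg (convex_Ici 0)
      (fun u _ => ((hq u).sub (hg u)).continuousAt.continuousWithinAt)
      (fun u _ => ((hq u).sub (hg u)).differentiableAt.differentiableWithinAt) ?_
    intro u hu
    rw [interior_Ici] at hu
    have h1 : deriv (fun u : ℝ => K * u ^ 2 - (W c w (y - u) + W c w (y + u))) u =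
        2 * K * u - (W1 c w (y + u) - W1 c w (y - u)) := ((hq u).sub (hg u)).deriv
    rw [h1]
    have := (abs_le.1 (hb u (le_of_lt hu))).2
    linarith
  have m2 : MonotoneOn (fun u : ℝ => K * u ^ 2 + (W c w (y - u) + W c w (y + u))) (Set.Ici 0) := by
    refine monotoneOn_of_deriv_nonneg (convex_Ici 0)
      (fun u _ => ((hq u).add (hg u)).continuousAt.continuousWithinAt)
      (fun u _ => ((hq u).add (hg u)).differentiableAt.differentiableWithinAt) ?_
    intro u hu
    rw [interior_Ici] at hu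
    have h1 : deriv (fun u : ℝ => K * u ^ 2 + (W c w (y - u) + W c w (y + u))) u =
        2 * K * u + (W1 c w (y + u) - W1 c w (y - u)) := ((hq u).add (hg u)).deriv
    rw [h1]
    have := (abs_le.1 (hb u (le_of_lt hu))).1
    linarith
  have i1 := m1 (Set.mem_Ici.2 hh) (Set.mem_Ici.2 (hh.trans hτ)) hτ
  have i2 := m2 (Set.mem_Ici.2 hh) (Set.mem_Ici.2 (hh.trans hτ)) hτ
  simp only at i1 i2
  rw [abs_le]
  constructor
  · linarith
  · linarith

/-- integral of a function that vanishes outside the smaller interval -/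
private theorem int_ext {f : ℝ → ℝ} (hf : Continuous f) {a b A B : ℝ} (h1 : A ≤ a) (h2 : b ≤ B)
    (hl : ∀ x ≤ a, f x = 0) (hr : ∀ x, b ≤ x → f x = 0) :
    ∫ x in a..b, f x = ∫ x in A..B, f x := by
  have e1 : ∫ x in A..a, f x = 0 := by
    have : ∫ x in A..a, f x = ∫ x in A..a, (0 : ℝ) := by
      refine intervalIntegral.integral_congr fun x hx => ?_
      rw [Set.uIcc_of_le h1] at hx
      exact hl x hx.2
    rw [this, intervalIntegral.integral_zero]
  have e2 : ∫ x in b..B, f x = 0 := by
    have : ∫ x in b..B, f x = ∫ x in b..B, (0 : ℝ) := by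
      refine intervalIntegral.integral_congr fun x hx => ?_
      rw [Set.uIcc_of_le h2] at hx
      exact hr x hx.1
    rw [this, intervalIntegral.integral_zero]
  have s1 := intervalIntegral.integral_add_adjacent_intervals
    (hf.intervalIntegrable A a) (hf.intervalIntegrable (μ := volume) a b)
  have s2 := intervalIntegral.integral_add_adjacent_intervals
    (hf.intervalIntegrable A b) (hf.intervalIntegrable (μ := volume) b B)
  rw [← s2, ← s1, e1, e2]
  ring

/-- shift -/
private theorem int_shift (c w τ s : ℝ) (hw : 0 < w) (hs : |s| ≤ τ) (U : ℝ → ℝ)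
    (hU : Continuous U) :
    ∫ a in (c - w)..(c + w), W c w a * U (a + s) =
      ∫ y in (c - w - τ)..(c + w + τ), W c w (y - s) * U y := by
  obtain ⟨s1, s2⟩ := abs_le.1 hs
  have e : ∫ a in (c - w)..(c + w), W c w a * U (a + s) =
      ∫ y in (c - w + s)..(c + w + s), W c w (y - s) * U y := by
    have h := intervalIntegral.integral_comp_add_right (a := c - w) (b := c + w)
      (fun y => W c w (y - s) * U y) s
    simp only [add_sub_cancel_right] at h
    exact h
  rw [e]
  refine int_ext ?_ (by linarith) (by linarith) ?_ ?_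
  · exact ((W_continuous c w).comp (continuous_id.sub continuous_const)).mul hU
  · intro x hx
    rw [W_zero c w (x - s) hw, zero_mul]
    rw [abs_of_nonpos (by linarith)]
    linarith
  · intro x hx
    rw [W_zero c w (x - s) hw, zero_mul]
    rw [abs_of_nonneg (by linarith)]
    linarith

private theorem int4 {f1 f2 f3 f4 : ℝ → ℝ} (h1 : Continuous f1) (h2 : Continuous f2)
    (h3 : Continuous f3) (h4 : Continuous f4) (a b : ℝ) :
    ∫ x in a..b, (f1 x + f2 x - f3 x - f4 x) =
      (∫ x in a..b, f1 x) + (∫ x in a..b, f2 x) - (∫ x in a..b, f3 x) - (∫ x in a..b, f4 x) := by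
  rw [intervalIntegral.integral_sub (Continuous.intervalIntegrable
      (by fun_prop : Continuous fun x => f1 x + f2 x - f3 x) _ _) (h4.intervalIntegrable _ _),
    intervalIntegral.integral_sub (Continuous.intervalIntegrable
      (by fun_prop : Continuous fun x => f1 x + f2 x) _ _) (h3.intervalIntegrable _ _),
    intervalIntegral.integral_add (h1.intervalIntegrable _ _) (h2.intervalIntegrable _ _)]

private theorem inner_le (c w τ h : ℝ) (hw : 0 < w) (hh : 0 ≤ h) (hτ : h ≤ τ) (U : ℝ → ℝ)
    (hU : Continuous U) :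
    ∫ a in (c - w)..(c + w), W c w a * (U (a + τ) + U (a - τ) - U (a + h) - U (a - h)) ≤
      8 / w ^ 2 * (τ ^ 2 - h ^ 2) * ∫ y in (c - w - τ)..(c + w + τ), |U y| := by
  have hWc := W_continuous c w
  have cs : ∀ s : ℝ, Continuous fun a => W c w a * U (a + s) := fun s =>
    hWc.mul (hU.comp (continuous_id.add continuous_const))
  have ct : ∀ s : ℝ, Continuous fun y => W c w (y - s) * U y := fun s =>
    (hWc.comp (continuous_id.sub continuous_const)).mul hU
  have hτ0 : 0 ≤ τ := hh.trans hτ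
  have e1 : ∫ a in (c - w)..(c + w), W c w a * (U (a + τ) + U (a - τ) - U (a + h) - U (a - h)) =
      (∫ a in (c - w)..(c + w), W c w a * U (a + τ)) +
      (∫ a in (c - w)..(c + w), W c w a * U (a + -τ)) -
      (∫ a in (c - w)..(c + w), W c w a * U (a + h)) -
      (∫ a in (c - w)..(c + w), W c w a * U (a + -h)) := by
    rw [← int4 (cs τ) (cs (-τ)) (cs h) (cs (-h))]
    refine intervalIntegral.integral_congr fun a _ => ?_
    simp only [← sub_eq_add_neg]
    ring
  have e2 : ∫ y in (c - w - τ)..(c + w + τ),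
      (W c w (y - τ) + W c w (y + τ) - W c w (y - h) - W c w (y + h)) * U y =
      (∫ y in (c - w - τ)..(c + w + τ), W c w (y - τ) * U y) +
      (∫ y in (c - w - τ)..(c + w + τ), W c w (y - -τ) * U y) -
      (∫ y in (c - w - τ)..(c + w + τ), W c w (y - h) * U y) -
      (∫ y in (c - w - τ)..(c + w + τ), W c w (y - -h) * U y) := by
    rw [← int4 (ct τ) (ct (-τ)) (ct h) (ct (-h))]
    refine intervalIntegral.integral_congr fun a _ => ?_
    simp only [sub_neg_eq_add]
    ring
  rw [e1, int_shift c w τ τ hw (by rw [abs_of_nonneg hτ0]) U hU,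
    int_shift c w τ (-τ) hw (by rw [abs_neg, abs_of_nonneg hτ0]) U hU,
    int_shift c w τ h hw (by rwa [abs_of_nonneg hh]) U hU,
    int_shift c w τ (-h) hw (by rwa [abs_neg, abs_of_nonneg hh]) U hU, ← e2,
    ← intervalIntegral.integral_const_mul]
  refine intervalIntegral.integral_mono_on (by linarith) ?_ ?_ ?_
  · refine Continuous.intervalIntegrable ?_ _ _
    exact ((((hWc.comp (continuous_id.sub continuous_const)).add
      (hWc.comp (continuous_id.add continuous_const))).sub
      (hWc.comp (continuous_id.sub continuous_const))).sub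
      (hWc.comp (continuous_id.add continuous_const))).mul hU
  · exact (continuous_const.mul hU.abs).intervalIntegrable _ _
  · intro y _
    calc (W c w (y - τ) + W c w (y + τ) - W c w (y - h) - W c w (y + h)) * U y
        ≤ |(W c w (y - τ) + W c w (y + τ) - W c w (y - h) - W c w (y + h)) * U y| := le_abs_self _
      _ = |W c w (y - τ) + W c w (y + τ) - W c w (y - h) - W c w (y + h)| * |U y| := abs_mul _ _
      _ ≤ 8 / w ^ 2 * (τ ^ 2 - h ^ 2) * |U y| := by
          gcongr
          exact W_sd c w y h τ hw hh hτ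

private theorem sym_int (U : ℝ → ℝ) (hU : Continuous U) (a τ : ℝ) :
    τ * (U (a + τ) + U (a - τ)) - ∫ t in (a - τ)..(a + τ), U t =
      ∫ h in (0 : ℝ)..τ, (U (a + τ) + U (a - τ) - U (a + h) - U (a - h)) := by
  have c1 : Continuous fun h : ℝ => U (a + h) := hU.comp (continuous_const.add continuous_id)
  have c2 : Continuous fun h : ℝ => U (a - h) := hU.comp (continuous_const.sub continuous_id)
  have c0 : ∀ r : ℝ, Continuous fun _ : ℝ => r := fun r => continuous_const
  rw [int4 (c0 (U (a + τ))) (c0 (U (a - τ))) c1 c2, intervalIntegral.integral_const,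
    intervalIntegral.integral_const,
    intervalIntegral.integral_comp_add_left (fun t => U t) a,
    intervalIntegral.integral_comp_sub_left (fun t => U t) a, sub_zero, add_zero,
    ← intervalIntegral.integral_add_adjacent_intervals
      (hU.intervalIntegrable (μ := volume) (a - τ) a) (hU.intervalIntegrable a (a + τ)),
    smul_eq_mul, smul_eq_mul]
  ring_nf

theorem W_int (c w τ e : ℝ) (hτ : 0 < τ) (hτw : τ ≤ w) (V : ℝ → ℝ) (hV : Continuous V) :
    ∫ a in (c - w)..(c + w),
        W c w a * (τ * (V (a + τ) + V (a - τ)) - ∫ t in (a - τ)..(a + τ), V t)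
      ≤ 8 * τ ^ 3 / w ^ 2 * ∫ y in (c - w - τ)..(c + w + τ), |V y - e| := by
  have hw : 0 < w := hτ.trans_le hτw
  set U : ℝ → ℝ := fun y => V y - e with hUdef
  have hU : Continuous U := hV.sub continuous_const
  have hWc := W_continuous c w
  have hG : ∀ a : ℝ, τ * (V (a + τ) + V (a - τ)) - ∫ t in (a - τ)..(a + τ), V t =
      ∫ h in (0 : ℝ)..τ, (U (a + τ) + U (a - τ) - U (a + h) - U (a - h)) := by
    intro a
    rw [← sym_int U hU a τ]
    have e1 : ∫ t in (a - τ)..(a + τ), U t = (∫ t in (a - τ)..(a + τ), V t) - 2 * τ * e := by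
      simp only [hUdef]
      rw [intervalIntegral.integral_sub (hV.intervalIntegrable _ _)
        (continuous_const.intervalIntegrable _ _), intervalIntegral.integral_const, smul_eq_mul]
      ring
    rw [e1]
    simp only [hUdef]
    ring
  have hc2 : Continuous fun p : ℝ × ℝ =>
      W c w p.1 * (U (p.1 + τ) + U (p.1 - τ) - U (p.1 + p.2) - U (p.1 - p.2)) := by
    fun_prop
  have hcont : Continuous (Function.uncurry fun (a h : ℝ) =>
      W c w a * (U (a + τ) + U (a - τ) - U (a + h) - U (a - h))) := hc2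
  have hc3 : Continuous fun p : ℝ × ℝ =>
      W c w p.2 * (U (p.2 + τ) + U (p.2 - τ) - U (p.2 + p.1) - U (p.2 - p.1)) := by
    fun_prop
  have hcont' : Continuous (Function.uncurry fun (h a : ℝ) =>
      W c w a * (U (a + τ) + U (a - τ) - U (a + h) - U (a - h))) := hc3
  have e1 : ∫ a in (c - w)..(c + w),
        W c w a * (τ * (V (a + τ) + V (a - τ)) - ∫ t in (a - τ)..(a + τ), V t) =
      ∫ a in (c - w)..(c + w), ∫ h in (0 : ℝ)..τ,
        W c w a * (U (a + τ) + U (a - τ) - U (a + h) - U (a - h)) := by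
    refine intervalIntegral.integral_congr fun a _ => ?_
    show W c w a * _ = _
    rw [hG, intervalIntegral.integral_const_mul]
  have hint : IntegrableOn (Function.uncurry fun (a h : ℝ) =>
      W c w a * (U (a + τ) + U (a - τ) - U (a + h) - U (a - h)))
      (Set.uIoc (c - w) (c + w) ×ˢ Set.uIoc 0 τ) := by
    have hK : IsCompact (Set.Icc (c - w) (c + w) ×ˢ Set.Icc 0 τ) := isCompact_Icc.prod isCompact_Icc
    have h5 : IntegrableOn (Function.uncurry fun (a h : ℝ) =>
        W c w a * (U (a + τ) + U (a - τ) - U (a + h) - U (a - h)))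
        (Set.Icc (c - w) (c + w) ×ˢ Set.Icc 0 τ) := hcont.continuousOn.integrableOn_compact hK
    refine h5.mono_set ?_
    rw [Set.uIoc_of_le (by linarith), Set.uIoc_of_le hτ.le]
    exact Set.prod_mono Set.Ioc_subset_Icc_self Set.Ioc_subset_Icc_self
  rw [e1, intervalIntegral_intervalIntegral_swap hint]
  set I : ℝ := ∫ y in (c - w - τ)..(c + w + τ), |V y - e| with hI
  have hI0 : 0 ≤ I := intervalIntegral.integral_nonneg (by linarith) fun y _ => abs_nonneg _
  have h2 : ∫ h in (0 : ℝ)..τ, ∫ a in (c - w)..(c + w),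
        W c w a * (U (a + τ) + U (a - τ) - U (a + h) - U (a - h)) ≤
      ∫ h in (0 : ℝ)..τ, 8 / w ^ 2 * (τ ^ 2 - h ^ 2) * I := by
    refine intervalIntegral.integral_mono_on hτ.le ?_ ?_ ?_
    · exact (intervalIntegral.continuous_parametric_intervalIntegral_of_continuous' hcont' _
        _).intervalIntegrable _ _
    · exact Continuous.intervalIntegrable (by fun_prop) _ _
    · intro h hh
      exact inner_le c w τ h hw hh.1 hh.2 U hU
  refine h2.trans ?_
  have e3 : ∫ h in (0 : ℝ)..τ, 8 / w ^ 2 * (τ ^ 2 - h ^ 2) * I =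
      16 / 3 * τ ^ 3 / w ^ 2 * I := by
    rw [intervalIntegral.integral_mul_const, intervalIntegral.integral_const_mul,
      intervalIntegral.integral_sub (continuous_const.intervalIntegrable _ _)
        ((continuous_pow 2).intervalIntegrable _ _), intervalIntegral.integral_const,
      integral_pow]
    simp only [smul_eq_mul]
    push_cast
    ring
  rw [e3]
  refine mul_le_mul_of_nonneg_right ?_ hI0
  gcongr
  norm_num

end Pool.Agent.H47.KZ
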