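import Pool.Agent.H47.KZ.Growth
import Pool.Agent.H47.KZ.Energy
import Pool.Agent.H47.KZ.Wl
import Pool.Agent.H47.KZ.Stage

/-!
For every scale there is a good interval near `c`: average the growth inequality over the centre of
the interval with the weight `W`.
-/

namespace Pool.Agent.H47.KZ

open Finset MeasureTheory

/-- trapezoid error -/
private noncomputable def Bn {k : ℕ} (p : ℕ → ℝ) (x : ℕ → Fin k → ℝ) (τ : ℝ) (n : ℕ) (a : ℝ) : ℝ :=
  τ * (V p x n (a + τ) + V p x n (a - τ)) - ∫ t in (a - τ)..(a + τ), V p x n t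

private lemma Bn_continuous {k : ℕ} (p : ℕ → ℝ) (x : ℕ → Fin k → ℝ) (τ : ℝ) (n : ℕ) :
    Continuous (Bn p x τ n) := by
  have hV := V_continuous p x n
  have h1 : ∀ a b : ℝ, IntervalIntegrable (V p x n) volume a b := fun a b =>
    hV.intervalIntegrable a b
  have h2 : Continuous fun b => ∫ t in (0 : ℝ)..b, V p x n t :=
    intervalIntegral.continuous_primitive h1 0
  have h3 : ∀ a : ℝ, (∫ t in (a - τ)..(a + τ), V p x n t)
      = (∫ t in (0 : ℝ)..(a + τ), V p x n t) - ∫ t in (0 : ℝ)..(a - τ), V p x n t := by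
    intro a
    rw [intervalIntegral.integral_interval_sub_left (h1 _ _) (h1 _ _)]
  unfold Bn
  simp_rw [h3]
  have h4 : Continuous fun a : ℝ => ∫ t in (0 : ℝ)..(a + τ), V p x n t :=
    h2.comp (continuous_id.add continuous_const)
  have h5 : Continuous fun a : ℝ => ∫ t in (0 : ℝ)..(a - τ), V p x n t :=
    h2.comp (continuous_id.sub continuous_const)
  have h6 : Continuous fun a : ℝ => V p x n (a + τ) := hV.comp (continuous_id.add continuous_const)
  have h7 : Continuous fun a : ℝ => V p x n (a - τ) := hV.comp (continuous_id.sub continuous_const)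
  exact (continuous_const.mul (h6.add h7)).sub (h4.sub h5)

private lemma chi_eq (a τ q : ℝ) : chi (a - τ) (a + τ) q
    = (Set.Icc (q - τ) (q + τ)).indicator (fun _ => (1 : ℝ)) a
      + (Set.Icc (-q - τ) (-q + τ)).indicator (fun _ => (1 : ℝ)) a := by
  unfold chi
  simp only [Set.indicator_apply, Set.mem_Icc]
  congr 1
  · have : (a - τ ≤ q ∧ q ≤ a + τ) ↔ (q - τ ≤ a ∧ a ≤ q + τ) := by
      constructor <;> rintro ⟨h1, h2⟩ <;> constructor <;> linarith
    simp only [this]
  · have : (a - τ ≤ -q ∧ -q ≤ a + τ) ↔ (-q - τ ≤ a ∧ a ≤ -q + τ) := by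
      constructor <;> rintro ⟨h1, h2⟩ <;> constructor <;> linarith
    simp only [this]

private lemma ind_int (u v q τ : ℝ) (huv : u ≤ v) (hτ : 0 ≤ τ) :
    IntervalIntegrable ((Set.Icc (q - τ) (q + τ)).indicator (fun _ => (1 : ℝ))) volume u v
    ∧ ∫ a in u..v, (Set.Icc (q - τ) (q + τ)).indicator (fun _ => (1 : ℝ)) a ≤ 2 * τ := by
  have hint : Integrable ((Set.Icc (q - τ) (q + τ)).indicator (fun _ => (1 : ℝ))) volume := by
    rw [integrable_indicator_iff measurableSet_Icc]
    exact integrableOn_const (by simp) (by simp)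
  refine ⟨hint.intervalIntegrable, ?_⟩
  rw [intervalIntegral.integral_of_le huv]
  have h1 : ∫ a in Set.Ioc u v, (Set.Icc (q - τ) (q + τ)).indicator (fun _ => (1 : ℝ)) a
      ≤ ∫ a, (Set.Icc (q - τ) (q + τ)).indicator (fun _ => (1 : ℝ)) a := by
    apply setIntegral_le_integral hint
    exact Filter.Eventually.of_forall fun a => Set.indicator_nonneg (fun _ _ => zero_le_one) a
  refine h1.trans ?_
  rw [integral_indicator measurableSet_Icc]
  simp
  constructor <;> linarith

theorem good {k m : ℕ} {p : ℕ → ℝ} {x : ℕ → Fin k → ℝ} (G : Gr m p x) (N : ℕ) (hN : m ≤ N)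
    (c τ : ℝ) (hc : 0 ≤ c) (hc1 : c < 1) (hτ : 0 < τ) (hτ1 : τ ≤ (1 - c) / 2) :
    ∃ a : ℝ, |a - c| ≤ τ / 4 ∧ -1 ≤ a - τ ∧ a + τ ≤ 1 ∧
      Qa p x (a - τ) (a + τ) N
        ≤ 200 * m ^ 2 + 100 * τ * N + 600 * τ ^ 2 * N / (1 - c) ^ 2 := by
  obtain ⟨w, hw⟩ : ∃ w, w = (1 - c) / 2 := ⟨_, rfl⟩
  have hw0 : 0 < w := by rw [hw]; linarith
  have hw1 : w ≤ 1 / 2 := by rw [hw]; linarith
  rw [← hw] at hτ1
  have hcw : 1 - c = 2 * w := by rw [hw]; ring
  rcases Nat.eq_zero_or_pos N with rfl | hNpos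
  · have hm : m = 0 := by omega
    subst hm
    refine ⟨c, by simp; positivity, by linarith, by linarith, ?_⟩
    simp [Qa]
  by_contra hcon
  push Not at hcon
  obtain ⟨θ, hθ⟩ : ∃ θ, θ = 200 * (m : ℝ) ^ 2 + 100 * τ * N + 600 * τ ^ 2 * N / (1 - c) ^ 2 :=
    ⟨_, rfl⟩
  have hθ0 : 0 ≤ θ := by rw [hθ]; positivity
  have hQ : ∀ a : ℝ, |a - c| ≤ τ / 4 → θ < Qa p x (a - τ) (a + τ) N := by
    intro a ha
    rw [hθ]
    have := abs_le.1 ha
    exact hcon a ha (by linarith) (by linarith)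
  -- upper bound for Qa
  have hup : ∀ a : ℝ, c - w ≤ a → a ≤ c + w → ∀ M, m ≤ M →
      Qa p x (a - τ) (a + τ) M ≤ 16 * τ * m ^ 2 + ∑ n ∈ Ico m M,
        (5 * τ * chi (a - τ) (a + τ) (p n) + 8 * τ ^ 3 / 6 + Bn p x τ n a) := by
    intro a h1 h2 M hM
    induction M, hM using Nat.le_induction with
    | base =>
      have := Qa_le p x G.pm G.xm m (a - τ) (a + τ) (by linarith) (by linarith) (by linarith)
      simp only [Ico_self, sum_empty, add_zero]
      nlinarith [this]
    | succ M hM ih =>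
      rw [sum_Ico_succ_top hM]
      have := growth G M hM (a - τ) (a + τ) (by linarith) (by linarith) (by linarith)
      have e1 : (a + τ - (a - τ)) = 2 * τ := by ring
      rw [e1] at this
      have hBM : Bn p x τ M a = τ * (V p x M (a + τ) + V p x M (a - τ))
          - ∫ t in (a - τ)..(a + τ), V p x M t := rfl
      rw [hBM]
      linarith [this, ih]
  -- the right hand side
  obtain ⟨R, hR⟩ : ∃ R : ℝ → ℝ, R = fun a => 16 * τ * m ^ 2 + ∑ n ∈ Ico m N,
        (5 * τ * chi (a - τ) (a + τ) (p n) + 8 * τ ^ 3 / 6 + Bn p x τ n a) := ⟨_, rfl⟩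
  have hWi : ∀ u v, IntervalIntegrable (W c w) volume u v := fun u v =>
    (W_continuous c w).intervalIntegrable u v
  have hcwle : c - w ≤ c + w := by linarith
  have hchi_int : ∀ q, IntervalIntegrable (fun a => W c w a * chi (a - τ) (a + τ) q) volume
      (c - w) (c + w) := by
    intro q
    have h1 := (ind_int (c - w) (c + w) q τ hcwle hτ.le).1
    have h2 := (ind_int (c - w) (c + w) (-q) τ hcwle hτ.le).1
    have h3 := (h1.add h2).continuousOn_mul (W_continuous c w).continuousOn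
    refine h3.congr ?_
    intro a _
    simp only [chi_eq, Pi.add_apply]
  have hchi_le : ∀ q, ∫ a in (c - w)..(c + w), W c w a * chi (a - τ) (a + τ) q ≤ 4 * τ := by
    intro q
    have h1 := ind_int (c - w) (c + w) q τ hcwle hτ.le
    have h2 := ind_int (c - w) (c + w) (-q) τ hcwle hτ.le
    calc ∫ a in (c - w)..(c + w), W c w a * chi (a - τ) (a + τ) q
        ≤ ∫ a in (c - w)..(c + w), ((Set.Icc (q - τ) (q + τ)).indicator (fun _ => (1 : ℝ)) a
          + (Set.Icc (-q - τ) (-q + τ)).indicator (fun _ => (1 : ℝ)) a) := by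
          apply intervalIntegral.integral_mono_on hcwle (hchi_int q) (h1.1.add h2.1)
          intro a _
          rw [← chi_eq]
          have : 0 ≤ chi (a - τ) (a + τ) q := by
            unfold chi; positivity
          nlinarith [W_le_one c w a, W_nonneg c w a]
      _ = (∫ a in (c - w)..(c + w), (Set.Icc (q - τ) (q + τ)).indicator (fun _ => (1 : ℝ)) a)
          + ∫ a in (c - w)..(c + w), (Set.Icc (-q - τ) (-q + τ)).indicator (fun _ => (1 : ℝ)) a :=
          intervalIntegral.integral_add h1.1 h2.1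
      _ ≤ 4 * τ := by linarith [h1.2, h2.2]
  have hW1 : ∫ a in (c - w)..(c + w), W c w a ≤ 1 := by
    calc ∫ a in (c - w)..(c + w), W c w a ≤ ∫ a in (c - w)..(c + w), (1 : ℝ) := by
          apply intervalIntegral.integral_mono_on hcwle (hWi _ _) (by simp)
          intro a _
          exact W_le_one c w a
      _ = 2 * w := by simp; ring
      _ ≤ 1 := by linarith
  have hW0 : 0 ≤ ∫ a in (c - w)..(c + w), W c w a := by
    apply intervalIntegral.integral_nonneg hcwle
    intro a _; exact W_nonneg c w a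
  have hB_int : ∀ n, IntervalIntegrable (fun a => W c w a * Bn p x τ n a) volume
      (c - w) (c + w) := fun n =>
    ((W_continuous c w).mul (Bn_continuous p x τ n)).intervalIntegrable _ _
  have hB_le : ∀ n, m ≤ n → ∫ a in (c - w)..(c + w), W c w a * Bn p x τ n a
      ≤ 8 * τ ^ 3 / w ^ 2 * (2 * mm p x n + 2) := by
    intro n hn
    have h1 := W_int c w τ (F p x n (p n) (x n)) hτ hτ1 (V p x n) (V_continuous p x n)
    refine h1.trans ?_
    apply mul_le_mul_of_nonneg_left _ (by positivity)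
    have h2 := int_V_sub G n hn
    refine le_trans ?_ h2
    have hcont : Continuous fun t => |V p x n t - F p x n (p n) (x n)| :=
      ((V_continuous p x n).sub continuous_const).abs
    rw [intervalIntegral.integral_of_le (by linarith), intervalIntegral.integral_of_le (by norm_num)]
    apply setIntegral_mono_set
    · exact (hcont.integrableOn_Icc).mono_set Set.Ioc_subset_Icc_self
    · exact Filter.Eventually.of_forall fun t => abs_nonneg _
    · apply LE.le.eventuallyLE
      apply Set.Ioc_subset_Ioc <;> linarith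
  have hterm_int : ∀ n, IntervalIntegrable (fun a => W c w a *
      (5 * τ * chi (a - τ) (a + τ) (p n) + 8 * τ ^ 3 / 6 + Bn p x τ n a)) volume
      (c - w) (c + w) := by
    intro n
    have h1 := (hchi_int (p n)).const_mul (5 * τ)
    have h2 := (hWi (c - w) (c + w)).const_mul (8 * τ ^ 3 / 6)
    refine ((h1.add h2).add (hB_int n)).congr ?_
    intro a _
    simp only [Pi.add_apply]
    ring
  have hterm_le : ∀ n, m ≤ n → ∫ a in (c - w)..(c + w), W c w a *
      (5 * τ * chi (a - τ) (a + τ) (p n) + 8 * τ ^ 3 / 6 + Bn p x τ n a)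
      ≤ 20 * τ ^ 2 + 8 * τ ^ 3 / 6 + 8 * τ ^ 3 / w ^ 2 * (2 * mm p x n + 2) := by
    intro n hn
    have h1 := (hchi_int (p n)).const_mul (5 * τ)
    have h2 := (hWi (c - w) (c + w)).const_mul (8 * τ ^ 3 / 6)
    have e : ∫ a in (c - w)..(c + w), W c w a *
        (5 * τ * chi (a - τ) (a + τ) (p n) + 8 * τ ^ 3 / 6 + Bn p x τ n a)
        = 5 * τ * (∫ a in (c - w)..(c + w), W c w a * chi (a - τ) (a + τ) (p n))
          + 8 * τ ^ 3 / 6 * (∫ a in (c - w)..(c + w), W c w a)
          + ∫ a in (c - w)..(c + w), W c w a * Bn p x τ n a := by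
      rw [← intervalIntegral.integral_const_mul, ← intervalIntegral.integral_const_mul,
        ← intervalIntegral.integral_add h1 h2, ← intervalIntegral.integral_add (h1.add h2) (hB_int n)]
      apply intervalIntegral.integral_congr
      intro a _
      simp only
      ring
    rw [e]
    have h3 := hchi_le (p n)
    have h4 := hB_le n hn
    have h5 : 5 * τ * (∫ a in (c - w)..(c + w), W c w a * chi (a - τ) (a + τ) (p n))
        ≤ 5 * τ * (4 * τ) := mul_le_mul_of_nonneg_left h3 (by positivity)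
    have h6 : 8 * τ ^ 3 / 6 * (∫ a in (c - w)..(c + w), W c w a) ≤ 8 * τ ^ 3 / 6 * 1 :=
      mul_le_mul_of_nonneg_left hW1 (by positivity)
    nlinarith [h4, h5, h6]
  have hR_int : IntervalIntegrable (fun a => W c w a * R a) volume (c - w) (c + w) := by
    have h1 := (hWi (c - w) (c + w)).const_mul (16 * τ * m ^ 2)
    have h2 : IntervalIntegrable (∑ n ∈ Ico m N, fun a => W c w a *
      (5 * τ * chi (a - τ) (a + τ) (p n) + 8 * τ ^ 3 / 6 + Bn p x τ n a)) volume
      (c - w) (c + w) := IntervalIntegrable.sum _ fun n _ => hterm_int n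
    refine (h1.add h2).congr ?_
    intro a _
    simp only [hR, Pi.add_apply, Finset.sum_apply, mul_add, mul_sum]
    ring
  have hR_le : ∫ a in (c - w)..(c + w), W c w a * R a
      ≤ 16 * τ * m ^ 2 + ∑ n ∈ Ico m N,
        (20 * τ ^ 2 + 8 * τ ^ 3 / 6 + 8 * τ ^ 3 / w ^ 2 * (2 * mm p x n + 2)) := by
    have e : ∫ a in (c - w)..(c + w), W c w a * R a
        = 16 * τ * m ^ 2 * (∫ a in (c - w)..(c + w), W c w a)
          + ∑ n ∈ Ico m N, ∫ a in (c - w)..(c + w), W c w a *
      (5 * τ * chi (a - τ) (a + τ) (p n) + 8 * τ ^ 3 / 6 + Bn p x τ n a) := by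
      rw [← intervalIntegral.integral_const_mul,
        ← intervalIntegral.integral_finsetSum (fun n _ => hterm_int n),
        ← intervalIntegral.integral_add ((hWi _ _).const_mul _) ?_]
      · apply intervalIntegral.integral_congr
        intro a _
        simp only [hR, mul_add, mul_sum]
        ring
      · have := IntervalIntegrable.sum (Ico m N) fun n (_ : n ∈ Ico m N) => hterm_int n
        refine this.congr ?_
        intro a _
        simp only [Finset.sum_apply]
    rw [e]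
    have h1 : 16 * τ * m ^ 2 * (∫ a in (c - w)..(c + w), W c w a) ≤ 16 * τ * m ^ 2 * 1 :=
      mul_le_mul_of_nonneg_left hW1 (by positivity)
    have h2 : ∑ n ∈ Ico m N, ∫ a in (c - w)..(c + w), W c w a *
      (5 * τ * chi (a - τ) (a + τ) (p n) + 8 * τ ^ 3 / 6 + Bn p x τ n a)
      ≤ ∑ n ∈ Ico m N,
        (20 * τ ^ 2 + 8 * τ ^ 3 / 6 + 8 * τ ^ 3 / w ^ 2 * (2 * mm p x n + 2)) :=
      sum_le_sum fun n hn => hterm_le n (mem_Ico.1 hn).1
    linarith
  -- lower bound
  have hR_ge : θ / 2 * (τ / 2) ≤ ∫ a in (c - w)..(c + w), W c w a * R a := by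
    have hsub : ∀ a : ℝ, c - w ≤ a → a ≤ c + w →
        (Set.Icc (c - τ / 4) (c + τ / 4)).indicator (fun _ => θ / 2) a ≤ W c w a * R a := by
      intro a h1 h2
      have hq := hup a h1 h2 N hN
      have hRq : Qa p x (a - τ) (a + τ) N ≤ R a := by rw [hR]; exact hq
      by_cases hmem : a ∈ Set.Icc (c - τ / 4) (c + τ / 4)
      · rw [Set.indicator_of_mem hmem]
        have habs : |a - c| ≤ τ / 4 := by
          rw [abs_le]; constructor <;> linarith [hmem.1, hmem.2]
        have h3 := W_half c w a hw0 (habs.trans (by linarith))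
        have h4 := hQ a habs
        nlinarith
      · rw [Set.indicator_of_notMem hmem]
        have h3 := Qa_nonneg p x G.pm G.xm N (a - τ) (a + τ) (by linarith)
        exact mul_nonneg (W_nonneg c w a) (h3.trans hRq)
    have hi : Integrable ((Set.Icc (c - τ / 4) (c + τ / 4)).indicator (fun _ => θ / 2)) volume := by
      rw [integrable_indicator_iff measurableSet_Icc]
      exact integrableOn_const (by simp) (by simp)
    have h5 : ∫ a in (c - w)..(c + w), (Set.Icc (c - τ / 4) (c + τ / 4)).indicator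
        (fun _ => θ / 2) a = θ / 2 * (τ / 2) := by
      rw [intervalIntegral.integral_of_le hcwle, ← integral_Icc_eq_integral_Ioc,
        setIntegral_indicator measurableSet_Icc]
      have : Set.Icc (c - w) (c + w) ∩ Set.Icc (c - τ / 4) (c + τ / 4)
          = Set.Icc (c - τ / 4) (c + τ / 4) := by
        apply Set.inter_eq_right.2
        apply Set.Icc_subset_Icc <;> linarith
      rw [this]
      simp
      rw [max_eq_left (by linarith)]
      ring
    rw [← h5]
    apply intervalIntegral.integral_mono_on hcwle hi.intervalIntegrable hR_int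
    intro a ha
    exact hsub a ha.1 ha.2
  have hfinal := hR_ge.trans hR_le
  have hmm := sum_mm_le G N hN
  have hcard : ((Ico m N).card : ℝ) ≤ N := by
    rw [Nat.card_Ico]
    exact_mod_cast Nat.sub_le N m
  have hsum : ∑ n ∈ Ico m N,
        (20 * τ ^ 2 + 8 * τ ^ 3 / 6 + 8 * τ ^ 3 / w ^ 2 * (2 * mm p x n + 2))
      ≤ N * (20 * τ ^ 2 + 8 * τ ^ 3 / 6) + 8 * τ ^ 3 / w ^ 2 * (2 * (2 * m ^ 2 + N) + 2 * N) := by
    have e : ∑ n ∈ Ico m N,
        (20 * τ ^ 2 + 8 * τ ^ 3 / 6 + 8 * τ ^ 3 / w ^ 2 * (2 * mm p x n + 2))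
        = (Ico m N).card * (20 * τ ^ 2 + 8 * τ ^ 3 / 6)
          + 8 * τ ^ 3 / w ^ 2 * (2 * (∑ n ∈ Ico m N, mm p x n) + 2 * (Ico m N).card) := by
      simp only [sum_add_distrib, ← mul_sum, sum_const, nsmul_eq_mul, mul_add]
      ring
    rw [e]
    have h1 : ((Ico m N).card : ℝ) * (20 * τ ^ 2 + 8 * τ ^ 3 / 6)
        ≤ N * (20 * τ ^ 2 + 8 * τ ^ 3 / 6) := mul_le_mul_of_nonneg_right hcard (by positivity)
    have h2 : 8 * τ ^ 3 / w ^ 2 * (2 * (∑ n ∈ Ico m N, mm p x n) + 2 * (Ico m N).card)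
        ≤ 8 * τ ^ 3 / w ^ 2 * (2 * (2 * m ^ 2 + N) + 2 * N) := by
      apply mul_le_mul_of_nonneg_left _ (by positivity)
      linarith
    linarith
  have h1 : θ / 2 * (τ / 2) ≤ 16 * τ * m ^ 2 + (N * (20 * τ ^ 2 + 8 * τ ^ 3 / 6)
      + 8 * τ ^ 3 / w ^ 2 * (2 * (2 * m ^ 2 + N) + 2 * N)) := by linarith
  -- numeric contradiction
  have hNR : (1 : ℝ) ≤ N := by exact_mod_cast hNpos
  have hw2 : 0 < w ^ 2 := by positivity
  have hr : τ ^ 2 / w ^ 2 ≤ 1 := by
    rw [div_le_one hw2]
    exact pow_le_pow_left₀ hτ.le hτ1 2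
  have e1 : 8 * τ ^ 3 / w ^ 2 * (2 * (2 * (m : ℝ) ^ 2 + N) + 2 * N)
      = 32 * τ * (τ ^ 2 / w ^ 2) * m ^ 2 + 32 * τ * (τ ^ 2 / w ^ 2) * N := by
    field_simp; ring
  have e2 : θ = 200 * (m : ℝ) ^ 2 + 100 * τ * N + 150 * (τ ^ 2 / w ^ 2) * N := by
    rw [hθ, hcw]; field_simp; ring
  rw [e1, e2] at h1
  have h2 : 0 ≤ τ * (m : ℝ) ^ 2 * (1 - τ ^ 2 / w ^ 2) := by
    apply mul_nonneg (by positivity); linarith
  have h3 : τ ^ 3 ≤ τ ^ 2 * (1 / 2) := by nlinarith [sq_nonneg τ]
  have h4 : 0 < τ ^ 2 * (N : ℝ) := by positivity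
  have h5 : 0 ≤ τ * (τ ^ 2 / w ^ 2) * (N : ℝ) := by positivity
  have h6 : 0 ≤ τ * (m : ℝ) ^ 2 := by positivity
  have h7 : (N : ℝ) * τ ^ 3 ≤ N * (τ ^ 2 * (1 / 2)) := mul_le_mul_of_nonneg_left h3 (by positivity)
  nlinarith [h1, h2, h4, h5, h6, h7]

end Pool.Agent.H47.KZ
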