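import Pool.Agent.H47.KZ.OneD

/-!
MODULE Mono: the discrepancy at a point against box averages (algebra).
For `0 ≤ q`, `0 ≤ P`: on `t > 0`, `s P t = 1` if `P < t`, else `0`.  So
`avs q (q+ρ) P = 1` if `P < q` (even `P ≤ q`), and `0 ≤ avs q (q+ρ) P ≤ 1` always;
`avs (q-ρ) q P = 0` if `q ≤ P` (`ρ ≤ q`), and `0 ≤ avs (q-ρ) q P ≤ 1`.
(for the point `t = 0`: one point, irrelevant for the integral.)
Volumes: `∏ (q r + ρ/2) - ∏ q r ≤ d ρ/2` if `0 ≤ q r`, `q r + ρ/2 ≤ 1`; `∏ q r - ∏ (q r - ρ/2) ≤ d ρ/2`.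
-/

namespace Pool.Agent.H47.KZ

open Finset

private lemma avs_eq (a b P : ℝ) (ha : 0 ≤ a) (hab : a < b) (hP : 0 ≤ P) :
    avs a b P = (max b P - max a P) / (b - a) := by
  unfold avs
  rw [int_s P a b hP, kap, kap, abs_of_nonneg ha, abs_of_nonneg (ha.trans hab.le)]
  congr 1
  ring

private lemma avs_nonneg (a b P : ℝ) (ha : 0 ≤ a) (hab : a < b) (hP : 0 ≤ P) :
    0 ≤ avs a b P := by
  rw [avs_eq a b P ha hab hP]
  apply div_nonneg
  · have : max a P ≤ max b P := max_le_max hab.le le_rfl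
    linarith
  · linarith

private lemma avs_le_one (a b P : ℝ) (ha : 0 ≤ a) (hab : a < b) (hP : 0 ≤ P) :
    avs a b P ≤ 1 := by
  rw [avs_eq a b P ha hab hP, div_le_one (by linarith)]
  have h1 : max b P ≤ max a P + (b - a) := by
    apply max_le
    · have := le_max_left a P
      linarith
    · have := le_max_right a P
      linarith
  linarith

private lemma avs_one (a b P : ℝ) (ha : 0 ≤ a) (hab : a < b) (hP : 0 ≤ P) (h : P ≤ a) :
    avs a b P = 1 := by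
  rw [avs_eq a b P ha hab hP, max_eq_left h, max_eq_left (h.trans hab.le)]
  exact div_self (by linarith)

private lemma avs_zero (a b P : ℝ) (ha : 0 ≤ a) (hab : a < b) (hP : 0 ≤ P) (h : b ≤ P) :
    avs a b P = 0 := by
  rw [avs_eq a b P ha hab hP, max_eq_right h, max_eq_right (hab.le.trans h), sub_self, zero_div]

private lemma prod_sub_le {ι : Type*} (S : Finset ι) (a b : ι → ℝ) (h0 : ∀ r, 0 ≤ a r)
    (hab : ∀ r, a r ≤ b r) (h1 : ∀ r, b r ≤ 1) :
    ∏ r ∈ S, b r - ∏ r ∈ S, a r ≤ ∑ r ∈ S, (b r - a r) := by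
  classical
  induction S using Finset.induction_on with
  | empty => simp
  | insert i S hi ih =>
    rw [Finset.prod_insert hi, Finset.prod_insert hi, Finset.sum_insert hi]
    have hA0 : 0 ≤ ∏ r ∈ S, a r := Finset.prod_nonneg (fun r _ => h0 r)
    have hA1 : ∏ r ∈ S, a r ≤ 1 :=
      Finset.prod_le_one (fun r _ => h0 r) (fun r _ => (hab r).trans (h1 r))
    have hAB : ∏ r ∈ S, a r ≤ ∏ r ∈ S, b r :=
      Finset.prod_le_prod (fun r _ => h0 r) (fun r _ => hab r)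
    have hb0 : 0 ≤ b i := (h0 i).trans (hab i)
    have e : b i * ∏ r ∈ S, b r - a i * ∏ r ∈ S, a r
        = b i * (∏ r ∈ S, b r - ∏ r ∈ S, a r) + (b i - a i) * ∏ r ∈ S, a r := by ring
    rw [e]
    have e1 : b i * (∏ r ∈ S, b r - ∏ r ∈ S, a r) ≤ 1 * (∏ r ∈ S, b r - ∏ r ∈ S, a r) :=
      mul_le_mul_of_nonneg_right (h1 i) (by linarith)
    have e2 : (b i - a i) * ∏ r ∈ S, a r ≤ (b i - a i) * 1 :=
      mul_le_mul_of_nonneg_left hA1 (by linarith [hab i])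
    linarith

private lemma count_eq {d : ℕ} (z : ℕ → Fin d → ℝ) (n : ℕ) (q : Fin d → ℝ) :
    (((range n).filter (fun j => ∀ r, z j r < q r)).card : ℝ)
      = ∑ j ∈ range n, (if ∀ r, z j r < q r then (1 : ℝ) else 0) := by
  rw [Finset.card_filter]
  push_cast
  rfl

theorem D_le_av {d : ℕ} (z : ℕ → Fin d → ℝ) (hz : ∀ j r, 0 ≤ z j r ∧ z j r < 1) (n : ℕ)
    (q : Fin d → ℝ) (ρ : ℝ) (hρ : 0 < ρ) (hq : ∀ r, 0 ≤ q r) (hq1 : ∀ r, q r + ρ ≤ 1) :
    D z n q ≤ avB z n q (fun r => q r + ρ) + n * d * ρ := by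
  have hsum : ∑ j ∈ range n, (if ∀ r, z j r < q r then (1 : ℝ) else 0)
      ≤ ∑ j ∈ range n, ∏ r, avs (q r) (q r + ρ) (z j r) := by
    apply Finset.sum_le_sum
    intro j _
    split_ifs with h
    · apply le_of_eq
      symm
      apply Finset.prod_eq_one
      intro r _
      exact avs_one _ _ _ (hq r) (by linarith) (hz j r).1 (h r).le
    · exact Finset.prod_nonneg (fun r _ => avs_nonneg _ _ _ (hq r) (by linarith) (hz j r).1)
  have hvol := prod_sub_le (Finset.univ : Finset (Fin d)) q (fun r => (q r + (q r + ρ)) / 2) hq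
    (fun r => by show q r ≤ (q r + (q r + ρ)) / 2; linarith)
    (fun r => by
      show (q r + (q r + ρ)) / 2 ≤ 1
      have := hq1 r
      linarith)
  have hs : ∑ r : Fin d, ((q r + (q r + ρ)) / 2 - q r) = d * (ρ / 2) := by
    rw [Finset.sum_congr rfl (fun r _ => show (q r + (q r + ρ)) / 2 - q r = ρ / 2 by ring)]
    simp
  have hvol' : ∏ r, ((q r + (q r + ρ)) / 2) - ∏ r, q r ≤ d * (ρ / 2) := by
    rw [← hs]
    exact hvol
  have hn : (0 : ℝ) ≤ n := Nat.cast_nonneg n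
  have hd : (0 : ℝ) ≤ d := Nat.cast_nonneg d
  have hm := mul_le_mul_of_nonneg_left hvol' hn
  have hx : (0 : ℝ) ≤ n * (d * (ρ / 2)) := by positivity
  rw [D, avB, count_eq]
  have e1 : (n : ℝ) * (∏ r, ((q r + (q r + ρ)) / 2) - ∏ r, q r)
      = n * ∏ r, ((q r + (q r + ρ)) / 2) - n * ∏ r, q r := by ring
  rw [e1] at hm
  have e2 : (n : ℝ) * d * ρ = n * (d * (ρ / 2)) + n * (d * (ρ / 2)) := by ring
  rw [e2]
  linarith

theorem av_le_D {d : ℕ} (z : ℕ → Fin d → ℝ) (hz : ∀ j r, 0 ≤ z j r ∧ z j r < 1) (n : ℕ)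
    (q : Fin d → ℝ) (ρ : ℝ) (hρ : 0 < ρ) (hq : ∀ r, ρ ≤ q r) (hq1 : ∀ r, q r ≤ 1) :
    avB z n (fun r => q r - ρ) q - n * d * ρ ≤ D z n q := by
  have hsum : ∑ j ∈ range n, ∏ r, avs (q r - ρ) (q r) (z j r)
      ≤ ∑ j ∈ range n, (if ∀ r, z j r < q r then (1 : ℝ) else 0) := by
    apply Finset.sum_le_sum
    intro j _
    split_ifs with h
    · exact Finset.prod_le_one
        (fun r _ => avs_nonneg _ _ _ (by linarith [hq r]) (by linarith) (hz j r).1)
        (fun r _ => avs_le_one _ _ _ (by linarith [hq r]) (by linarith) (hz j r).1)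
    · push Not at h
      obtain ⟨r, hr⟩ := h
      apply le_of_eq
      apply Finset.prod_eq_zero (Finset.mem_univ r)
      exact avs_zero _ _ _ (by linarith [hq r]) (by linarith) (hz j r).1 hr
  have hvol := prod_sub_le (Finset.univ : Finset (Fin d)) (fun r => (q r - ρ + q r) / 2) q
    (fun r => by
      show 0 ≤ (q r - ρ + q r) / 2
      have := hq r
      linarith)
    (fun r => by show (q r - ρ + q r) / 2 ≤ q r; linarith) hq1
  have hs : ∑ r : Fin d, (q r - (q r - ρ + q r) / 2) = d * (ρ / 2) := by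
    rw [Finset.sum_congr rfl (fun r _ => show q r - (q r - ρ + q r) / 2 = ρ / 2 by ring)]
    simp
  have hvol' : ∏ r, q r - ∏ r, ((q r - ρ + q r) / 2) ≤ d * (ρ / 2) := by
    rw [← hs]
    exact hvol
  have hn : (0 : ℝ) ≤ n := Nat.cast_nonneg n
  have hd : (0 : ℝ) ≤ d := Nat.cast_nonneg d
  have hm := mul_le_mul_of_nonneg_left hvol' hn
  have hx : (0 : ℝ) ≤ n * (d * (ρ / 2)) := by positivity
  rw [D, avB, count_eq]
  have e1 : (n : ℝ) * (∏ r, q r - ∏ r, ((q r - ρ + q r) / 2))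
      = n * ∏ r, q r - n * ∏ r, ((q r - ρ + q r) / 2) := by ring
  rw [e1] at hm
  have e2 : (n : ℝ) * d * ρ = n * (d * (ρ / 2)) + n * (d * (ρ / 2)) := by ring
  rw [e2]
  linarith

theorem D_ge_small {d : ℕ} (z : ℕ → Fin d → ℝ) (n : ℕ) (q : Fin d → ℝ) (ρ : ℝ)
    (hq : ∀ r, 0 ≤ q r) (hq1 : ∀ r, q r ≤ 1) (r₀ : Fin d) (h : q r₀ ≤ ρ) :
    -(n * ρ) ≤ D z n q := by
  have hp : ∏ r, q r ≤ q r₀ := by
    rw [← Finset.mul_prod_erase Finset.univ q (Finset.mem_univ r₀)]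
    have h1 : ∏ r ∈ Finset.univ.erase r₀, q r ≤ 1 :=
      Finset.prod_le_one (fun r _ => hq r) (fun r _ => hq1 r)
    calc q r₀ * ∏ r ∈ Finset.univ.erase r₀, q r ≤ q r₀ * 1 :=
          mul_le_mul_of_nonneg_left h1 (hq r₀)
      _ = q r₀ := mul_one _
  have hn : (0 : ℝ) ≤ n := Nat.cast_nonneg n
  have hm : (n : ℝ) * ∏ r, q r ≤ n * ρ := mul_le_mul_of_nonneg_left (hp.trans h) hn
  have hc : (0 : ℝ) ≤ (((range n).filter (fun j => ∀ r, z j r < q r)).card : ℝ) :=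
    Nat.cast_nonneg _
  rw [D]
  linarith

end Pool.Agent.H47.KZ
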