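import Pool.Agent.H47.KZ.Defs

/-!
MODULE Red: reduction to points off a hyperbolic neighbourhood of the faces (finite combinatorics,
no integrals; independent of the other modules).

Coordinates `Fin (k+1)`; last coordinate `Fin.last k`, the others `r.castSucc`, `r : Fin k`.
For `ℓ ∈ {1..L}^k` (e.g. `Fintype.piFinset (fun _ => Icc 1 L)`) let
`I_ℓ = ∏_r [1 - 2^(1-ℓ r), 1 - 2^(-ℓ r))` and `θ_ℓ = 2^(-(L - |ℓ|))` if `|ℓ| < L`, else `θ_ℓ = 1`.
Block `B_ℓ = I_ℓ × [0, 1 - θ_ℓ)`.  The blocks are disjoint.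
For a box `{z < q}`:  `B_ℓ ∩ {z < q}` has counting measure minus `n` volume equal to an alternating
sum of `2^k` values `D z n η` with `η r = min (q r) (1 - 2^(-ℓ r))` or `min (q r) (1 - 2^(1-ℓ r))`
and `η last = min (q last) (1 - θ_ℓ)`: `Finset.prod_sub`/`prod_add` of
`1_{z < min(q, u')} - 1_{z < min(q,u)}`.  Each `η` has `∏ (1 - η r) ≥ ∏ 2^(-ℓ r) * θ_ℓ ≥ 2^(-L)` and
`η r < 1` if `θ_ℓ ≤ 1`... (if `|ℓ| ≥ L` the block is empty: skip it.)
So with `U = ⋃ B_ℓ`:  `|ν(U ∩ {z<q})| ≤ L^k 2^k M`.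
`vol(U^c) = 1 - ∑ 2^(-|ℓ|) (1 - θ_ℓ) = [1 - (1-2^(-L))^k] + ∑ 2^(-|ℓ|) θ_ℓ ≤ (k + L^k) 2^(-L)`.
`D(q) = ν({z<q} ∩ U) + ν({z<q} \ U)`; `ν({z<q} \ U) ≥ - n vol(U^c)`, and
`ν({z<q} \ U) ≤ #(U^c) = n - #U = - ν(U) + n vol(U^c) ≤ L^k 2^k M + n vol(U^c)` (`q = 1` above: all
points are in `[0,1)^d`).
-/

namespace Pool.Agent.H47.KZ

open Finset

/-- indicator of `t < a` -/
private noncomputable def ind (t a : ℝ) : ℝ := if t < a then 1 else 0

private theorem ind_nonneg (t a : ℝ) : 0 ≤ ind t a := by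
  unfold ind
  split_ifs <;> norm_num

private theorem ind_le_one (t a : ℝ) : ind t a ≤ 1 := by
  unfold ind
  split_ifs <;> norm_num

private theorem ind_min (t a b : ℝ) : ind t (min a b) = ind t a * ind t b := by
  unfold ind
  by_cases h1 : t < a <;> by_cases h2 : t < b <;> simp [h1, h2]

private theorem ind_mono (t : ℝ) {a b : ℝ} (h : a ≤ b) : ind t a ≤ ind t b := by
  unfold ind
  by_cases h1 : t < a
  · rw [if_pos h1, if_pos (lt_of_lt_of_le h1 h)]
  · rw [if_neg h1]
    split_ifs <;> norm_num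

/-- the dyadic end points -/
private noncomputable def up (l : ℕ) : ℝ := 1 - (1 / 2) ^ l

private theorem up_zero : up 0 = 0 := by
  unfold up
  norm_num

private theorem up_lt (l : ℕ) : up l < 1 := by
  unfold up
  have : (0 : ℝ) < (1 / 2) ^ l := by positivity
  linarith

private theorem up_sub (l : ℕ) : up (l + 1) - up l = (1 / 2) ^ (l + 1) := by
  unfold up
  rw [pow_succ]
  ring

private theorem up_le (l : ℕ) : up l ≤ up (l + 1) := by
  have h := up_sub l
  have : (0 : ℝ) < (1 / 2) ^ (l + 1) := by positivity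
  linarith

private theorem D_eq {d : ℕ} (z : ℕ → Fin d → ℝ) (n : ℕ) (q : Fin d → ℝ) :
    D z n q = (∑ j ∈ range n, ∏ r, ind (z j r) (q r)) - n * ∏ r, q r := by
  unfold D ind
  congr 1
  rw [Finset.card_filter]
  push_cast
  refine Finset.sum_congr rfl fun j _ => ?_
  rw [Fintype.prod_boole]
  split_ifs <;> rfl

private theorem prod_sub_ite {k : ℕ} (f g : Fin k → ℝ) : ∏ r, (f r - g r) =
    ∑ A ∈ (univ : Finset (Fin k)).powerset, (-1) ^ A.card * ∏ r, (if r ∈ A then g r else f r) := by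
  rw [Finset.prod_sub]
  refine Finset.sum_congr rfl fun A _ => ?_
  rw [Finset.prod_ite, Finset.filter_univ_mem, Finset.filter_notMem_eq_sdiff]
  ring

/-- the corner points of the blocks -/
private noncomputable def cor {k : ℕ} (a b : Fin k → ℝ) (c : ℝ) (A : Finset (Fin k)) :
    Fin (k + 1) → ℝ :=
  Fin.snoc (α := fun _ => ℝ) (fun r => if r ∈ A then b r else a r) c

private theorem cor_cast {k : ℕ} (a b : Fin k → ℝ) (c : ℝ) (A : Finset (Fin k)) (r : Fin k) :
    cor a b c A r.castSucc = if r ∈ A then b r else a r := by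
  simp [cor]

private theorem cor_last {k : ℕ} (a b : Fin k → ℝ) (c : ℝ) (A : Finset (Fin k)) :
    cor a b c A (Fin.last k) = c := by
  simp [cor]

private theorem block_eq {k : ℕ} (z : ℕ → Fin (k + 1) → ℝ) (n : ℕ) (a b : Fin k → ℝ) (c : ℝ) :
    (∑ j ∈ range n, (∏ r : Fin k, (ind (z j r.castSucc) (a r) - ind (z j r.castSucc) (b r))) *
      ind (z j (Fin.last k)) c) - n * ((∏ r, (a r - b r)) * c) =
    ∑ A ∈ (univ : Finset (Fin k)).powerset, (-1) ^ A.card * D z n (cor a b c A) := by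
  have h1 : ∀ A : Finset (Fin k), D z n (cor a b c A) =
      (∑ j ∈ range n, (∏ r : Fin k, (if r ∈ A then ind (z j r.castSucc) (b r)
        else ind (z j r.castSucc) (a r))) * ind (z j (Fin.last k)) c) -
        n * ((∏ r, (if r ∈ A then b r else a r)) * c) := by
    intro A
    rw [D_eq]
    congr 1
    · refine Finset.sum_congr rfl fun j _ => ?_
      rw [Fin.prod_univ_castSucc, cor_last]
      congr 1
      refine Finset.prod_congr rfl fun r _ => ?_
      rw [cor_cast]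
      split_ifs <;> rfl
    · rw [Fin.prod_univ_castSucc, cor_last]
      congr 2
      refine Finset.prod_congr rfl fun r _ => ?_
      rw [cor_cast]
  simp only [h1, mul_sub, Finset.sum_sub_distrib]
  congr 1
  · simp only [Finset.mul_sum]
    rw [Finset.sum_comm]
    refine Finset.sum_congr rfl fun j _ => ?_
    rw [prod_sub_ite, Finset.sum_mul]
    refine Finset.sum_congr rfl fun A _ => ?_
    ring
  · rw [prod_sub_ite, Finset.sum_mul, Finset.mul_sum]
    refine Finset.sum_congr rfl fun A _ => ?_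
    ring

private theorem block_le {k : ℕ} (z : ℕ → Fin (k + 1) → ℝ) (n : ℕ) (a b : Fin k → ℝ) (c M : ℝ)
    (h : ∀ A : Finset (Fin k), |D z n (cor a b c A)| ≤ M) :
    |(∑ j ∈ range n, (∏ r : Fin k, (ind (z j r.castSucc) (a r) - ind (z j r.castSucc) (b r))) *
      ind (z j (Fin.last k)) c) - n * ((∏ r, (a r - b r)) * c)| ≤ 2 ^ k * M := by
  rw [block_eq]
  refine (Finset.abs_sum_le_sum_abs _ _).trans ?_
  refine (Finset.sum_le_card_nsmul _ _ M fun A _ => ?_).trans ?_
  · rw [abs_mul, abs_pow, abs_neg, abs_one, one_pow, one_mul]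
    exact h A
  · rw [Finset.card_powerset, Finset.card_univ, Fintype.card_fin, nsmul_eq_mul]
    push_cast
    exact le_rfl

/-- the height of the block -/
private noncomputable def th {k : ℕ} (L : ℕ) (l : Fin k → ℕ) : ℝ :=
  if ∑ r, (l r + 1) ≤ L then (1 / 2) ^ (L - ∑ r, (l r + 1)) else 1

private theorem th_pos {k : ℕ} (L : ℕ) (l : Fin k → ℕ) : 0 < th L l := by
  unfold th
  split_ifs <;> positivity

private theorem th_le {k : ℕ} (L : ℕ) (l : Fin k → ℕ) : th L l ≤ 1 := by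
  unfold th
  split_ifs
  · exact pow_le_one₀ (by norm_num) (by norm_num)
  · exact le_rfl

private theorem th_mul {k : ℕ} (L : ℕ) (l : Fin k → ℕ) :
    (∏ r, (1 / 2 : ℝ) ^ (l r + 1)) * th L l ≤ (1 / 2) ^ L := by
  rw [Finset.prod_pow_eq_pow_sum]
  unfold th
  split_ifs with h
  · rw [← pow_add, Nat.add_sub_cancel' h]
  · rw [mul_one]
    exact pow_le_pow_of_le_one (by norm_num) (by norm_num) (le_of_lt (not_le.1 h))

/-- indicator of the block and of the box -/
private noncomputable def gg {k : ℕ} (L : ℕ) (q : Fin (k + 1) → ℝ) (l : Fin k → ℕ)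
    (z : Fin (k + 1) → ℝ) : ℝ :=
  (∏ r : Fin k, (ind (z r.castSucc) (min (q r.castSucc) (up (l r + 1))) -
    ind (z r.castSucc) (min (q r.castSucc) (up (l r))))) *
      ind (z (Fin.last k)) (min (q (Fin.last k)) (1 - th L l))

/-- volume of the block in the box -/
private noncomputable def vv {k : ℕ} (L : ℕ) (q : Fin (k + 1) → ℝ) (l : Fin k → ℕ) : ℝ :=
  (∏ r : Fin k, (min (q r.castSucc) (up (l r + 1)) - min (q r.castSucc) (up (l r)))) *
      min (q (Fin.last k)) (1 - th L l)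

private theorem block {k : ℕ} (z : ℕ → Fin (k + 1) → ℝ) (hz : ∀ j r, 0 ≤ z j r ∧ z j r < 1)
    (n L : ℕ) (M : ℝ)
    (hM : ∀ η : Fin (k + 1) → ℝ, (∀ r, 0 ≤ η r ∧ η r < 1) → (1 / 2 : ℝ) ^ L ≤ ∏ r, (1 - η r) →
      |D z n η| ≤ M) (hM0 : 0 ≤ M)
    (q : Fin (k + 1) → ℝ) (hq : ∀ r, 0 ≤ q r ∧ q r ≤ 1) (l : Fin k → ℕ) :
    |(∑ j ∈ range n, gg L q l (z j)) - n * vv L q l| ≤ 2 ^ k * M := by
  by_cases hs : ∑ r, (l r + 1) ≤ L
  · refine block_le z n (fun r => min (q r.castSucc) (up (l r + 1)))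
      (fun r => min (q r.castSucc) (up (l r))) (min (q (Fin.last k)) (1 - th L l)) M fun A => ?_
    have hup0 : ∀ m : ℕ, 0 ≤ up m := by
      intro m
      unfold up
      have : ((1 : ℝ) / 2) ^ m ≤ 1 := pow_le_one₀ (by norm_num) (by norm_num)
      linarith
    have h1 : ∀ r : Fin k, 0 ≤ cor (fun r => min (q r.castSucc) (up (l r + 1)))
        (fun r => min (q r.castSucc) (up (l r))) (min (q (Fin.last k)) (1 - th L l)) A r.castSucc ∧
        cor (fun r => min (q r.castSucc) (up (l r + 1)))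
        (fun r => min (q r.castSucc) (up (l r))) (min (q (Fin.last k)) (1 - th L l)) A r.castSucc ≤
          up (l r + 1) := by
      intro r
      rw [cor_cast]
      split_ifs
      · exact ⟨le_min (hq _).1 (hup0 _), (min_le_right _ _).trans (up_le _)⟩
      · exact ⟨le_min (hq _).1 (hup0 _), min_le_right _ _⟩
    have h2 : 0 ≤ cor (fun r => min (q r.castSucc) (up (l r + 1)))
        (fun r => min (q r.castSucc) (up (l r))) (min (q (Fin.last k)) (1 - th L l)) A
          (Fin.last k) ∧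
        cor (fun r => min (q r.castSucc) (up (l r + 1)))
        (fun r => min (q r.castSucc) (up (l r))) (min (q (Fin.last k)) (1 - th L l)) A
          (Fin.last k) ≤ 1 - th L l := by
      rw [cor_last]
      exact ⟨le_min (hq _).1 (by linarith [th_le L l]), min_le_right _ _⟩
    refine hM _ ?_ ?_
    · intro r
      refine Fin.lastCases ?_ (fun i => ?_) r
      · exact ⟨h2.1, by linarith [h2.2, th_pos L l]⟩
      · exact ⟨(h1 i).1, lt_of_le_of_lt (h1 i).2 (up_lt _)⟩
    · rw [Fin.prod_univ_castSucc]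
      have h3 : ∏ r, ((1 : ℝ) / 2) ^ (l r + 1) ≤ ∏ r : Fin k,
          (1 - cor (fun r => min (q r.castSucc) (up (l r + 1)))
            (fun r => min (q r.castSucc) (up (l r))) (min (q (Fin.last k)) (1 - th L l)) A
              r.castSucc) := by
        refine Finset.prod_le_prod (fun r _ => by positivity) fun r _ => ?_
        have h5 := (h1 r).2
        have h6 : up (l r + 1) = 1 - (1 / 2) ^ (l r + 1) := rfl
        linarith
      have h4 : (1 / 2 : ℝ) ^ L = (∏ r, ((1 : ℝ) / 2) ^ (l r + 1)) * th L l := by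
        rw [Finset.prod_pow_eq_pow_sum]
        unfold th
        rw [if_pos hs, ← pow_add, Nat.add_sub_cancel' hs]
      rw [h4]
      refine mul_le_mul h3 (by linarith [h2.2]) (th_pos L l).le ?_
      refine Finset.prod_nonneg fun r _ => ?_
      linarith [(h1 r).2, up_lt (l r + 1)]
  · have ht : th L l = 1 := by
      unfold th
      rw [if_neg hs]
    have h1 : min (q (Fin.last k)) (1 - th L l) = 0 := by
      rw [ht, sub_self]
      exact min_eq_right (hq _).1
    have h2 : ∀ j, gg L q l (z j) = 0 := by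
      intro j
      unfold gg
      rw [h1]
      have : ind (z j (Fin.last k)) 0 = 0 := by
        unfold ind
        rw [if_neg (not_lt.2 (hz j _).1)]
      rw [this, mul_zero]
    have h3 : vv L q l = 0 := by
      unfold vv
      rw [h1, mul_zero]
    rw [h3, Finset.sum_eq_zero (fun j _ => h2 j), mul_zero, sub_zero, abs_zero]
    positivity

/-- the index set of the blocks -/
private def ix (k L : ℕ) : Finset (Fin k → ℕ) := Fintype.piFinset fun _ => range L

private theorem card_ix (k L : ℕ) : ((ix k L).card : ℝ) = (L : ℝ) ^ k := by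
  unfold ix
  rw [Fintype.card_piFinset]
  simp

private theorem blocks {k : ℕ} (z : ℕ → Fin (k + 1) → ℝ) (hz : ∀ j r, 0 ≤ z j r ∧ z j r < 1)
    (n L : ℕ) (M : ℝ)
    (hM : ∀ η : Fin (k + 1) → ℝ, (∀ r, 0 ≤ η r ∧ η r < 1) → (1 / 2 : ℝ) ^ L ≤ ∏ r, (1 - η r) →
      |D z n η| ≤ M) (hM0 : 0 ≤ M)
    (q : Fin (k + 1) → ℝ) (hq : ∀ r, 0 ≤ q r ∧ q r ≤ 1) :
    |(∑ j ∈ range n, ∑ l ∈ ix k L, gg L q l (z j)) - n * ∑ l ∈ ix k L, vv L q l| ≤
      (2 * L) ^ k * M := by
  rw [Finset.sum_comm, Finset.mul_sum, ← Finset.sum_sub_distrib]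
  refine (Finset.abs_sum_le_sum_abs _ _).trans ?_
  refine (Finset.sum_le_card_nsmul _ _ (2 ^ k * M) fun l _ =>
    block z hz n L M hM hM0 q hq l).trans ?_
  rw [nsmul_eq_mul, card_ix, mul_pow]
  apply le_of_eq
  ring

/-- one dimensional block -/
private theorem b_nonneg (t : ℝ) (l : ℕ) : 0 ≤ ind t (up (l + 1)) - ind t (up l) := by
  linarith [ind_mono t (up_le l)]

private theorem b_sum {t : ℝ} (ht : 0 ≤ t) (L : ℕ) :
    ∑ l ∈ range L, (ind t (up (l + 1)) - ind t (up l)) ≤ 1 := by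
  rw [Finset.sum_range_sub (fun l => ind t (up l))]
  have h : ind t (up 0) = 0 := by
    rw [up_zero]
    unfold ind
    rw [if_neg (not_lt.2 ht)]
  rw [h, sub_zero]
  exact ind_le_one _ _

/-- indicator of the union of the blocks -/
private noncomputable def GG {k : ℕ} (L : ℕ) (z : Fin (k + 1) → ℝ) : ℝ :=
  ∑ l ∈ ix k L, (∏ r : Fin k, (ind (z r.castSucc) (up (l r + 1)) -
    ind (z r.castSucc) (up (l r)))) * ind (z (Fin.last k)) (1 - th L l)

private theorem GG_le {k : ℕ} (L : ℕ) (z : Fin (k + 1) → ℝ) (hz : ∀ r, 0 ≤ z r) :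
    GG L z ≤ 1 := by
  have h1 : GG L z ≤ ∑ l ∈ ix k L, ∏ r : Fin k, (ind (z r.castSucc) (up (l r + 1)) -
      ind (z r.castSucc) (up (l r))) := by
    refine Finset.sum_le_sum fun l _ => ?_
    refine mul_le_of_le_one_right ?_ (ind_le_one _ _)
    exact Finset.prod_nonneg fun r _ => b_nonneg _ _
  refine h1.trans ?_
  unfold ix
  rw [← Finset.prod_univ_sum (fun _ => range L) (fun (r : Fin k) (m : ℕ) =>
    ind (z r.castSucc) (up (m + 1)) - ind (z r.castSucc) (up m))]
  refine Finset.prod_le_one (fun r _ => ?_) fun r _ => b_sum (hz _) L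
  exact Finset.sum_nonneg fun m _ => b_nonneg _ _

private theorem gg_eq {k : ℕ} (L : ℕ) (q : Fin (k + 1) → ℝ) (l : Fin k → ℕ)
    (z : Fin (k + 1) → ℝ) : gg L q l z = (∏ r, ind (z r) (q r)) *
      ((∏ r : Fin k, (ind (z r.castSucc) (up (l r + 1)) - ind (z r.castSucc) (up (l r)))) *
        ind (z (Fin.last k)) (1 - th L l)) := by
  unfold gg
  simp only [ind_min, ← mul_sub]
  rw [Finset.prod_mul_distrib, Fin.prod_univ_castSucc]
  ring

private theorem sum_gg {k : ℕ} (L : ℕ) (q : Fin (k + 1) → ℝ) (z : Fin (k + 1) → ℝ) :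
    ∑ l ∈ ix k L, gg L q l z = (∏ r, ind (z r) (q r)) * GG L z := by
  unfold GG
  rw [Finset.mul_sum]
  exact Finset.sum_congr rfl fun l _ => gg_eq L q l z

/-- one dimensional volume -/
private theorem w_nonneg (q : ℝ) (l : ℕ) : 0 ≤ min q (up (l + 1)) - min q (up l) := by
  linarith [min_le_min_left q (up_le l)]

private theorem w_le (q : ℝ) (l : ℕ) :
    min q (up (l + 1)) - min q (up l) ≤ (1 / 2) ^ (l + 1) := by
  rw [← up_sub]
  have h := up_le l
  rcases le_total q (up l) with h1 | h1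
  · rw [min_eq_left h1, min_eq_left (h1.trans h)]
    linarith
  · rw [min_eq_right h1]
    linarith [min_le_right q (up (l + 1))]

private theorem w_sum {q : ℝ} (hq : 0 ≤ q) (L : ℕ) :
    ∑ l ∈ range L, (min q (up (l + 1)) - min q (up l)) = min q (up L) := by
  rw [Finset.sum_range_sub (fun l => min q (up l)), up_zero, min_eq_right hq, sub_zero]

private theorem sum_w {k : ℕ} (L : ℕ) (q : Fin (k + 1) → ℝ) (hq : ∀ r, 0 ≤ q r) :
    ∑ l ∈ ix k L, ∏ r : Fin k, (min (q r.castSucc) (up (l r + 1)) -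
      min (q r.castSucc) (up (l r))) = ∏ r : Fin k, min (q r.castSucc) (up L) := by
  unfold ix
  rw [← Finset.prod_univ_sum (fun _ => range L) (fun (r : Fin k) (m : ℕ) =>
    min (q r.castSucc) (up (m + 1)) - min (q r.castSucc) (up m))]
  exact Finset.prod_congr rfl fun r _ => w_sum (hq _) L

private theorem prod_close {ι : Type*} [DecidableEq ι] (s : Finset ι) (x y : ι → ℝ) (e : ℝ)
    (he : 0 ≤ e) (hx : ∀ i, x i ≤ 1) (hy : ∀ i, 0 ≤ y i) (hyx : ∀ i, y i ≤ x i)
    (hd : ∀ i, x i - y i ≤ e) : ∏ i ∈ s, x i - ∏ i ∈ s, y i ≤ s.card * e := by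
  induction s using Finset.induction with
  | empty => simp
  | insert a s ha ih =>
    rw [Finset.prod_insert ha, Finset.prod_insert ha, Finset.card_insert_of_notMem ha]
    push_cast
    have h1 : ∏ i ∈ s, y i ≤ ∏ i ∈ s, x i := Finset.prod_le_prod (fun i _ => hy i) fun i _ => hyx i
    have h2 : ∏ i ∈ s, y i ≤ 1 := Finset.prod_le_one (fun i _ => hy i) fun i _ => (hyx i).trans (hx i)
    have h3 : 0 ≤ ∏ i ∈ s, y i := Finset.prod_nonneg fun i _ => hy i
    have h4 : x a * (∏ i ∈ s, x i - ∏ i ∈ s, y i) ≤ ∏ i ∈ s, x i - ∏ i ∈ s, y i :=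
      mul_le_of_le_one_left (by linarith) (hx a)
    have h5 : (x a - y a) * ∏ i ∈ s, y i ≤ e := by
      calc (x a - y a) * ∏ i ∈ s, y i ≤ e * 1 :=
            mul_le_mul (hd a) h2 h3 he
        _ = e := mul_one e
    nlinarith [h4, h5, ih]

private theorem vv_le {k : ℕ} (L : ℕ) (q : Fin (k + 1) → ℝ) (hq : ∀ r, 0 ≤ q r ∧ q r ≤ 1) :
    ∑ l ∈ ix k L, vv L q l ≤ ∏ r, q r := by
  have h1 : ∑ l ∈ ix k L, vv L q l ≤ ∑ l ∈ ix k L, (∏ r : Fin k, (min (q r.castSucc)
      (up (l r + 1)) - min (q r.castSucc) (up (l r)))) * q (Fin.last k) := by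
    refine Finset.sum_le_sum fun l _ => ?_
    exact mul_le_mul_of_nonneg_left (min_le_left _ _)
      (Finset.prod_nonneg fun r _ => w_nonneg _ _)
  refine h1.trans ?_
  rw [← Finset.sum_mul, sum_w L q (fun r => (hq r).1), Fin.prod_univ_castSucc]
  refine mul_le_mul_of_nonneg_right ?_ (hq _).1
  refine Finset.prod_le_prod (fun r _ => ?_) fun r _ => min_le_left _ _
  refine le_min (hq _).1 ?_
  unfold up
  have : ((1 : ℝ) / 2) ^ L ≤ 1 := pow_le_one₀ (by norm_num) (by norm_num)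
  linarith

private theorem le_vv {k : ℕ} (L : ℕ) (q : Fin (k + 1) → ℝ) (hq : ∀ r, 0 ≤ q r ∧ q r ≤ 1) :
    ∏ r, q r - ∑ l ∈ ix k L, vv L q l ≤ ((L : ℝ) ^ k + k) * (1 / 2) ^ L := by
  have hup : 0 ≤ up L := by
    unfold up
    have : ((1 : ℝ) / 2) ^ L ≤ 1 := pow_le_one₀ (by norm_num) (by norm_num)
    linarith
  have h1 : ∀ l ∈ ix k L, (∏ r : Fin k, (min (q r.castSucc)
      (up (l r + 1)) - min (q r.castSucc) (up (l r)))) * q (Fin.last k) - (1 / 2) ^ L ≤
      vv L q l := by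
    intro l _
    have h2 : q (Fin.last k) - th L l ≤ min (q (Fin.last k)) (1 - th L l) :=
      le_min (by linarith [th_pos L l]) (by linarith [(hq (Fin.last k)).2])
    have h3 : 0 ≤ ∏ r : Fin k, (min (q r.castSucc) (up (l r + 1)) -
        min (q r.castSucc) (up (l r))) := Finset.prod_nonneg fun r _ => w_nonneg _ _
    have h4 : ∏ r : Fin k, (min (q r.castSucc) (up (l r + 1)) -
        min (q r.castSucc) (up (l r))) ≤ ∏ r, (1 / 2 : ℝ) ^ (l r + 1) :=
      Finset.prod_le_prod (fun r _ => w_nonneg _ _) fun r _ => w_le _ _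
    have h5 := mul_le_mul_of_nonneg_left h2 h3
    have h6 := mul_le_mul_of_nonneg_right h4 (th_pos L l).le
    have h7 := th_mul L l
    unfold vv
    linarith
  have h2 := Finset.sum_le_sum h1
  rw [Finset.sum_sub_distrib, Finset.sum_const, nsmul_eq_mul, card_ix, ← Finset.sum_mul,
    sum_w L q (fun r => (hq r).1)] at h2
  have h3 : ∏ r : Fin k, q r.castSucc - ∏ r : Fin k, min (q r.castSucc) (up L) ≤
      k * (1 / 2) ^ L := by
    have := prod_close (univ : Finset (Fin k)) (fun r => q r.castSucc)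
      (fun r => min (q r.castSucc) (up L)) ((1 / 2) ^ L) (by positivity) (fun r => (hq _).2)
      (fun r => le_min (hq _).1 hup) (fun r => min_le_left _ _) (fun r => by
        rcases le_total (q r.castSucc) (up L) with h | h
        · show q r.castSucc - min (q r.castSucc) (up L) ≤ _
          rw [min_eq_left h, sub_self]
          positivity
        · show q r.castSucc - min (q r.castSucc) (up L) ≤ _
          rw [min_eq_right h]
          unfold up
          linarith [(hq r.castSucc).2])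
    rw [Finset.card_univ, Fintype.card_fin] at this
    exact this
  rw [Fin.prod_univ_castSucc]
  have h4 : (∏ r : Fin k, q r.castSucc - ∏ r : Fin k, min (q r.castSucc) (up L)) *
      q (Fin.last k) ≤ k * (1 / 2) ^ L := by
    calc (∏ r : Fin k, q r.castSucc - ∏ r : Fin k, min (q r.castSucc) (up L)) *
          q (Fin.last k) ≤ (k * (1 / 2) ^ L) * 1 :=
          mul_le_mul h3 (hq _).2 (hq _).1 (by positivity)
      _ = k * (1 / 2) ^ L := mul_one _
  linarith

theorem red {k : ℕ} (z : ℕ → Fin (k + 1) → ℝ) (hz : ∀ j r, 0 ≤ z j r ∧ z j r < 1) (n L : ℕ)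
    (hL : 1 ≤ L) (M : ℝ)
    (hM : ∀ η : Fin (k + 1) → ℝ, (∀ r, 0 ≤ η r ∧ η r < 1) → (1 / 2 : ℝ) ^ L ≤ ∏ r, (1 - η r) →
      |D z n η| ≤ M)
    (q : Fin (k + 1) → ℝ) (hq : ∀ r, 0 ≤ q r ∧ q r ≤ 1) :
    |D z n q| ≤ 2 * (2 * L) ^ k * M + n * (L ^ k + k) * (1 / 2) ^ L := by
  have hM0 : 0 ≤ M := by
    refine (abs_nonneg _).trans (hM (fun _ => 0) (fun _ => ⟨le_rfl, one_pos⟩) ?_)
    simp only [sub_zero, Finset.prod_const_one]
    exact pow_le_one₀ (by norm_num) (by norm_num)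
  have hb := blocks z hz n L M hM hM0 q hq
  have hb1 := blocks z hz n L M hM hM0 (fun _ => 1) (fun _ => ⟨zero_le_one, le_rfl⟩)
  have hv := vv_le L q hq
  have hv2 := le_vv L q hq
  have hv3 := le_vv (k := k) L (fun _ => 1) (fun _ => ⟨zero_le_one, le_rfl⟩)
  rw [Finset.prod_const_one] at hv3
  have hg : ∀ j, ∑ l ∈ ix k L, gg L (fun _ => 1) l (z j) = GG L (z j) := by
    intro j
    rw [sum_gg]
    have : ∏ r, ind (z j r) 1 = 1 := by
      refine Finset.prod_eq_one fun r _ => ?_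
      unfold ind
      rw [if_pos (hz j r).2]
    rw [this, one_mul]
  simp only [hg] at hb1
  simp only [sum_gg] at hb
  have hP0 : ∀ j, 0 ≤ ∏ r, ind (z j r) (q r) := fun j => Finset.prod_nonneg fun r _ => ind_nonneg _ _
  have hP1 : ∀ j, ∏ r, ind (z j r) (q r) ≤ 1 := fun j =>
    Finset.prod_le_one (fun r _ => ind_nonneg _ _) fun r _ => ind_le_one _ _
  have hG : ∀ j, GG L (z j) ≤ 1 := fun j => GG_le L (z j) fun r => (hz j r).1
  have hlow : ∑ j ∈ range n, (∏ r, ind (z j r) (q r)) * GG L (z j) ≤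
      ∑ j ∈ range n, ∏ r, ind (z j r) (q r) :=
    Finset.sum_le_sum fun j _ => mul_le_of_le_one_right (hP0 j) (hG j)
  have hupp : ∑ j ∈ range n, ∏ r, ind (z j r) (q r) -
      ∑ j ∈ range n, (∏ r, ind (z j r) (q r)) * GG L (z j) ≤ n - ∑ j ∈ range n, GG L (z j) := by
    have h1 : ∀ j ∈ range n, ∏ r, ind (z j r) (q r) - (∏ r, ind (z j r) (q r)) * GG L (z j) ≤
        1 - GG L (z j) := by
      intro j _
      nlinarith [hP0 j, hP1 j, hG j]
    have h2 := Finset.sum_le_sum h1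
    rw [Finset.sum_sub_distrib, Finset.sum_sub_distrib, Finset.sum_const, Finset.card_range,
      nsmul_eq_mul, mul_one] at h2
    exact h2
  rw [D_eq]
  have hb' := abs_le.1 hb
  have hb1' := abs_le.1 hb1
  have hn : (0 : ℝ) ≤ n := Nat.cast_nonneg n
  have h1 := mul_le_mul_of_nonneg_left hv hn
  have h2 := mul_le_mul_of_nonneg_left hv2 hn
  have h3 := mul_le_mul_of_nonneg_left hv3 hn
  have hLM : 0 ≤ (2 * (L : ℝ)) ^ k * M := by positivity
  have e1 : 2 * (2 * (L : ℝ)) ^ k * M = (2 * (L : ℝ)) ^ k * M + (2 * (L : ℝ)) ^ k * M := by ring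
  have e2 : (n : ℝ) * ((L : ℝ) ^ k + k) * (1 / 2) ^ L = n * (((L : ℝ) ^ k + k) * (1 / 2) ^ L) := by
    ring
  rw [e1, e2, abs_le]
  constructor
  · linarith [hb'.1, hb'.2]
  · linarith [hb'.1, hb'.2, hb1'.1, hb1'.2]

end Pool.Agent.H47.KZ
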