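import Pool.Agent.H47.KZ.Box
import Pool.Agent.H47.KZ.Mono
import Pool.Agent.H47.KZ.Red

/-!
MODULE Main: final assembly.
-/

namespace Pool.Agent.H47.KZ

open Finset

/-- bound for the box averages, `T = 2 ^ L`, `ρ = 1 / (8 T)` -/
private theorem box' {k m : ℕ} (hk : 1 ≤ k) {z : ℕ → Fin (k + 1) → ℝ}
    (h : IsKritzinger (k + 1) m z) (N L : ℕ) (hN : m ≤ N) (hL : 2 ≤ L)
    (hT : ((2 : ℝ) ^ L) ^ (k + 2) ≤ N)
    (c : Fin (k + 1) → ℝ) (hc : ∀ r, 0 ≤ c r) (hc1 : ∀ r, 1 / (8 * 2 ^ L) ≤ (1 - c r) / 2)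
    (hprod : (1 / 2) ^ (k + 1) * (1 / (8 * 2 ^ L)) ≤ ∏ r, (1 - c r)) :
    |avB z N (fun r => c r - 1 / (8 * 2 ^ L)) (fun r => c r + 1 / (8 * 2 ^ L))|
      ≤ ((k + 1) * (L + 3) + 1)
        * (Real.sqrt ((1 + 4 ^ (k + 1) / (1 / 2) ^ (k + 1)) * (2000 * m ^ 2) * 8 ^ k) * N / 2 ^ L) := by
  have hT1 : (4 : ℝ) ≤ 2 ^ L := by
    calc (4 : ℝ) = 2 ^ 2 := by norm_num
      _ ≤ 2 ^ L := pow_le_pow_right₀ (by norm_num) hL
  set T : ℝ := 2 ^ L with hTdef
  have hT0 : 0 < T := by linarith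
  have hNT : 16 * T ≤ N := by
    refine le_trans ?_ hT
    have h1 : T ^ 3 ≤ T ^ (k + 2) := pow_le_pow_right₀ (by linarith) (by omega)
    have h2 : 16 * T ≤ T ^ 3 := by
      have : 16 ≤ T ^ 2 := by nlinarith
      nlinarith
    linarith
  have hN0 : (0 : ℝ) < N := by linarith
  have hb := box hk h N hN ((1 / 2) ^ (k + 1)) (1 / (8 * T)) (by positivity) (by positivity)
    (by rw [mul_one_div, le_div_iff₀ (by positivity)]; linarith) c hc hc1 hprod
  refine hb.trans ?_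
  have hlog : Real.logb 2 (1 / (1 / (8 * T))) = L + 3 := by
    rw [one_div_one_div, hTdef]
    have : (8 : ℝ) * 2 ^ L = 2 ^ ((L + 3 : ℕ) : ℝ) := by
      rw [Real.rpow_natCast, pow_add]; norm_num [mul_comm]
    rw [this, Real.logb_rpow (by norm_num) (by norm_num)]
    push_cast
    ring
  rw [hlog]
  apply mul_le_mul_of_nonneg_left _ (by positivity)
  have hA : (0 : ℝ) ≤ (1 + 4 ^ (k + 1) / (1 / 2) ^ (k + 1)) * (2000 * m ^ 2) := by positivity
  have h1 : (1 + 4 ^ (k + 1) / (1 / 2) ^ (k + 1)) * (2000 * (m : ℝ) ^ 2 * N) / (1 / (8 * T)) ^ k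
      ≤ ((1 + 4 ^ (k + 1) / (1 / 2) ^ (k + 1)) * (2000 * m ^ 2) * 8 ^ k) * (N / T) ^ 2 := by
    have e1 : (1 + 4 ^ (k + 1) / (1 / 2) ^ (k + 1)) * (2000 * (m : ℝ) ^ 2 * N) / (1 / (8 * T)) ^ k
        = ((1 + 4 ^ (k + 1) / (1 / 2) ^ (k + 1)) * (2000 * m ^ 2) * 8 ^ k) * (N * T ^ k) := by
      have e0 : (1 / (8 * T)) ^ k = ((8 * T) ^ k)⁻¹ := by rw [one_div, inv_pow]
      rw [e0, div_inv_eq_mul, mul_pow]
      ring
    rw [e1]
    apply mul_le_mul_of_nonneg_left _ (by positivity)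
    rw [div_pow, le_div_iff₀ (by positivity)]
    have e2 : (N : ℝ) * T ^ k * T ^ 2 = N * T ^ (k + 2) := by rw [pow_add]; ring
    rw [e2, sq]
    exact mul_le_mul_of_nonneg_left hT hN0.le
  refine (Real.sqrt_le_sqrt h1).trans (le_of_eq ?_)
  rw [Real.sqrt_mul (by positivity), Real.sqrt_sq (by positivity), mul_div_assoc]

private theorem core (k m : ℕ) (hk : 1 ≤ k) : ∃ C : ℝ, 0 ≤ C ∧ ∀ z : ℕ → Fin (k + 1) → ℝ,
      IsKritzinger (k + 1) m z → ∀ N L : ℕ, m ≤ N → 2 ≤ L →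
      ((2 : ℝ) ^ L) ^ (k + 2) ≤ N → ∀ q : Fin (k + 1) → ℝ, (∀ r, 0 ≤ q r ∧ q r ≤ 1) →
      |D z N q| ≤ C * (L + 4) ^ (k + 1) * N / 2 ^ L := by
  obtain ⟨A, hAdef⟩ : ∃ A, A = Real.sqrt
    ((1 + 4 ^ (k + 1) / (1 / 2) ^ (k + 1)) * (2000 * (m : ℝ) ^ 2) * 8 ^ k) := ⟨_, rfl⟩
  have hA0 : 0 ≤ A := by rw [hAdef]; exact Real.sqrt_nonneg _
  obtain ⟨B, hBdef⟩ : ∃ B, B = (k + 1 : ℝ) * (A + 1) := ⟨_, rfl⟩
  have hB0 : 0 ≤ B := by rw [hBdef]; positivity
  refine ⟨2 * 2 ^ k * B + (1 + k), by positivity, ?_⟩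
  intro z h N L hN hL hT q hq
  have hz : ∀ j r, 0 ≤ z j r ∧ z j r < 1 := fun j r => h.mem j r
  have hT1 : (4 : ℝ) ≤ 2 ^ L := by
    calc (4 : ℝ) = 2 ^ 2 := by norm_num
      _ ≤ 2 ^ L := pow_le_pow_right₀ (by norm_num) hL
  obtain ⟨T, hTdef⟩ : ∃ T : ℝ, T = 2 ^ L := ⟨_, rfl⟩
  have hT0 : 0 < T := by rw [hTdef]; positivity
  obtain ⟨ρ, hρdef⟩ : ∃ ρ : ℝ, ρ = 1 / (8 * T) := ⟨_, rfl⟩
  have hρ0 : 0 < ρ := by rw [hρdef]; positivity
  have hρT : 8 * ρ = (1 / 2) ^ L := by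
    rw [hρdef, hTdef, one_div_pow]
    field_simp
  have hNR : (0 : ℝ) ≤ N := Nat.cast_nonneg N
  -- the bound on good points
  have hM : ∀ η : Fin (k + 1) → ℝ, (∀ r, 0 ≤ η r ∧ η r < 1) →
      (1 / 2 : ℝ) ^ L ≤ ∏ r, (1 - η r) → |D z N η| ≤ B * (L + 4) * N / T := by
    intro η hη hp
    have hbound : ((k + 1 : ℝ) * (L + 3) + 1) * (A * N / T) + N * (k + 1) * (2 * ρ)
        ≤ B * (L + 4) * N / T := by
      have e : N * (k + 1) * (2 * ρ) = (k + 1) / 4 * (N / T) := by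
        rw [hρdef]; field_simp; ring
      rw [e]
      have e2 : ((k + 1 : ℝ) * (L + 3) + 1) * (A * N / T) = ((k + 1 : ℝ) * (L + 3) + 1) * A * (N / T) := by
        ring
      have e3 : B * (L + 4) * N / T = B * (L + 4) * (N / T) := by ring
      rw [e2, e3, ← add_mul]
      apply mul_le_mul_of_nonneg_right _ (by positivity)
      rw [hBdef]
      have hk0 : (0 : ℝ) ≤ k := Nat.cast_nonneg k
      have hL0 : (0 : ℝ) ≤ L := Nat.cast_nonneg L
      nlinarith [mul_nonneg hk0 hA0, mul_nonneg hk0 hL0, mul_nonneg (mul_nonneg hk0 hA0) hL0]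
    have hη1 : ∀ r, 8 * ρ ≤ 1 - η r := by
      intro r
      rw [hρT]
      refine hp.trans ?_
      rw [← Finset.mul_prod_erase Finset.univ _ (Finset.mem_univ r)]
      have h1 : ∏ s ∈ Finset.univ.erase r, (1 - η s) ≤ 1 :=
        Finset.prod_le_one (fun s _ => by linarith [(hη s).2]) (fun s _ => by linarith [(hη s).1])
      nlinarith [(hη r).2]
    have hprodc : ∀ c : Fin (k + 1) → ℝ, (∀ r, (1 - η r) / 2 ≤ 1 - c r) →
        (1 / 2) ^ (k + 1) * (1 / (8 * 2 ^ L)) ≤ ∏ r, (1 - c r) := by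
      intro c hc
      have h1 : ∏ r : Fin (k + 1), ((1 - η r) / 2) ≤ ∏ r, (1 - c r) :=
        Finset.prod_le_prod (fun r _ => by linarith [(hη r).2]) (fun r _ => hc r)
      refine le_trans ?_ h1
      have h2 : ∏ r : Fin (k + 1), ((1 - η r) / 2) = (1 / 2) ^ (k + 1) * ∏ r, (1 - η r) := by
        have : ∀ r ∈ (Finset.univ : Finset (Fin (k + 1))), (1 - η r) / 2 = (1 / 2) * (1 - η r) := by
          intro r _; ring
        rw [Finset.prod_congr rfl this, Finset.prod_mul_distrib, Finset.prod_const,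
          Finset.card_univ, Fintype.card_fin]
      rw [h2]
      apply mul_le_mul_of_nonneg_left _ (by positivity)
      refine le_trans ?_ hp
      rw [← hρT, ← hTdef, ← hρdef]
      linarith
    rw [abs_le]
    constructor
    · -- lower bound
      by_cases hs : ∀ r, 2 * ρ ≤ η r
      · have h1 := av_le_D z hz N η (2 * ρ) (by positivity) hs (fun r => (hη r).2.le)
        have h2 := box' hk h N L hN hL hT (fun r => η r - ρ) (fun r => by linarith [hs r])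
          (fun r => by rw [← hTdef, ← hρdef]; linarith [hη1 r])
          (hprodc _ (fun r => by linarith [(hη r).2]))
        rw [← hTdef, ← hρdef, ← hAdef] at h2
        have e1 : (fun r => η r - ρ - ρ) = fun r => η r - 2 * ρ := by funext r; ring
        have e2 : (fun r => η r - ρ + ρ) = η := by funext r; ring
        rw [e1, e2] at h2
        have h3 := (abs_le.1 h2).1
        push_cast at h1
        linarith
      · push Not at hs
        obtain ⟨r₀, hr₀⟩ := hs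
        have h1 := D_ge_small z N η (2 * ρ) (fun r => (hη r).1) (fun r => (hη r).2.le) r₀ hr₀.le
        have h2 : 0 ≤ ((k + 1 : ℝ) * (L + 3) + 1) * (A * N / T) := by positivity
        have h3 : (N : ℝ) * (2 * ρ) ≤ N * (k + 1) * (2 * ρ) := by
          have hk0 : (0 : ℝ) ≤ k := Nat.cast_nonneg k
          have : 0 ≤ (N : ℝ) * (2 * ρ) * k := by positivity
          nlinarith
        linarith
    · have h1 := D_le_av z hz N η (2 * ρ) (by positivity) (fun r => (hη r).1)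
        (fun r => by linarith [hη1 r])
      have h2 := box' hk h N L hN hL hT (fun r => η r + ρ) (fun r => by linarith [(hη r).1])
        (fun r => by rw [← hTdef, ← hρdef]; linarith [hη1 r])
        (hprodc _ (fun r => by linarith [hη1 r]))
      rw [← hTdef, ← hρdef, ← hAdef] at h2
      have e1 : (fun r => η r + ρ - ρ) = η := by funext r; ring
      have e2 : (fun r => η r + ρ + ρ) = fun r => η r + 2 * ρ := by funext r; ring
      rw [e1, e2] at h2
      have h3 := (abs_le.1 h2).2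
      push_cast at h1
      linarith
  have hr := red z hz N L (by omega) _ hM q hq
  refine hr.trans ?_
  rw [← hρT, ← hTdef]
  have e8 : 8 * ρ = 1 / T := by rw [hρdef]; field_simp
  rw [e8]
  have hL0 : (0 : ℝ) ≤ L := Nat.cast_nonneg L
  have hk0 : (0 : ℝ) ≤ k := Nat.cast_nonneg k
  have hLk : (L : ℝ) ^ k ≤ (L + 4) ^ k := pow_le_pow_left₀ hL0 (by linarith) k
  have h1 : 2 * (2 * (L : ℝ)) ^ k * (B * (L + 4) * N / T)
      ≤ 2 * 2 ^ k * B * (L + 4) ^ (k + 1) * (N / T) := by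
    have e : 2 * (2 * (L : ℝ)) ^ k * (B * (L + 4) * N / T)
        = 2 * 2 ^ k * B * ((L : ℝ) ^ k * (L + 4)) * (N / T) := by
      rw [mul_pow]; ring
    rw [e, pow_succ]
    gcongr
  have h2 : (N : ℝ) * (L ^ k + k) * (1 / T) ≤ (1 + k) * (L + 4) ^ (k + 1) * (N / T) := by
    have e : (N : ℝ) * (L ^ k + k) * (1 / T) = (L ^ k + k) * (N / T) := by ring
    rw [e]
    apply mul_le_mul_of_nonneg_right _ (by positivity)
    have h3 : (1 : ℝ) ≤ (L + 4) ^ (k + 1) := one_le_pow₀ (by linarith)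
    have h4 : (L : ℝ) ^ k ≤ (L + 4) ^ (k + 1) := by
      refine hLk.trans ?_
      exact pow_le_pow_right₀ (by linarith) (by omega)
    nlinarith
  calc _ ≤ 2 * 2 ^ k * B * (L + 4) ^ (k + 1) * (N / T) + (1 + k) * (L + 4) ^ (k + 1) * (N / T) :=
        add_le_add h1 h2
    _ = (2 * 2 ^ k * B + (1 + k)) * (L + 4) ^ (k + 1) * N / T := by ring

private theorem starDisc_le_one (d N : ℕ) (z : ℕ → Fin d → ℝ) (hN : 1 ≤ N) :
    starDisc d N z ≤ 1 := by
  unfold starDisc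
  have : Nonempty (cube d) := ⟨⟨fun _ => 0, fun _ => ⟨le_rfl, one_pos⟩⟩⟩
  apply ciSup_le
  intro q
  have hN0 : (0 : ℝ) < N := by exact_mod_cast hN
  have h1 : (((range N).filter (fun i => ∀ r, 0 ≤ z i r ∧ z i r < q.1 r)).card : ℝ) / N ≤ 1 := by
    rw [div_le_one hN0]
    have := Finset.card_filter_le (range N) (fun i => ∀ r, 0 ≤ z i r ∧ z i r < q.1 r)
    rw [Finset.card_range] at this
    exact_mod_cast this
  have h2 : 0 ≤ (((range N).filter (fun i => ∀ r, 0 ≤ z i r ∧ z i r < q.1 r)).card : ℝ) / N := by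
    positivity
  have h3 : 0 ≤ ∏ r, q.1 r := Finset.prod_nonneg (fun r _ => (q.2 r).1)
  have h4 : ∏ r, q.1 r ≤ 1 := Finset.prod_le_one (fun r _ => (q.2 r).1) (fun r _ => (q.2 r).2.le)
  rw [abs_le]
  constructor <;> linarith

private theorem starDisc_le {d N : ℕ} {z : ℕ → Fin d → ℝ} (hz : ∀ j r, 0 ≤ z j r ∧ z j r < 1)
    (hN : 1 ≤ N) (B : ℝ) (hB : ∀ q : Fin d → ℝ, (∀ r, 0 ≤ q r ∧ q r ≤ 1) → |D z N q| ≤ B * N) :
    starDisc d N z ≤ B := by
  unfold starDisc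
  have : Nonempty (cube d) := ⟨⟨fun _ => 0, fun _ => ⟨le_rfl, one_pos⟩⟩⟩
  apply ciSup_le
  intro q
  have hN0 : (0 : ℝ) < N := by exact_mod_cast hN
  have h1 := hB q.1 (fun r => ⟨(q.2 r).1, (q.2 r).2.le⟩)
  have e : (((range N).filter (fun i => ∀ r, 0 ≤ z i r ∧ z i r < q.1 r)).card : ℝ) / N
      - ∏ r, q.1 r = D z N q.1 / N := by
    unfold D
    have : (range N).filter (fun i => ∀ r, 0 ≤ z i r ∧ z i r < q.1 r)
        = (range N).filter (fun i => ∀ r, z i r < q.1 r) := by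
      apply Finset.filter_congr
      intro i _
      exact ⟨fun hh r => (hh r).2, fun hh r => ⟨(hz i r).1, hh r⟩⟩
    rw [this]
    field_simp
  rw [e, abs_div, abs_of_pos hN0, div_le_iff₀ hN0]
  exact h1

theorem main (d : ℕ) (hd : 2 ≤ d) (m : ℕ) :
    ∃ C : ℝ, ∀ z : ℕ → Fin d → ℝ, IsKritzinger d m z → ∀ N : ℕ, 2 ≤ N →
      starDisc d N z ≤ C * Real.log N ^ d / (N : ℝ) ^ (1 / ((d : ℝ) + 1)) := by
  obtain ⟨k, rfl⟩ : ∃ k, d = k + 1 := ⟨d - 1, by omega⟩
  have hk : 1 ≤ k := by omega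
  obtain ⟨C, hC0, hC⟩ := core k m hk
  have hlog2 : (0 : ℝ) < Real.log 2 := Real.log_pos one_lt_two
  have hlog2' : (1 : ℝ) / 2 ≤ Real.log 2 := by linarith [Real.log_two_gt_d9]
  obtain ⟨N0, hN0⟩ : ∃ N0 : ℕ, N0 = m + 8 ^ (k + 2) := ⟨_, rfl⟩
  refine ⟨N0 / Real.log 2 ^ (k + 1) + C * 10 ^ (k + 1) * 2, ?_⟩
  intro z h N hN2
  have hNR : (2 : ℝ) ≤ N := by exact_mod_cast hN2
  have hN0R : (0 : ℝ) < N := by linarith
  have hlogN : Real.log 2 ≤ Real.log N := Real.log_le_log (by norm_num) hNR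
  have hlogN0 : 0 < Real.log N := by linarith
  obtain ⟨R, hR⟩ : ∃ R : ℝ, R = (N : ℝ) ^ (1 / (((k + 1 : ℕ) : ℝ) + 1)) := ⟨_, rfl⟩
  have hR0 : 0 < R := by rw [hR]; exact Real.rpow_pos_of_pos hN0R _
  have hRpow : R ^ (k + 2) = N := by
    rw [hR, ← Real.rpow_natCast, ← Real.rpow_mul hN0R.le]
    have : 1 / (((k + 1 : ℕ) : ℝ) + 1) * ((k + 2 : ℕ) : ℝ) = 1 := by
      push_cast; field_simp; ring
    rw [this, Real.rpow_one]
  rw [← hR]
  by_cases hbig : N0 ≤ N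
  · -- main case
    have hmN : m ≤ N := (Nat.le_add_right m (8 ^ (k + 2))).trans (hN0 ▸ hbig)
    have h8N : ((8 : ℝ)) ^ (k + 2) ≤ N := by
      have : 8 ^ (k + 2) ≤ N := (Nat.le_add_left (8 ^ (k + 2)) m).trans (hN0 ▸ hbig)
      exact_mod_cast this
    have hR8 : 8 ≤ R := by
      by_contra hcon
      push Not at hcon
      have := pow_lt_pow_left₀ hcon hR0.le (by omega : k + 2 ≠ 0)
      rw [hRpow] at this
      linarith
    obtain ⟨L, hL⟩ : ∃ L : ℕ, L = Nat.log 2 ⌊R⌋₊ := ⟨_, rfl⟩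
    have hfl : 8 ≤ ⌊R⌋₊ := Nat.le_floor (by exact_mod_cast hR8)
    have hL1 : (2 : ℝ) ^ L ≤ R := by
      have h1 : 2 ^ L ≤ ⌊R⌋₊ := by rw [hL]; exact Nat.pow_log_le_self 2 (by omega)
      have h2 : ((2 ^ L : ℕ) : ℝ) ≤ R := (Nat.cast_le.2 h1).trans (Nat.floor_le hR0.le)
      exact_mod_cast h2
    have hL2 : R < 2 ^ (L + 1) := by
      have h1 : ⌊R⌋₊ < 2 ^ (L + 1) := by rw [hL]; exact Nat.lt_pow_succ_log_self (by norm_num) _
      have h2 := (Nat.floor_lt hR0.le).1 h1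
      exact_mod_cast h2
    have hL3 : 2 ≤ L := by
      by_contra hcon
      push Not at hcon
      have : (2 : ℝ) ^ (L + 1) ≤ 2 ^ 2 := pow_le_pow_right₀ (by norm_num) (by omega)
      linarith
    have hT : ((2 : ℝ) ^ L) ^ (k + 2) ≤ N := by
      rw [← hRpow]; exact pow_le_pow_left₀ (by positivity) hL1 _
    have hT0 : (0 : ℝ) < 2 ^ L := by positivity
    have hb := starDisc_le (d := k + 1) (N := N) (z := z) (fun j r => h.mem j r) (by omega)
      (C * (L + 4) ^ (k + 1) / 2 ^ L) (by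
        intro q hq
        refine (hC z h N L hmN hL3 hT q hq).trans (le_of_eq ?_)
        ring)
    refine hb.trans ?_
    have hLN : (L : ℝ) + 4 ≤ 10 * Real.log N := by
      have h1 : (L : ℝ) * Real.log 2 ≤ Real.log N := by
        have h2 : Real.log ((2 : ℝ) ^ L) ≤ Real.log N := by
          apply Real.log_le_log hT0
          refine hL1.trans ?_
          rw [← hRpow]
          exact le_self_pow₀ (by linarith) (by omega)
        rwa [Real.log_pow] at h2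
      nlinarith
    have h1 : C * (L + 4) ^ (k + 1) / 2 ^ L ≤ C * (10 * Real.log N) ^ (k + 1) * 2 / R := by
      rw [div_le_div_iff₀ hT0 hR0]
      have h2 : ((L : ℝ) + 4) ^ (k + 1) ≤ (10 * Real.log N) ^ (k + 1) :=
        pow_le_pow_left₀ (by positivity) hLN _
      have h3 : R ≤ 2 * 2 ^ L := by rw [pow_succ] at hL2; linarith
      calc C * (L + 4) ^ (k + 1) * R ≤ C * (10 * Real.log N) ^ (k + 1) * (2 * 2 ^ L) := by gcongr
        _ = C * (10 * Real.log N) ^ (k + 1) * 2 * 2 ^ L := by ring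
    refine h1.trans ?_
    apply div_le_div_of_nonneg_right _ hR0.le
    rw [mul_pow]
    have h4 : 0 ≤ (N0 : ℝ) / Real.log 2 ^ (k + 1) * Real.log N ^ (k + 1) := by positivity
    nlinarith
  · push Not at hbig
    refine (starDisc_le_one _ N z (by omega)).trans ?_
    rw [le_div_iff₀ hR0, one_mul]
    have h1 : R ≤ N0 := by
      have h2 : R ≤ N := by
        have hR1 : 1 ≤ R := by
          rw [hR]
          exact Real.one_le_rpow (by linarith) (by positivity)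
        rw [← hRpow]
        exact le_self_pow₀ hR1 (by omega)
      have h3 : (N : ℝ) ≤ N0 := by exact_mod_cast hbig.le
      linarith
    have h4 : (N0 : ℝ) ≤ N0 / Real.log 2 ^ (k + 1) * Real.log N ^ (k + 1) := by
      rw [div_mul_eq_mul_div, le_div_iff₀ (by positivity)]
      apply mul_le_mul_of_nonneg_left _ (Nat.cast_nonneg _)
      exact pow_le_pow_left₀ hlog2.le hlogN _
    have h5 : 0 ≤ C * 10 ^ (k + 1) * 2 * Real.log N ^ (k + 1) := by positivity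
    nlinarith

end Pool.Agent.H47.KZ
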