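import Pool.Agent.H47.KZ.Defs

/-!
MODULE OneD: one dimensional integrals.
`s p t = 0` for `-p < t ≤ p`, `1` for `t > p`, `-1` for `t ≤ -p` (when `0 ≤ p`; for `p = 0` the
middle range is empty).  `kap · p` is continuous, even, with derivative `- s p t` for `|t| ≠ p`
(`|t| ≤ 1`... in fact for all `t ≠ ±p`), so `∫_u^b s p = kap u p - kap b p`.
FTC with countable exceptional set: `MeasureTheory.integral_eq_of_hasDerivAt_off_countable`
(s = {p, -p}).
-/

namespace Pool.Agent.H47.KZ

open Finset MeasureTheory

private lemma s_abs_le' (p t : ℝ) : |s p t| ≤ 1 := by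
  unfold s
  split_ifs <;> norm_num

lemma s_abs_le (p t : ℝ) (hp : 0 ≤ p) : |s p t| ≤ 1 := s_abs_le' p t

lemma s_measurable (p : ℝ) : Measurable (s p) := by
  have h1 : Measurable (fun t : ℝ => if p < t then (1 : ℝ) else 0) :=
    Measurable.ite measurableSet_Ioi measurable_const measurable_const
  have h2 : Measurable (fun t : ℝ => if -p < t then (1 : ℝ) else 0) :=
    Measurable.ite measurableSet_Ioi measurable_const measurable_const
  exact (h1.add h2).sub measurable_const

private lemma bdd_intInt {f g : ℝ → ℝ} (hf : Measurable f) (hg : Continuous g) (h : ∀ t, |f t| ≤ g t)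
    (a b : ℝ) : IntervalIntegrable f volume a b := by
  refine (hg.intervalIntegrable a b).mono_fun' hf.aestronglyMeasurable ?_
  exact Filter.Eventually.of_forall fun t => (Real.norm_eq_abs (f t)).trans_le (h t)

lemma s_intInt (p a b : ℝ) : IntervalIntegrable (s p) volume a b :=
  bdd_intInt (s_measurable p) (continuous_const (y := (1 : ℝ))) (fun t => s_abs_le' p t) a b

lemma s_mul_intInt (p q a b : ℝ) :
    IntervalIntegrable (fun t => s p t * s q t) volume a b := by
  refine bdd_intInt ((s_measurable p).mul (s_measurable q)) (continuous_const (y := (1 : ℝ))) (fun t => ?_) a b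
  change |s p t * s q t| ≤ 1
  rw [abs_mul]
  exact mul_le_one₀ (s_abs_le' p t) (abs_nonneg _) (s_abs_le' q t)

lemma s_mul_id_intInt (p a b : ℝ) :
    IntervalIntegrable (fun t => s p t * t) volume a b := by
  refine bdd_intInt ((s_measurable p).mul measurable_id) continuous_abs (fun t => ?_) a b
  change |s p t * t| ≤ |t|
  rw [abs_mul]
  exact mul_le_of_le_one_left (abs_nonneg _) (s_abs_le' p t)

lemma kap_continuous (p : ℝ) : Continuous (fun t => kap t p) := by
  unfold kap
  exact continuous_const.sub (continuous_abs.max continuous_const)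

private lemma s_pos {p t : ℝ} (hp : 0 ≤ p) (h : p < t) : s p t = 1 := by
  unfold s
  rw [if_pos h, if_pos (by linarith)]
  norm_num

private lemma s_mid {p t : ℝ} (h1 : -p < t) (h2 : t < p) : s p t = 0 := by
  unfold s
  rw [if_neg (by linarith), if_pos h1]
  norm_num

private lemma s_neg {p t : ℝ} (hp : 0 ≤ p) (h : t < -p) : s p t = -1 := by
  unfold s
  rw [if_neg (by linarith), if_neg (by linarith)]
  norm_num

/-- primitive -/
lemma int_s (p u b : ℝ) (hp : 0 ≤ p) : ∫ t in u..b, s p t = kap u p - kap b p := by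
  have h := integral_eq_of_hasDerivAt_off_countable (fun t => -kap t p) (s p) (a := u) (b := b)
    (s := ({p, -p} : Set ℝ)) (Set.Countable.insert _ (Set.countable_singleton _))
    (kap_continuous p).neg.continuousOn ?_ (s_intInt p u b)
  · rw [h]
    ring
  rintro x ⟨_, hx⟩
  have hx1 : x ≠ p := fun h => hx (Or.inl h)
  have hx2 : x ≠ -p := fun h => hx (Or.inr h)
  rcases lt_or_gt_of_ne hx1 with h1 | h1
  · rcases lt_or_gt_of_ne hx2 with h2 | h2
    · rw [s_neg hp h2]
      have h3 : HasDerivAt (fun t : ℝ => -t - 1) (-1) x := ((hasDerivAt_id x).neg).sub_const 1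
      refine h3.congr_of_eventuallyEq ?_
      filter_upwards [gt_mem_nhds h2] with t ht
      unfold kap
      rw [abs_of_neg (by linarith), max_eq_left (by linarith)]
      ring
    · rw [s_mid h2 h1]
      have h3 : HasDerivAt (fun _ : ℝ => p - 1) 0 x := hasDerivAt_const x _
      refine h3.congr_of_eventuallyEq ?_
      filter_upwards [gt_mem_nhds h1, lt_mem_nhds h2] with t ht ht'
      unfold kap
      rw [max_eq_right (abs_le.2 ⟨ht'.le, ht.le⟩)]
      ring
  · rw [s_pos hp h1]
    have h3 : HasDerivAt (fun t : ℝ => t - 1) 1 x := (hasDerivAt_id x).sub_const 1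
    refine h3.congr_of_eventuallyEq ?_
    filter_upwards [lt_mem_nhds h1] with t ht
    unfold kap
    rw [abs_of_pos (by linarith), max_eq_left (by linarith)]
    ring

private lemma int_step (m : ℝ) (hm : 0 ≤ m) (hm1 : m ≤ 1) (f : ℝ → ℝ) (T : Set ℝ) (hT : T.Countable)
    (h1 : ∀ t, t ∉ T → m < t → f t = 1) (h2 : ∀ t, t ∉ T → t < -m → f t = 1)
    (h3 : ∀ t, t ∉ T → -m < t → t < m → f t = 0) (hf : IntervalIntegrable f volume (-1) 1) :
    ∫ t in (-1 : ℝ)..1, f t = 2 * (1 - m) := by
  have h := integral_eq_of_hasDerivAt_off_countable (fun t => max (t - m) 0 + min (t + m) 0) f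
    (a := -1) (b := 1) (s := T ∪ ({m, -m} : Set ℝ))
    (hT.union (Set.Countable.insert _ (Set.countable_singleton _)))
    (by fun_prop) ?_ hf
  · rw [h, max_eq_left (by linarith), min_eq_right (by linarith), max_eq_right (by linarith),
      min_eq_left (by linarith)]
    ring
  rintro x ⟨_, hx⟩
  have hxT : x ∉ T := fun h => hx (Or.inl h)
  have hx1 : x ≠ m := fun h => hx (Or.inr (Or.inl h))
  have hx2 : x ≠ -m := fun h => hx (Or.inr (Or.inr h))
  rcases lt_or_gt_of_ne hx1 with h4 | h4
  · rcases lt_or_gt_of_ne hx2 with h5 | h5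
    · rw [h2 x hxT h5]
      have h6 : HasDerivAt (fun t : ℝ => t + m) 1 x := (hasDerivAt_id x).add_const m
      refine h6.congr_of_eventuallyEq ?_
      filter_upwards [gt_mem_nhds h5] with t ht
      rw [max_eq_right (by linarith), min_eq_left (by linarith)]
      ring
    · rw [h3 x hxT h5 h4]
      have h6 : HasDerivAt (fun _ : ℝ => (0 : ℝ)) 0 x := hasDerivAt_const x _
      refine h6.congr_of_eventuallyEq ?_
      filter_upwards [gt_mem_nhds h4, lt_mem_nhds h5] with t ht ht'
      rw [max_eq_right (by linarith), min_eq_right (by linarith)]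
      ring
  · rw [h1 x hxT h4]
    have h6 : HasDerivAt (fun t : ℝ => t - m) 1 x := (hasDerivAt_id x).sub_const m
    refine h6.congr_of_eventuallyEq ?_
    filter_upwards [lt_mem_nhds h4] with t ht
    rw [max_eq_left (by linarith), min_eq_right (by linarith)]
    ring

lemma int_s_s (p q : ℝ) (hp : 0 ≤ p) (hp1 : p ≤ 1) (hq : 0 ≤ q) (hq1 : q ≤ 1) :
    ∫ t in (-1 : ℝ)..1, s p t * s q t = 2 * (1 - max p q) := by
  have hpm := le_max_left p q
  have hqm := le_max_right p q
  refine int_step (max p q) (hp.trans hpm) (max_le hp1 hq1) _ ({p, -p, q, -q} : Set ℝ)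
    (Set.toFinite _).countable ?_ ?_ ?_ (s_mul_intInt p q (-1) 1)
  · intro t _ h
    rw [s_pos hp (by linarith), s_pos hq (by linarith)]
    norm_num
  · intro t _ h
    rw [s_neg hp (by linarith), s_neg hq (by linarith)]
    norm_num
  · intro t ht h1 h2
    rcases le_total p q with h | h
    · rw [max_eq_right h] at h1 h2
      rw [s_mid h1 h2, mul_zero]
    · rw [max_eq_left h] at h1 h2
      rw [s_mid h1 h2, zero_mul]

lemma int_s_id (p : ℝ) (hp : 0 ≤ p) (hp1 : p ≤ 1) :
    ∫ t in (-1 : ℝ)..1, s p t * t = 1 - p ^ 2 := by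
  have h := integral_eq_of_hasDerivAt_off_countable (fun t => (max t p) ^ 2 / 2 - (min t (-p)) ^ 2 / 2)
    (fun t => s p t * t) (a := -1) (b := 1) (s := ({p, -p} : Set ℝ))
    (Set.Countable.insert _ (Set.countable_singleton _)) (by fun_prop) ?_ (s_mul_id_intInt p (-1) 1)
  · rw [h, max_eq_left hp1, min_eq_right (by linarith), max_eq_right (by linarith),
      min_eq_left (by linarith)]
    ring
  rintro x ⟨_, hx⟩
  have hx1 : x ≠ p := fun h => hx (Or.inl h)
  have hx2 : x ≠ -p := fun h => hx (Or.inr h)
  have hsq : HasDerivAt (fun t : ℝ => t ^ 2) (2 * x) x := by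
    have := hasDerivAt_pow 2 x
    simpa using this
  rcases lt_or_gt_of_ne hx1 with h4 | h4
  · rcases lt_or_gt_of_ne hx2 with h5 | h5
    · rw [s_neg hp h5]
      have h6 : HasDerivAt (fun t : ℝ => p ^ 2 / 2 - t ^ 2 / 2) (-1 * x) x := by
        have := ((hsq.div_const 2).const_sub (p ^ 2 / 2))
        refine this.congr_deriv ?_
        ring
      refine h6.congr_of_eventuallyEq ?_
      filter_upwards [gt_mem_nhds h5] with t ht
      rw [max_eq_right (by linarith), min_eq_left (by linarith)]
    · rw [s_mid h5 h4, zero_mul]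
      have h6 : HasDerivAt (fun _ : ℝ => (0 : ℝ)) 0 x := hasDerivAt_const x _
      refine h6.congr_of_eventuallyEq ?_
      filter_upwards [gt_mem_nhds h4, lt_mem_nhds h5] with t ht ht'
      rw [max_eq_right (by linarith), min_eq_right (by linarith)]
      ring
  · rw [s_pos hp h4]
    have h6 : HasDerivAt (fun t : ℝ => t ^ 2 / 2 - p ^ 2 / 2) (1 * x) x := by
      have := ((hsq.div_const 2).sub_const (p ^ 2 / 2))
      refine this.congr_deriv ?_
      ring
    refine h6.congr_of_eventuallyEq ?_
    filter_upwards [lt_mem_nhds h4] with t ht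
    rw [max_eq_left (by linarith), min_eq_right (by linarith)]
    ring

end Pool.Agent.H47.KZ
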