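import Pool.Agent.H47.KZ.OneD

/-!
MODULE ProdCS: the two facts that use integrals over `Fin k → ℝ`.
Use the product measure `Measure.pi (fun _ => volume.restrict (Set.Ioc a b))` and
`MeasureTheory.integral_fintype_prod_eq_prod` (integral of `∏ r, f r (q r)`), finite sums of
products; everything is bounded and measurable on a finite measure space.

(1) `boxCS`: `g q = ∑ j, c j * ∏ r, s (x j r) (q r) + c0 * ∏ r, q r` on `[-1,1]^k`;
`∫_{box} g = (∏ (β-α)) * (LHS bracket)`, `(∫_box g)^2 ≤ vol(box) ∫_box g^2 ≤ vol(box) ∫_{[-1,1]^k} g^2`,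
and `∫_{[-1,1]^k} g^2` is the right hand side by `int_s_s`, `int_s_id`, `∫_{-1}^1 t^2 = 2/3`.
(2) `F_le_Phi`: integrate `Gr.gr` over `y ∈ [0,1]^k`:  `∫_0^1 (1 - max x y) dy = (1-x^2)/2`,
`∫_0^1 (1-y) = 1/2`, `∫_0^1 (1-y^2)/2 = 1/3`.
-/

namespace Pool.Agent.H47.KZ

open Finset MeasureTheory

/-- Cauchy-Schwarz over a box for finite sums of products. -/
private theorem gen {k : ℕ} (N : ℕ) (C : ℕ → ℝ) (φ : ℕ → Fin k → ℝ → ℝ)
    (hφ : ∀ j r, IntegrableOn (φ j r) (Set.Ioc (-1) 1))
    (hφφ : ∀ j l r, IntegrableOn (fun t => φ j r t * φ l r t) (Set.Ioc (-1) 1))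
    (α β : Fin k → ℝ) (hα : ∀ r, -1 ≤ α r) (hαβ : ∀ r, α r < β r) (hβ : ∀ r, β r ≤ 1) :
    (∑ j ∈ range N, C j * ∏ r, ((∫ t in (α r)..(β r), φ j r t) / (β r - α r))) ^ 2
        * ∏ r, (β r - α r)
      ≤ ∑ j ∈ range N, ∑ l ∈ range N, C j * C l * ∏ r, ∫ t in (-1 : ℝ)..1, φ j r t * φ l r t := by
  set μ : Measure (Fin k → ℝ) := Measure.pi fun _ => volume.restrict (Set.Ioc (-1) 1) with hμ
  set A : Set (Fin k → ℝ) := Set.univ.pi fun r => Set.Ioc (α r) (β r) with hA
  set G : (Fin k → ℝ) → ℝ := fun q => ∑ j ∈ range N, C j * ∏ r, φ j r (q r) with hG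
  have hGi : Integrable G μ := by
    apply integrable_finsetSum
    intro j _
    exact (Integrable.fintype_prod fun r => hφ j r).const_mul _
  have hG2 : ∀ q, G q ^ 2 = ∑ j ∈ range N, ∑ l ∈ range N,
      C j * C l * ∏ r, (φ j r (q r) * φ l r (q r)) := by
    intro q
    rw [sq]
    simp only [hG]
    rw [Finset.sum_mul_sum]
    refine Finset.sum_congr rfl fun j _ => Finset.sum_congr rfl fun l _ => ?_
    rw [Finset.prod_mul_distrib]
    ring
  have hi2 : ∀ j l, Integrable (fun q : Fin k → ℝ =>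
      C j * C l * ∏ r, (φ j r (q r) * φ l r (q r))) μ := by
    intro j l
    exact (Integrable.fintype_prod (f := fun r t => φ j r t * φ l r t) fun r =>
      hφφ j l r).const_mul _
  have hG2i : Integrable (fun q => G q ^ 2) μ := by
    have e : (fun q => G q ^ 2) = fun q => ∑ j ∈ range N, ∑ l ∈ range N,
      C j * C l * ∏ r, (φ j r (q r) * φ l r (q r)) := funext hG2
    rw [e]
    exact integrable_finsetSum _ fun j _ => integrable_finsetSum _ fun l _ => hi2 j l
  have hfull : ∫ q, G q ^ 2 ∂μ = ∑ j ∈ range N, ∑ l ∈ range N,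
      C j * C l * ∏ r, ∫ t in (-1 : ℝ)..1, φ j r t * φ l r t := by
    simp_rw [hG2]
    rw [integral_finsetSum _ fun j _ => integrable_finsetSum _ fun l _ => hi2 j l]
    refine Finset.sum_congr rfl fun j _ => ?_
    rw [integral_finsetSum _ fun l _ => hi2 j l]
    refine Finset.sum_congr rfl fun l _ => ?_
    rw [integral_const_mul]
    congr 1
    rw [hμ, integral_fintype_prod_eq_prod (fun r t => φ j r t * φ l r t)]
    refine Finset.prod_congr rfl fun r _ => ?_
    rw [intervalIntegral.integral_of_le (by norm_num)]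
  have hμA : μ.restrict A = Measure.pi fun r => volume.restrict (Set.Ioc (α r) (β r)) := by
    rw [hμ, hA, Measure.restrict_pi_pi]
    congr 1
    funext r
    rw [Measure.restrict_restrict_of_subset]
    exact Set.Ioc_subset_Ioc (hα r) (hβ r)
  have hμAu : μ A = ∏ r, ENNReal.ofReal (β r - α r) := by
    have h1 : (μ.restrict A) Set.univ = μ A := by
      rw [Measure.restrict_apply MeasurableSet.univ, Set.univ_inter]
    rw [← h1, hμA, ← Set.pi_univ Set.univ, Measure.pi_pi]
    refine Finset.prod_congr rfl fun r _ => ?_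
    rw [Measure.restrict_apply MeasurableSet.univ, Set.univ_inter, Real.volume_Ioc]
  have hvol : (μ.restrict A).real Set.univ = ∏ r, (β r - α r) := by
    rw [Measure.real, Measure.restrict_apply MeasurableSet.univ, Set.univ_inter, hμAu,
      ENNReal.toReal_prod]
    refine Finset.prod_congr rfl fun r _ => ?_
    rw [ENNReal.toReal_ofReal (sub_nonneg.2 (hαβ r).le)]
  have hV : 0 < ∏ r, (β r - α r) := Finset.prod_pos fun r _ => sub_pos.2 (hαβ r)
  have hbox : ∫ q in A, G q ∂μ = (∏ r, (β r - α r)) *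
      ∑ j ∈ range N, C j * ∏ r, ((∫ t in (α r)..(β r), φ j r t) / (β r - α r)) := by
    rw [hμA]
    simp only [hG]
    have hj : ∀ j, Integrable (fun q : Fin k → ℝ => C j * ∏ r, φ j r (q r))
        (Measure.pi fun r => volume.restrict (Set.Ioc (α r) (β r))) := by
      intro j
      exact (Integrable.fintype_prod fun r =>
        (hφ j r).mono_set (Set.Ioc_subset_Ioc (hα r) (hβ r))).const_mul _
    rw [integral_finsetSum _ fun j _ => hj j, Finset.mul_sum]
    refine Finset.sum_congr rfl fun j _ => ?_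
    rw [integral_const_mul, integral_fintype_prod_eq_prod (fun r t => φ j r t)]
    rw [mul_left_comm, ← Finset.prod_mul_distrib]
    congr 1
    refine Finset.prod_congr rfl fun r _ => ?_
    rw [intervalIntegral.integral_of_le (hαβ r).le, mul_div_cancel₀ _ (sub_pos.2 (hαβ r)).ne']
  set V := ∏ r, (β r - α r)
  set B := ∑ j ∈ range N, C j * ∏ r, ((∫ t in (α r)..(β r), φ j r t) / (β r - α r))
  have hfin : IsFiniteMeasure μ := by rw [hμ]; infer_instance
  have hcs : 0 ≤ ∫ q in A, (G q - B) ^ 2 ∂μ := integral_nonneg fun q => sq_nonneg _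
  have hexp : ∫ q in A, (G q - B) ^ 2 ∂μ = ∫ q in A, G q ^ 2 ∂μ - B ^ 2 * V := by
    have e : ∀ q, (G q - B) ^ 2 = G q ^ 2 - (2 * B) * G q + B ^ 2 := fun q => by ring
    simp_rw [e]
    have j1 : Integrable (fun q => G q ^ 2) (μ.restrict A) := hG2i.restrict
    have j2 : Integrable (fun q => 2 * B * G q) (μ.restrict A) := hGi.restrict.const_mul _
    have j3 : Integrable (fun q => G q ^ 2 - 2 * B * G q) (μ.restrict A) := j1.sub j2
    rw [integral_add j3 (integrable_const _), integral_sub j1 j2, integral_const_mul, hbox,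
      integral_const, hvol, smul_eq_mul]
    ring
  have hmono : ∫ q in A, G q ^ 2 ∂μ ≤ ∫ q, G q ^ 2 ∂μ :=
    setIntegral_le_integral hG2i (Filter.Eventually.of_forall fun q => sq_nonneg _)
  rw [← hfull]
  linarith

theorem boxCS {k : ℕ} (n : ℕ) (x : ℕ → Fin k → ℝ) (hx : ∀ j r, 0 ≤ x j r ∧ x j r < 1)
    (c : ℕ → ℝ) (c0 : ℝ) (α β : Fin k → ℝ) (hα : ∀ r, -1 ≤ α r) (hαβ : ∀ r, α r < β r)
    (hβ : ∀ r, β r ≤ 1) :
    (∑ j ∈ range n, c j * ∏ r, avs (α r) (β r) (x j r) + c0 * ∏ r, ((α r + β r) / 2)) ^ 2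
        * ∏ r, (β r - α r)
      ≤ ∑ j ∈ range n, ∑ l ∈ range n, c j * c l * (2 ^ k * Kp (x j) (x l))
        + 2 * c0 * ∑ j ∈ range n, c j * (2 ^ k * hh (x j)) + c0 ^ 2 * (2 / 3) ^ k := by
  set φ : ℕ → Fin k → ℝ → ℝ := fun j r t => if j < n then s (x j r) t else t with hφd
  set C : ℕ → ℝ := fun j => if j < n then c j else c0 with hCd
  have hφ1 : ∀ j, j < n → ∀ r, φ j r = s (x j r) := fun j hj r => by
    funext t
    simp only [hφd, if_pos hj]
  have hφ2 : ∀ r, φ n r = fun t => t := fun r => by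
    funext t
    simp only [hφd, lt_irrefl, if_false]
  have hφ3 : ∀ j, ¬ j < n → ∀ r, φ j r = fun t => t := fun j hj r => by
    funext t
    simp only [hφd, if_neg hj]
  have h11 : (-1 : ℝ) ≤ 1 := by norm_num
  have i1 : ∀ p : ℝ, IntegrableOn (s p) (Set.Ioc (-1) 1) := fun p =>
    (intervalIntegrable_iff_integrableOn_Ioc_of_le h11).1 (s_intInt p (-1) 1)
  have i2 : IntegrableOn (fun t : ℝ => t) (Set.Ioc (-1) 1) :=
    (intervalIntegrable_iff_integrableOn_Ioc_of_le h11).1 (continuous_id.intervalIntegrable _ _)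
  have i3 : ∀ p q : ℝ, IntegrableOn (fun t => s p t * s q t) (Set.Ioc (-1) 1) := fun p q =>
    (intervalIntegrable_iff_integrableOn_Ioc_of_le h11).1 (s_mul_intInt p q (-1) 1)
  have i4 : ∀ p : ℝ, IntegrableOn (fun t => s p t * t) (Set.Ioc (-1) 1) := fun p =>
    (intervalIntegrable_iff_integrableOn_Ioc_of_le h11).1 (s_mul_id_intInt p (-1) 1)
  have i5 : IntegrableOn (fun t : ℝ => t * t) (Set.Ioc (-1) 1) :=
    (intervalIntegrable_iff_integrableOn_Ioc_of_le h11).1
      ((continuous_id.mul continuous_id).intervalIntegrable _ _)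
  have hφ : ∀ j r, IntegrableOn (φ j r) (Set.Ioc (-1) 1) := by
    intro j r
    by_cases hj : j < n
    · rw [hφ1 j hj]
      exact i1 _
    · rw [hφ3 j hj]
      exact i2
  have hφφ : ∀ j l r, IntegrableOn (fun t => φ j r t * φ l r t) (Set.Ioc (-1) 1) := by
    intro j l r
    by_cases hj : j < n
    · by_cases hl : l < n
      · rw [hφ1 j hj, hφ1 l hl]
        exact i3 _ _
      · rw [hφ1 j hj, hφ3 l hl]
        exact i4 _
    · by_cases hl : l < n
      · rw [hφ3 j hj, hφ1 l hl]
        have e : (fun t : ℝ => t * s (x l r) t) = fun t => s (x l r) t * t := by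
          funext t
          ring
        rw [e]
        exact i4 _
      · rw [hφ3 j hj, hφ3 l hl]
        exact i5
  have h := gen (n + 1) C φ hφ hφφ α β hα hαβ hβ
  have hC1 : ∀ j, j < n → C j = c j := fun j hj => by simp only [hCd, if_pos hj]
  have hC2 : C n = c0 := by simp only [hCd, lt_irrefl, if_false]
  have e1 : ∑ j ∈ range (n + 1), C j * ∏ r, ((∫ t in (α r)..(β r), φ j r t) / (β r - α r)) =
      ∑ j ∈ range n, c j * ∏ r, avs (α r) (β r) (x j r) + c0 * ∏ r, ((α r + β r) / 2) := by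
    rw [Finset.sum_range_succ]
    congr 1
    · refine Finset.sum_congr rfl fun j hj => ?_
      have hj' := Finset.mem_range.1 hj
      rw [hC1 j hj']
      congr 1
      refine Finset.prod_congr rfl fun r _ => ?_
      rw [hφ1 j hj' r]
      rfl
    · rw [hC2]
      congr 1
      refine Finset.prod_congr rfl fun r _ => ?_
      rw [hφ2 r, integral_id, div_div, div_eq_div_iff (by
        have := hαβ r
        have h0 : 0 < β r - α r := by linarith
        positivity) (by norm_num)]
      ring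
  have k1 : ∀ j l, j < n → l < n → ∏ r, ∫ t in (-1 : ℝ)..1, φ j r t * φ l r t =
      2 ^ k * Kp (x j) (x l) := by
    intro j l hj hl
    unfold Kp
    have e2 : (2 : ℝ) ^ k = ∏ _r : Fin k, (2 : ℝ) := by simp
    rw [e2, ← Finset.prod_mul_distrib]
    refine Finset.prod_congr rfl fun r _ => ?_
    rw [hφ1 j hj r, hφ1 l hl r]
    exact int_s_s _ _ (hx j r).1 (hx j r).2.le (hx l r).1 (hx l r).2.le
  have k2 : ∀ j, j < n → ∏ r, ∫ t in (-1 : ℝ)..1, φ j r t * φ n r t = 2 ^ k * hh (x j) := by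
    intro j hj
    unfold hh
    have e2 : (2 : ℝ) ^ k = ∏ _r : Fin k, (2 : ℝ) := by simp
    rw [e2, ← Finset.prod_mul_distrib]
    refine Finset.prod_congr rfl fun r _ => ?_
    rw [hφ1 j hj r, hφ2 r, int_s_id _ (hx j r).1 (hx j r).2.le]
    ring
  have k3 : ∀ j, j < n → ∏ r, ∫ t in (-1 : ℝ)..1, φ n r t * φ j r t = 2 ^ k * hh (x j) := by
    intro j hj
    rw [← k2 j hj]
    refine Finset.prod_congr rfl fun r _ => ?_
    congr 1
    funext t
    ring
  have k4 : ∏ r : Fin k, ∫ t in (-1 : ℝ)..1, φ n r t * φ n r t = (2 / 3) ^ k := by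
    have e3 : ∀ r : Fin k, ∫ t in (-1 : ℝ)..1, φ n r t * φ n r t = 2 / 3 := by
      intro r
      rw [hφ2 r]
      have e4 : (fun t : ℝ => t * t) = fun t => t ^ 2 := by
        funext t
        ring
      show ∫ t in (-1 : ℝ)..1, (fun t : ℝ => t * t) t = 2 / 3
      rw [e4, integral_pow]
      norm_num
    rw [Finset.prod_congr rfl fun r _ => e3 r, Finset.prod_const, Finset.card_univ,
      Fintype.card_fin]
  have e5 : ∑ j ∈ range (n + 1), ∑ l ∈ range (n + 1),
      C j * C l * ∏ r, ∫ t in (-1 : ℝ)..1, φ j r t * φ l r t =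
      ∑ j ∈ range n, ∑ l ∈ range n, c j * c l * (2 ^ k * Kp (x j) (x l))
        + 2 * c0 * ∑ j ∈ range n, c j * (2 ^ k * hh (x j)) + c0 ^ 2 * (2 / 3) ^ k := by
    rw [Finset.sum_range_succ]
    have a1 : ∑ j ∈ range n, ∑ l ∈ range (n + 1),
        C j * C l * ∏ r, ∫ t in (-1 : ℝ)..1, φ j r t * φ l r t =
        ∑ j ∈ range n, ∑ l ∈ range n, c j * c l * (2 ^ k * Kp (x j) (x l)) +
          ∑ j ∈ range n, c j * c0 * (2 ^ k * hh (x j)) := by
      rw [← Finset.sum_add_distrib]
      refine Finset.sum_congr rfl fun j hj => ?_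
      have hj' := Finset.mem_range.1 hj
      rw [Finset.sum_range_succ]
      congr 1
      · refine Finset.sum_congr rfl fun l hl => ?_
        have hl' := Finset.mem_range.1 hl
        rw [hC1 j hj', hC1 l hl', k1 j l hj' hl']
      · rw [hC1 j hj', hC2, k2 j hj']
    have a2 : ∑ l ∈ range (n + 1), C n * C l * ∏ r, ∫ t in (-1 : ℝ)..1, φ n r t * φ l r t =
        ∑ l ∈ range n, c0 * c l * (2 ^ k * hh (x l)) + c0 ^ 2 * (2 / 3) ^ k := by
      rw [Finset.sum_range_succ]
      congr 1
      · refine Finset.sum_congr rfl fun l hl => ?_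
        have hl' := Finset.mem_range.1 hl
        rw [hC1 l hl', hC2, k3 l hl']
      · rw [hC2, k4]
        ring
    rw [a1, a2]
    have a3 : ∑ j ∈ range n, c j * c0 * (2 ^ k * hh (x j)) =
        c0 * ∑ j ∈ range n, c j * (2 ^ k * hh (x j)) := by
      rw [Finset.mul_sum]
      refine Finset.sum_congr rfl fun j _ => ?_
      ring
    have a4 : ∑ j ∈ range n, c0 * c j * (2 ^ k * hh (x j)) =
        c0 * ∑ j ∈ range n, c j * (2 ^ k * hh (x j)) := by
      rw [Finset.mul_sum]
      refine Finset.sum_congr rfl fun j _ => ?_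
      ring
    rw [a3, a4]
    ring
  rw [e1, e5] at h
  exact h

private theorem int_one_sub (a b : ℝ) :
    ∫ y in a..b, (1 - y) = (b - a) - (b ^ 2 - a ^ 2) / 2 := by
  have h := intervalIntegral.integral_sub (μ := volume) (a := a) (b := b) (f := fun _ => (1 : ℝ))
    (g := fun y => y) (continuous_const.intervalIntegrable _ _)
    (continuous_id'.intervalIntegrable _ _)
  rw [h, intervalIntegral.integral_const, integral_id, smul_eq_mul, mul_one]

private theorem int_one_sub_max (p : ℝ) (hp : 0 ≤ p) (hp1 : p ≤ 1) :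
    ∫ y in (0 : ℝ)..1, (1 - max p y) = (1 - p ^ 2) / 2 := by
  have hc : Continuous fun y : ℝ => 1 - max p y := continuous_const.sub (continuous_const.max continuous_id)
  rw [← intervalIntegral.integral_add_adjacent_intervals (hc.intervalIntegrable 0 p)
    (hc.intervalIntegrable p 1)]
  have e1 : ∫ y in (0 : ℝ)..p, (1 - max p y) = ∫ _y in (0 : ℝ)..p, (1 - p) := by
    apply intervalIntegral.integral_congr
    intro y hy
    rw [Set.uIcc_of_le hp] at hy
    show 1 - max p y = 1 - p
    rw [max_eq_left hy.2]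
  have e2 : ∫ y in p..1, (1 - max p y) = ∫ y in p..1, (1 - y) := by
    apply intervalIntegral.integral_congr
    intro y hy
    rw [Set.uIcc_of_le hp1] at hy
    show 1 - max p y = 1 - y
    rw [max_eq_right hy.1]
  rw [e1, e2, intervalIntegral.integral_const, int_one_sub]
  simp only [smul_eq_mul]
  ring

theorem F_le_Phi {k m : ℕ} {p : ℕ → ℝ} {x : ℕ → Fin k → ℝ} (G : Gr m p x) (n : ℕ) (hn : m ≤ n)
    (t : ℝ) (ht : -1 ≤ t) (ht1 : t ≤ 1) : F p x n (p n) (x n) ≤ Phi p x n t := by
  set μ : Measure (Fin k → ℝ) := Measure.pi fun _ => volume.restrict (Set.Ioc 0 1) with hμ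
  have h01 : (0 : ℝ) ≤ 1 := by norm_num
  have hprob : μ.real Set.univ = 1 := by
    rw [Measure.real, hμ, ← Set.pi_univ Set.univ, Measure.pi_pi]
    simp
  have hfin : IsFiniteMeasure μ := by rw [hμ]; infer_instance
  have hi : ∀ f : Fin k → ℝ → ℝ, (∀ r, Continuous (f r)) →
      Integrable (fun y : Fin k → ℝ => ∏ r, f r (y r)) μ := by
    intro f hf
    exact Integrable.fintype_prod fun r =>
      (intervalIntegrable_iff_integrableOn_Ioc_of_le h01).1 ((hf r).intervalIntegrable _ _)
  have hI : ∀ f : Fin k → ℝ → ℝ, ∫ y, ∏ r, f r (y r) ∂μ = ∏ r, ∫ u in (0 : ℝ)..1, f r u := by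
    intro f
    rw [hμ, integral_fintype_prod_eq_prod f]
    refine Finset.prod_congr rfl fun r _ => ?_
    rw [intervalIntegral.integral_of_le h01]
  have c1 : ∀ p : ℝ, Continuous fun y : ℝ => 1 - max p y := fun p =>
    continuous_const.sub (continuous_const.max continuous_id)
  have c2 : Continuous fun y : ℝ => 1 - y := continuous_const.sub continuous_id
  have c3 : Continuous fun y : ℝ => (1 - y ^ 2) / 2 := by fun_prop
  have iK : ∀ j, Integrable (fun y : Fin k → ℝ => Kp (x j) y) μ := fun j =>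
    hi (fun r u => 1 - max (x j r) u) fun r => c1 _
  have i1 : Integrable (fun y : Fin k → ℝ => ∏ r, (1 - y r)) μ := hi (fun _ u => 1 - u) fun _ => c2
  have ih : Integrable (fun y : Fin k → ℝ => hh y) μ :=
    hi (fun _ u => (1 - u ^ 2) / 2) fun _ => c3
  have vK : ∀ j, ∫ y, Kp (x j) y ∂μ = hh (x j) := by
    intro j
    have h := hI fun r u => 1 - max (x j r) u
    unfold hh
    rw [← Finset.prod_congr rfl fun r _ =>
      int_one_sub_max (x j r) (G.xm j r).1 (G.xm j r).2.le]
    exact h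
  have v1 : ∫ y : Fin k → ℝ, ∏ r, (1 - y r) ∂μ = (1 / 2) ^ k := by
    have h := hI fun _ u => 1 - u
    have e : ∫ u in (0 : ℝ)..1, (1 - u) = 1 / 2 := by
      rw [int_one_sub]
      norm_num
    rw [h, Finset.prod_congr rfl fun r _ => e, Finset.prod_const, Finset.card_univ,
      Fintype.card_fin]
  have vh : ∫ y : Fin k → ℝ, hh y ∂μ = (1 / 3) ^ k := by
    have h := hI fun _ u => (1 - u ^ 2) / 2
    have e : ∫ u in (0 : ℝ)..1, (1 - u ^ 2) / 2 = 1 / 3 := by
      have h' := intervalIntegral.integral_sub (μ := volume) (a := 0) (b := 1)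
        (f := fun _ => (1 : ℝ)) (g := fun y : ℝ => y ^ 2) (continuous_const.intervalIntegrable _ _)
        ((continuous_pow 2).intervalIntegrable _ _)
      rw [intervalIntegral.integral_div, h', intervalIntegral.integral_const, integral_pow]
      norm_num
    show ∫ y : Fin k → ℝ, (∏ r, (1 - y r ^ 2) / 2) ∂μ = (1 / 3) ^ k
    rw [h, Finset.prod_congr rfl fun r _ => e, Finset.prod_const, Finset.card_univ,
      Fintype.card_fin]
  have iS : Integrable (fun y : Fin k → ℝ => 2 * ∑ j ∈ range n, kap t (p j) * Kp (x j) y) μ :=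
    (integrable_finsetSum _ fun j _ => (iK j).const_mul _).const_mul _
  have iF : Integrable (fun y : Fin k → ℝ => F p x n t y) μ := by
    unfold F
    exact (iS.add (i1.const_mul _)).sub (ih.const_mul _)
  have vF : ∫ y : Fin k → ℝ, F p x n t y ∂μ = Phi p x n t := by
    unfold F Phi
    have j1 : Integrable (fun y : Fin k → ℝ => (1 - |t|) * ∏ r, (1 - y r)) μ := i1.const_mul _
    have j2 : Integrable (fun y : Fin k → ℝ => ((n : ℝ) + 1) * (1 - t ^ 2) * hh y) μ :=
      ih.const_mul _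
    have j3 : Integrable (fun y : Fin k → ℝ => 2 * ∑ j ∈ range n, kap t (p j) * Kp (x j) y +
      (1 - |t|) * ∏ r, (1 - y r)) μ := iS.add j1
    rw [integral_sub j3 j2, integral_add iS j1, integral_const_mul, integral_const_mul,
      integral_const_mul, v1, vh,
      integral_finsetSum _ fun j _ => (iK j).const_mul _]
    simp_rw [integral_const_mul, vK]
  have hmem : ∀ᵐ y ∂μ, ∀ r, 0 ≤ y r ∧ y r ≤ 1 := by
    have e : μ = (volume : Measure (Fin k → ℝ)).restrict (Set.univ.pi fun _ => Set.Ioc 0 1) := by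
      rw [hμ, volume_pi, Measure.restrict_pi_pi]
    rw [e]
    have hms : MeasurableSet (Set.univ.pi fun _ : Fin k => Set.Ioc (0 : ℝ) 1) :=
      MeasurableSet.univ_pi fun _ => measurableSet_Ioc
    filter_upwards [ae_restrict_mem hms] with y hy r
    have := hy r (Set.mem_univ r)
    exact ⟨this.1.le, this.2⟩
  rw [← vF]
  have hc : ∫ _y : Fin k → ℝ, F p x n (p n) (x n) ∂μ = F p x n (p n) (x n) := by
    rw [integral_const, hprob, one_smul]
  rw [← hc]
  apply integral_mono_ae (integrable_const _) iF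
  filter_upwards [hmem] with y hy
  exact G.gr n hn t ht ht1 y hy

end Pool.Agent.H47.KZ
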